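import Pool.Agent.R244.RP.R

/-!
# Project RP: piece RP-A (functional analysis on `H¹`)
-/

set_option autoImplicit false

open MeasureTheory Polynomial Filter Topology
open scoped BigOperators Real

namespace Pool.Agent.R244.RP

namespace AA

/-- normalized Haar measure -/
noncomputable abbrev mu : Measure (AddCircle (2 * π)) := AddCircle.haarAddCircle (T := 2 * π)

/-- the Fourier coefficients as continuous functionals -/
noncomputable def phi (n : ℤ) : (Lp ℂ 1 mu) →L[ℂ] ℂ :=
  LinearMap.mkContinuous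
    { toFun := fun f => fourierCoeff (T := 2 * π) (f : AddCircle (2 * π) → ℂ) n
      map_add' := by
        intro f g
        rw [fourierCoeff_congr_ae (Lp.coeFn_add f g),
          fourierCoeff.add (L1.integrable_coeFn f) (L1.integrable_coeFn g)]
        rfl
      map_smul' := by
        intro c f
        rw [fourierCoeff_congr_ae (Lp.coeFn_smul c f), fourierCoeff.const_smul]
        rfl } 1 (by
      intro f
      show ‖fourierCoeff (T := 2 * π) (f : AddCircle (2 * π) → ℂ) n‖ ≤ 1 * ‖f‖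
      rw [one_mul, L1.norm_eq_integral_norm]
      unfold fourierCoeff
      refine (norm_integral_le_integral_norm _).trans_eq ?_
      congr 1
      funext t
      rw [norm_smul, fourier_apply, Circle.norm_coe, one_mul])

lemma phi_apply (n : ℤ) (f : Lp ℂ 1 mu) :
    phi n f = fourierCoeff (T := 2 * π) (f : AddCircle (2 * π) → ℂ) n := rfl

lemma phi_e (m n : ℤ) : phi m (fourierLp 1 n) = if m = n then 1 else 0 := by
  rw [phi_apply, fourierCoeff_congr_ae (coeFn_fourierLp 1 n), fourierCoeff_fourier]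
  rw [Pi.single_apply]

lemma int_fourier (n : ℤ) : ∫ x, (fourier n x : ℂ) ∂mu = if n = 0 then 1 else 0 := by
  have := congrFun (fourierCoeff_fourier (T := 2 * π) n) 0
  unfold fourierCoeff at this
  simp only [neg_zero, fourier_zero, one_smul] at this
  rw [this, Pi.single_apply]
  simp [eq_comm]

/-- the Fejér kernel on the circle -/
noncomputable def Kf (N : ℕ) (x : AddCircle (2 * π)) : ℝ :=
  (N : ℝ)⁻¹ * ‖∑ j ∈ Finset.range N, (fourier (j : ℤ) x : ℂ)‖ ^ 2

lemma Kf_cont (N : ℕ) : Continuous (Kf N) := by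
  unfold Kf
  have : Continuous fun x : AddCircle (2 * π) => ∑ j ∈ Finset.range N, (fourier (j : ℤ) x : ℂ) :=
    continuous_finsetSum _ fun j _ => (fourier (j : ℤ)).continuous
  fun_prop

lemma Kf_nonneg (N : ℕ) (x) : 0 ≤ Kf N x := by
  unfold Kf
  positivity

lemma Kf_sum (N : ℕ) (x : AddCircle (2 * π)) : (Kf N x : ℂ) =
    (N : ℂ)⁻¹ * ∑ p ∈ Finset.range N ×ˢ Finset.range N, (fourier ((p.1 : ℤ) - p.2) x : ℂ) := by
  have h1 : ((‖∑ j ∈ Finset.range N, (fourier (j : ℤ) x : ℂ)‖ ^ 2 : ℝ) : ℂ) =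
      ∑ p ∈ Finset.range N ×ˢ Finset.range N, (fourier ((p.1 : ℤ) - p.2) x : ℂ) := by
    rw [← Complex.normSq_eq_norm_sq, ← Complex.mul_conj, map_sum, Finset.sum_mul_sum,
      Finset.sum_product]
    apply Finset.sum_congr rfl
    intro i _
    apply Finset.sum_congr rfl
    intro j _
    rw [← fourier_neg, ← fourier_add, sub_eq_add_neg]
  unfold Kf
  rw [Complex.ofReal_mul, h1]
  push_cast
  rfl

lemma Kf_int (N : ℕ) (hN : 0 < N) : ∫ x, Kf N x ∂mu = 1 := by
  have h1 : ∫ x, (Kf N x : ℂ) ∂mu = 1 := by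
    simp_rw [Kf_sum]
    rw [integral_const_mul, integral_finsetSum]
    · simp_rw [int_fourier]
      rw [Finset.sum_product]
      have : ∀ i ∈ Finset.range N, ∑ j ∈ Finset.range N,
          (if (((i, j) : ℕ × ℕ).1 : ℤ) - (((i, j) : ℕ × ℕ).2 : ℤ) = 0 then (1 : ℂ) else 0) = 1 := by
        intro i hi
        rw [Finset.sum_eq_single i]
        · simp
        · intro j _ hj
          rw [if_neg]
          intro h
          apply hj
          have : ((i : ℤ)) - (j : ℤ) = 0 := h
          omega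
        · intro h
          exact absurd hi h
      rw [Finset.sum_congr rfl this]
      simp only [Finset.sum_const, Finset.card_range, nsmul_eq_mul, mul_one]
      have : (N : ℂ) ≠ 0 := by exact_mod_cast hN.ne'
      field_simp
    · intro p _
      exact (fourier _).continuous.integrable_of_hasCompactSupport
        (HasCompactSupport.of_compactSpace _)
  rw [integral_complex_ofReal] at h1
  exact_mod_cast h1

/-- Fejér means -/
noncomputable def sig (N : ℕ) : (Lp ℂ 1 mu) →L[ℂ] (Lp ℂ 1 mu) :=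
  (N : ℂ)⁻¹ • ∑ p ∈ Finset.range N ×ˢ Finset.range N,
    (phi ((p.1 : ℤ) - p.2)).smulRight (fourierLp 1 ((p.1 : ℤ) - p.2))

lemma sig_apply (N : ℕ) (f : Lp ℂ 1 mu) : sig N f = (N : ℂ)⁻¹ •
    ∑ p ∈ Finset.range N ×ˢ Finset.range N,
      phi ((p.1 : ℤ) - p.2) f • fourierLp (T := 2 * π) 1 ((p.1 : ℤ) - p.2) := by
  unfold sig
  simp [ContinuousLinearMap.sum_apply]

lemma sig_conv (N : ℕ) (f : Lp ℂ 1 mu) :
    (sig N f : AddCircle (2 * π) → ℂ) =ᵐ[mu] fun x => ∫ y, (Kf N (x - y) : ℂ) * f y ∂mu := by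
  have h1 : ∀ n : ℤ, ∀ᵐ x ∂mu, (fourierLp (T := 2 * π) 1 n : AddCircle (2 * π) → ℂ) x = fourier n x :=
    fun n => coeFn_fourierLp 1 n
  have h2 := ae_all_iff.2 h1
  have h3 : (sig N f : AddCircle (2 * π) → ℂ) =ᵐ[mu] fun x => (N : ℂ)⁻¹ *
      ∑ p ∈ Finset.range N ×ˢ Finset.range N,
        phi ((p.1 : ℤ) - p.2) f * (fourierLp (T := 2 * π) 1 ((p.1 : ℤ) - p.2) :
          AddCircle (2 * π) → ℂ) x := by
    rw [sig_apply]
    refine (Lp.coeFn_smul _ _).trans ?_
    have h4 : ∀ s : Finset (ℕ × ℕ), ((∑ p ∈ s, phi ((p.1 : ℤ) - p.2) f •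
        fourierLp (T := 2 * π) 1 ((p.1 : ℤ) - p.2) : Lp ℂ 1 mu) : AddCircle (2 * π) → ℂ) =ᵐ[mu]
        fun x => ∑ p ∈ s, phi ((p.1 : ℤ) - p.2) f *
          (fourierLp (T := 2 * π) 1 ((p.1 : ℤ) - p.2) : AddCircle (2 * π) → ℂ) x := by
      intro s
      induction s using Finset.induction_on with
      | empty =>
        simp only [Finset.sum_empty]
        exact Lp.coeFn_zero _ _ _
      | insert a s ha ih =>
        rw [Finset.sum_insert ha]
        filter_upwards [Lp.coeFn_add (phi ((a.1 : ℤ) - a.2) f •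
          fourierLp (T := 2 * π) 1 ((a.1 : ℤ) - a.2)) (∑ p ∈ s, phi ((p.1 : ℤ) - p.2) f •
          fourierLp (T := 2 * π) 1 ((p.1 : ℤ) - p.2)), ih,
          Lp.coeFn_smul (phi ((a.1 : ℤ) - a.2) f)
            (fourierLp (T := 2 * π) 1 ((a.1 : ℤ) - a.2))] with x hx1 hx2 hx3
        rw [hx1, Pi.add_apply, hx2, hx3, Finset.sum_insert ha]
        rfl
    filter_upwards [h4 (Finset.range N ×ˢ Finset.range N)] with x hx
    rw [Pi.smul_apply, hx]
    rfl
  filter_upwards [h2, h3] with x hx1 hx2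
  rw [hx2]
  simp_rw [hx1]
  have h5 : ∀ y, (Kf N (x - y) : ℂ) * f y = (N : ℂ)⁻¹ * ∑ p ∈ Finset.range N ×ˢ Finset.range N,
      (fourier ((p.1 : ℤ) - p.2) x : ℂ) * ((fourier (-((p.1 : ℤ) - p.2)) y : ℂ) • f y) := by
    intro y
    rw [Kf_sum, mul_assoc, Finset.sum_mul]
    congr 1
    apply Finset.sum_congr rfl
    intro p _
    have : (fourier ((p.1 : ℤ) - p.2) (x - y) : ℂ) = fourier ((p.1 : ℤ) - p.2) x *
        fourier (-((p.1 : ℤ) - p.2)) y := by
      rw [sub_eq_add_neg x y]
      simp only [fourier_apply]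
      rw [smul_add, AddCircle.toCircle_add, smul_neg, neg_smul]
      push_cast
      rfl
    rw [this, smul_eq_mul]
    ring
  simp_rw [h5]
  rw [integral_const_mul, integral_finsetSum]
  · congr 1
    apply Finset.sum_congr rfl
    intro p _
    rw [integral_const_mul, mul_comm]
    rfl
  · intro p _
    exact ((L1.integrable_coeFn f).fourier_smul _).const_mul _

lemma sig_norm (N : ℕ) (hN : 0 < N) (f : Lp ℂ 1 mu) : ‖sig N f‖ ≤ ‖f‖ := by
  rw [L1.norm_eq_integral_norm, L1.norm_eq_integral_norm]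
  have h1 : ∫ x, ‖(sig N f : AddCircle (2 * π) → ℂ) x‖ ∂mu =
      ∫ x, ‖∫ y, (Kf N (x - y) : ℂ) * f y ∂mu‖ ∂mu := by
    apply integral_congr_ae
    filter_upwards [sig_conv N f] with x hx
    rw [hx]
  rw [h1]
  have hfi : Integrable (f : AddCircle (2 * π) → ℂ) mu := L1.integrable_coeFn f
  obtain ⟨C, hC⟩ : ∃ C, ∀ x, ‖Kf N x‖ ≤ C := by
    obtain ⟨C, hC⟩ := isCompact_univ.exists_bound_of_continuousOn (Kf_cont N).continuousOn
    exact ⟨C, fun x => hC x (Set.mem_univ x)⟩
  have hint : Integrable (fun p : AddCircle (2 * π) × AddCircle (2 * π) =>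
      Kf N (p.1 - p.2) * ‖(f : AddCircle (2 * π) → ℂ) p.2‖) (mu.prod mu) := by
    refine (hfi.norm.comp_snd mu).bdd_mul (c := C) ?_ ?_
    · exact ((Kf_cont N).comp (continuous_fst.sub continuous_snd)).aestronglyMeasurable
    · exact Eventually.of_forall fun p => hC _
  have h2 : ∫ x, ‖∫ y, (Kf N (x - y) : ℂ) * f y ∂mu‖ ∂mu ≤
      ∫ x, ∫ y, Kf N (x - y) * ‖(f : AddCircle (2 * π) → ℂ) y‖ ∂mu ∂mu := by
    apply integral_mono_of_nonneg
    · exact Eventually.of_forall fun x => norm_nonneg _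
    · exact hint.integral_prod_left
    · refine Eventually.of_forall fun x => ?_
      refine (norm_integral_le_integral_norm _).trans_eq ?_
      congr 1
      funext y
      rw [norm_mul, Complex.norm_real, Real.norm_of_nonneg (Kf_nonneg N _)]
  refine h2.trans_eq ?_
  rw [integral_integral_swap hint]
  congr 1
  funext y
  rw [integral_mul_const, integral_sub_right_eq_self (fun x => Kf N x) y, Kf_int N hN, one_mul]

lemma sig_e (m : ℤ) (N : ℕ) : sig N (fourierLp 1 m) = ((N : ℂ)⁻¹ *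
    (((Finset.range N ×ˢ Finset.range N).filter fun p => (p.1 : ℤ) - p.2 = m).card : ℂ)) •
      fourierLp 1 m := by
  rw [sig_apply, mul_smul]
  congr 1
  simp_rw [phi_e]
  rw [← Finset.sum_filter_add_sum_filter_not _ (fun p : ℕ × ℕ => (p.1 : ℤ) - p.2 = m)]
  have h1 : ∑ p ∈ (Finset.range N ×ˢ Finset.range N).filter (fun p => ¬ (p.1 : ℤ) - p.2 = m),
      (if (p.1 : ℤ) - p.2 = m then (1 : ℂ) else 0) • fourierLp (T := 2 * π) 1 ((p.1 : ℤ) - p.2) = 0 := by
    apply Finset.sum_eq_zero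
    intro p hp
    rw [if_neg (Finset.mem_filter.1 hp).2, zero_smul]
  rw [h1, add_zero, Finset.sum_congr rfl (g := fun _ => fourierLp (T := 2 * π) 1 m)]
  · rw [Finset.sum_const, ← Nat.cast_smul_eq_nsmul ℂ]
  · intro p hp
    rw [if_pos (Finset.mem_filter.1 hp).2, (Finset.mem_filter.1 hp).2, one_smul]

lemma sig_e_tendsto (m : ℤ) : Tendsto (fun N => sig N (fourierLp 1 m)) atTop
    (𝓝 (fourierLp (T := 2 * π) 1 m)) := by
  have h1 : Tendsto (fun N : ℕ => (N : ℂ)⁻¹ *
    (((Finset.range N ×ˢ Finset.range N).filter fun p => (p.1 : ℤ) - p.2 = m).card : ℂ)) atTop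
      (𝓝 1) := by
    have h2 : Tendsto (fun N : ℕ => 1 - ((|m| : ℤ) : ℂ) * (N : ℂ)⁻¹) atTop
        (𝓝 (1 - ((|m| : ℤ) : ℂ) * 0)) := by
      apply Tendsto.const_sub
      apply Tendsto.const_mul
      exact tendsto_inv_atTop_nhds_zero_nat (𝕜 := ℂ)
    rw [mul_zero, sub_zero] at h2
    refine h2.congr' ?_
    filter_upwards [eventually_ge_atTop (m.natAbs + 1)] with N hN
    have hc := RR.card_diff N m
    have hc2 : (((Finset.range N ×ˢ Finset.range N).filter fun p => (p.1 : ℤ) - p.2 = m).card : ℤ) =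
        N - |m| := by
      rw [hc]
      apply max_eq_right
      have : |m| = (m.natAbs : ℤ) := Int.abs_eq_natAbs m
      omega
    have hc3 : (((Finset.range N ×ˢ Finset.range N).filter fun p => (p.1 : ℤ) - p.2 = m).card : ℂ) =
        N - ((|m| : ℤ) : ℂ) := by
      exact_mod_cast congrArg (fun z : ℤ => (z : ℂ)) hc2
    rw [hc3]
    have : (N : ℂ) ≠ 0 := by
      have : N ≠ 0 := by omega
      exact_mod_cast this
    field_simp
  have h3 := h1.smul_const (fourierLp (T := 2 * π) 1 m)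
  rw [one_smul] at h3
  refine h3.congr ?_
  intro N
  rw [sig_e]

lemma sig_tendsto (f : Lp ℂ 1 mu) : Tendsto (fun N => sig N f) atTop (𝓝 f) := by
  have hspan : ∀ p ∈ Submodule.span ℂ (Set.range (fourierLp (T := 2 * π) 1)),
      Tendsto (fun N => sig N p) atTop (𝓝 p) := by
    intro p hp
    induction hp using Submodule.span_induction with
    | mem x hx =>
      obtain ⟨m, rfl⟩ := hx
      exact sig_e_tendsto m
    | zero => simp
    | add x y _ _ hx hy =>
      simp_rw [map_add]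
      exact hx.add hy
    | smul a x _ hx =>
      simp_rw [map_smul]
      exact hx.const_smul a
  rw [Metric.tendsto_atTop]
  intro ε hε
  have hf : f ∈ closure ((Submodule.span ℂ (Set.range (fourierLp (T := 2 * π) 1))) :
      Set (Lp ℂ 1 mu)) := by
    rw [← Submodule.topologicalClosure_coe, span_fourierLp_closure_eq_top (by simp)]
    trivial
  obtain ⟨p, hp, hdist⟩ := Metric.mem_closure_iff.1 hf (ε / 3) (by positivity)
  obtain ⟨N0, hN0⟩ := Metric.tendsto_atTop.1 (hspan p hp) (ε / 3) (by positivity)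
  refine ⟨N0 + 1, fun N hN => ?_⟩
  have h1 := hN0 N (by omega)
  have h2 := sig_norm N (by omega) (f - p)
  rw [map_sub] at h2
  rw [dist_eq_norm] at h1 hdist ⊢
  calc ‖sig N f - f‖ = ‖(sig N f - sig N p) + (sig N p - p) - (f - p)‖ := by congr 1; abel
    _ ≤ ‖(sig N f - sig N p) + (sig N p - p)‖ + ‖f - p‖ := norm_sub_le _ _
    _ ≤ ‖sig N f - sig N p‖ + ‖sig N p - p‖ + ‖f - p‖ := by gcongr; exact norm_add_le _ _
    _ < ε := by linarith

lemma coeff_inj (f : Lp ℂ 1 mu) (h : ∀ n : ℤ, phi n f = 0) : f = 0 := by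
  have h1 := sig_tendsto f
  have h2 : ∀ N, sig N f = 0 := by
    intro N
    rw [sig_apply]
    simp [h]
  simp_rw [h2] at h1
  exact (tendsto_nhds_unique h1 tendsto_const_nhds)

/-! ### The space `H¹` -/

lemma mem_H1 (f : Lp ℂ 1 mu) : f ∈ H1 ↔ ∀ n : ℤ, n < 0 → phi n f = 0 := Iff.rfl

lemma H1_closed : IsClosed (H1 : Set (Lp ℂ 1 mu)) := by
  have : (H1 : Set (Lp ℂ 1 mu)) = ⋂ n : ℤ, ⋂ _ : n < 0, {f | phi n f = 0} := by
    ext f
    simp only [Set.mem_iInter, Set.mem_setOf_eq]
    exact mem_H1 f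
  rw [this]
  apply isClosed_iInter
  intro n
  apply isClosed_iInter
  intro _
  exact isClosed_eq (phi n).continuous continuous_const

instance : CompleteSpace H1 := H1_closed.completeSpace_coe

/-- coefficients on `H¹` -/
noncomputable def ph (n : ℕ) : H1 →L[ℂ] ℂ := (phi n).comp H1.subtypeL

lemma ph_apply (n : ℕ) (f : H1) : ph n f = phi n (f : Lp ℂ 1 mu) := rfl

lemma H1_ext (f g : H1) (h : ∀ n, ph n f = ph n g) : f = g := by
  rw [← sub_eq_zero]
  apply Subtype.ext
  apply coeff_inj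
  intro n
  rcases lt_or_ge n 0 with hn | hn
  · exact (mem_H1 _).1 (f - g).2 n hn
  · obtain ⟨k, rfl⟩ := Int.eq_ofNat_of_zero_le hn
    have h1 : ph k (f - g) = 0 := by rw [map_sub, h k, sub_self]
    exact h1

/-- the characters in `H¹` -/
noncomputable def eH (n : ℕ) : H1 := ⟨fourierLp 1 (n : ℤ), by
  rw [mem_H1]
  intro m hm
  rw [phi_e, if_neg (by omega)]⟩

lemma ph_e (m n : ℕ) : ph m (eH n) = if m = n then 1 else 0 := by
  rw [ph_apply]
  show phi m (fourierLp 1 (n : ℤ)) = _
  rw [phi_e]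
  simp

/-- analytic polynomials in `H¹` -/
noncomputable def polH (P : ℂ[X]) : H1 := ∑ n ∈ P.support, P.coeff n • eH n

lemma ph_pol (P : ℂ[X]) (m : ℕ) : ph m (polH P) = P.coeff m := by
  unfold polH
  rw [map_sum]
  simp_rw [map_smul, ph_e, smul_eq_mul, mul_ite, mul_one, mul_zero]
  rw [Finset.sum_ite_eq]
  split_ifs with h
  · rfl
  · rw [mem_support_iff, not_not] at h
    exact h.symm

lemma mult_coeff (r : ℕ → ℂ) (P : ℂ[X]) (m : ℕ) : (mult r P).coeff m = r m * P.coeff m := by
  unfold mult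
  rw [finsetSum_coeff]
  simp_rw [coeff_monomial]
  rw [Finset.sum_ite_eq']
  split_ifs with h
  · rfl
  · rw [mem_support_iff, not_not] at h
    rw [h, mul_zero]

lemma norm_pol (P : ℂ[X]) : ‖polH P‖ = avr (fun t => ‖ev P 0 t‖) := by
  have h1 : ∀ n : ℤ, ∀ᵐ x ∂mu, (fourierLp (T := 2 * π) 1 n : AddCircle (2 * π) → ℂ) x = fourier n x :=
    fun n => coeFn_fourierLp 1 n
  have h2 := ae_all_iff.2 h1
  have h4 : ∀ s : Finset ℕ, (((∑ n ∈ s, P.coeff n • eH n : H1) : Lp ℂ 1 mu) :
      AddCircle (2 * π) → ℂ) =ᵐ[mu]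
      fun x => ∑ n ∈ s, P.coeff n * (fourier (n : ℤ) x : ℂ) := by
    intro s
    induction s using Finset.induction_on with
    | empty =>
      simp only [Finset.sum_empty]
      exact Lp.coeFn_zero _ _ _
    | insert a s ha ih =>
      rw [Finset.sum_insert ha]
      filter_upwards [Lp.coeFn_add ((P.coeff a • eH a : H1) : Lp ℂ 1 mu)
        ((∑ n ∈ s, P.coeff n • eH n : H1) : Lp ℂ 1 mu), ih,
        Lp.coeFn_smul (P.coeff a) (fourierLp (T := 2 * π) 1 (a : ℤ)), h2] with x hx1 hx2 hx3 hx4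
      rw [Finset.sum_insert ha]
      have hx3' : (((P.coeff a • eH a : H1) : Lp ℂ 1 mu) : AddCircle (2 * π) → ℂ) x =
          P.coeff a * (fourier (a : ℤ) x : ℂ) := by
        rw [← hx4]
        exact hx3
      have hx1' : (((P.coeff a • eH a + ∑ n ∈ s, P.coeff n • eH n : H1) : Lp ℂ 1 mu) :
          AddCircle (2 * π) → ℂ) x = (((P.coeff a • eH a : H1) : Lp ℂ 1 mu) :
          AddCircle (2 * π) → ℂ) x + (((∑ n ∈ s, P.coeff n • eH n : H1) : Lp ℂ 1 mu) :
          AddCircle (2 * π) → ℂ) x := hx1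
      rw [hx1', hx2, hx3']
  have h5 : ‖polH P‖ = ∫ x, ‖∑ n ∈ P.support, P.coeff n * (fourier (n : ℤ) x : ℂ)‖ ∂mu := by
    show ‖((polH P : H1) : Lp ℂ 1 mu)‖ = _
    rw [L1.norm_eq_integral_norm]
    apply integral_congr_ae
    filter_upwards [h4 P.support] with x hx
    unfold polH
    rw [hx]
  rw [h5, AddCircle.integral_haarAddCircle, ← AddCircle.intervalIntegral_preimage (2 * π) 0]
  unfold avr
  rw [zero_add, smul_eq_mul]
  congr 1
  apply intervalIntegral.integral_congr
  intro t _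
  show ‖∑ n ∈ P.support, P.coeff n * (fourier (n : ℤ) (t : AddCircle (2 * π)) : ℂ)‖ = ‖ev P 0 t‖
  congr 1
  unfold ev
  rw [eval_eq_sum, Polynomial.sum]
  apply Finset.sum_congr rfl
  intro n _
  congr 1
  rw [fourier_coe_apply, ← Complex.exp_nat_mul]
  congr 1
  have : (π : ℂ) ≠ 0 := by exact_mod_cast Real.pi_ne_zero
  push_cast
  field_simp
  ring

lemma phi_sig (N : ℕ) (f : Lp ℂ 1 mu) (m : ℤ) : phi m (sig N f) = (N : ℂ)⁻¹ *
    ∑ p ∈ Finset.range N ×ˢ Finset.range N, (if m = (p.1 : ℤ) - p.2 then phi m f else 0) := by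
  rw [sig_apply, map_smul, map_sum, smul_eq_mul]
  congr 1
  apply Finset.sum_congr rfl
  intro p _
  rw [map_smul, phi_e, smul_eq_mul]
  split_ifs with h
  · rw [h, mul_one]
  · rw [mul_zero]

/-- Fejér means on `H¹` -/
noncomputable def sigH (N : ℕ) (f : H1) : H1 := ⟨sig N f, by
  rw [mem_H1]
  intro m hm
  rw [phi_sig, Finset.sum_eq_zero, mul_zero]
  intro p _
  split_ifs
  · exact (mem_H1 _).1 f.2 m hm
  · rfl⟩

lemma sigH_tendsto (f : H1) : Tendsto (fun N => sigH N f) atTop (𝓝 f) := by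
  rw [tendsto_subtype_rng]
  exact sig_tendsto f

lemma sigH_pol (N : ℕ) (f : H1) : ∃ P : ℂ[X], sigH N f = polH P := by
  refine ⟨∑ n ∈ Finset.range N, monomial n (ph n (sigH N f)), ?_⟩
  apply H1_ext
  intro m
  rw [ph_pol, finsetSum_coeff]
  simp_rw [coeff_monomial]
  rw [Finset.sum_ite_eq']
  split_ifs with h
  · rfl
  · rw [ph_apply]
    show phi m (sig N f) = 0
    rw [phi_sig, Finset.sum_eq_zero, mul_zero]
    intro p hp
    rw [Finset.mem_product, Finset.mem_range, Finset.mem_range] at hp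
    rw [Finset.mem_range] at h
    rw [if_neg]
    omega

/-- Fourier multiplier operators on `H¹` -/
def IsMul (A : H1 →L[ℂ] H1) (a : ℕ → ℂ) : Prop := ∀ (f : H1) (n : ℕ), ph n (A f) = a n * ph n f

lemma IsMul.ext {A B : H1 →L[ℂ] H1} {a b : ℕ → ℂ} (hA : IsMul A a) (hB : IsMul B b)
    (h : ∀ n, a n = b n) : A = B := by
  apply ContinuousLinearMap.ext
  intro f
  apply H1_ext
  intro n
  rw [hA, hB, h]

lemma IsMul.mul {A B : H1 →L[ℂ] H1} {a b : ℕ → ℂ} (hA : IsMul A a) (hB : IsMul B b) :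
    IsMul (A * B) (fun n => a n * b n) := by
  intro f n
  rw [ContinuousLinearMap.mul_apply, hA, hB]
  ring

lemma IsMul.scalar (l : ℂ) : IsMul (algebraMap ℂ (H1 →L[ℂ] H1) l) (fun _ => l) := by
  intro f n
  rw [Algebra.algebraMap_eq_smul_one, ContinuousLinearMap.smul_apply,
    ContinuousLinearMap.one_apply, map_smul, smul_eq_mul]

lemma IsMul.sub {A B : H1 →L[ℂ] H1} {a b : ℕ → ℂ} (hA : IsMul A a) (hB : IsMul B b) :
    IsMul (A - B) (fun n => a n - b n) := by
  intro f n
  rw [ContinuousLinearMap.sub_apply, map_sub, hA, hB]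
  ring

/-- the finite rank perturbations of the identity -/
noncomputable def W (S : ℕ) (d : ℕ → ℂ) : H1 →L[ℂ] H1 :=
  1 + ∑ n ∈ Finset.range S, (ph n).smulRight (d n • eH n)

lemma W_mul (S : ℕ) (d : ℕ → ℂ) : IsMul (W S d) (fun n => 1 + if n < S then d n else 0) := by
  intro f m
  unfold W
  rw [ContinuousLinearMap.add_apply, ContinuousLinearMap.one_apply, map_add,
    ContinuousLinearMap.sum_apply, map_sum]
  have : ∀ n ∈ Finset.range S, ph m (((ph n).smulRight (d n • eH n)) f) =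
      if m = n then d m * ph m f else 0 := by
    intro n _
    rw [ContinuousLinearMap.smulRight_apply, map_smul, map_smul, ph_e, smul_eq_mul, smul_eq_mul]
    split_ifs with h
    · rw [h]; ring
    · ring
  rw [Finset.sum_congr rfl this, Finset.sum_ite_eq]
  simp only [Finset.mem_range]
  split_ifs <;> ring

lemma resolv (R : H1 →L[ℂ] H1) (l : ℂ) (h : ‖R‖ * ‖(1 : H1 →L[ℂ] H1)‖ < ‖l‖) :
    IsUnit (algebraMap ℂ (H1 →L[ℂ] H1) l - R) := by
  have := @spectrum.mem_resolventSet_of_norm_lt_mul ℂ (H1 →L[ℂ] H1) _ _ _ _ R l h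
  exact this

lemma spec_closed (T : H1 →L[ℂ] H1) : IsClosed (spectrum ℂ T) := by
  have := @spectrum.isClosed ℂ (H1 →L[ℂ] H1) _ _ _ _ T
  exact this

end AA

open AA

theorem stmA : StmA := by
  intro c T hT hc htail
  have hTm : IsMul T c := fun f n => hT f n
  apply Set.Subset.antisymm
  · intro l hl
    by_contra hnl
    have hl0 : l ≠ 0 := by
      rintro rfl
      apply hnl
      exact mem_closure_of_tendsto hc (Eventually.of_forall fun n => Set.mem_range_self n)
    have hln : ∀ n, l - c n ≠ 0 := by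
      intro n h
      apply hnl
      rw [sub_eq_zero.1 h]
      exact subset_closure (Set.mem_range_self n)
    obtain ⟨S, hS⟩ := htail (‖l‖ / 2) (by positivity)
    set R : H1 →L[ℂ] H1 := T * W S (fun _ => -1) with hR
    have hRm : IsMul R (fun n => if n < S then 0 else c n) := by
      have := hTm.mul (W_mul S (fun _ => -1))
      intro f n
      rw [hR, this]
      show c n * (1 + if n < S then -1 else 0) * ph n f = (if n < S then 0 else c n) * ph n f
      split_ifs <;> ring
    have hRn : ‖R‖ ≤ ‖l‖ / 2 := by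
      apply ContinuousLinearMap.opNorm_le_bound _ (by positivity)
      intro f
      have h1 : ∀ P : ℂ[X], ‖R (polH P)‖ ≤ ‖l‖ / 2 * ‖polH P‖ := by
        intro P
        have : R (polH P) = polH (mult (fun j => if j < S then 0 else c j) P) := by
          apply H1_ext
          intro m
          rw [hRm, ph_pol, ph_pol, mult_coeff]
        rw [this, norm_pol, norm_pol]
        exact hS P
      have h2 : ∀ N, ‖R (sigH N f)‖ ≤ ‖l‖ / 2 * ‖sigH N f‖ := by
        intro N
        obtain ⟨P, hP⟩ := sigH_pol N f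
        rw [hP]
        exact h1 P
      have h3 := sigH_tendsto f
      exact le_of_tendsto_of_tendsto' ((R.continuous.tendsto f).comp h3).norm
        (h3.norm.const_mul _) h2
    have hunit : IsUnit (algebraMap ℂ (H1 →L[ℂ] H1) l - R) := by
      have h1 : ‖(1 : H1 →L[ℂ] H1)‖ ≤ 1 := ContinuousLinearMap.norm_id_le
      have h2 : 0 < ‖l‖ := norm_pos_iff.2 hl0
      have h3 : ‖R‖ * ‖(1 : H1 →L[ℂ] H1)‖ < ‖l‖ := by
        calc ‖R‖ * ‖(1 : H1 →L[ℂ] H1)‖ ≤ ‖l‖ / 2 * 1 := by gcongr
          _ < ‖l‖ := by linarith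
      exact resolv R l h3
    set d : ℕ → ℂ := fun n => (l - c n) / l - 1 with hd
    set d' : ℕ → ℂ := fun n => l / (l - c n) - 1 with hd'
    have hW1 : W S d * W S d' = 1 := by
      refine ((W_mul S d).mul (W_mul S d')).ext (b := fun _ => 1) ?_ ?_
      · have := IsMul.scalar 1
        rwa [map_one] at this
      · intro n
        have := hln n
        split_ifs
        · simp only [hd, hd']
          field_simp
          try ring
        · ring
    have hW2 : W S d' * W S d = 1 := by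
      refine ((W_mul S d').mul (W_mul S d)).ext (b := fun _ => 1) ?_ ?_
      · have := IsMul.scalar 1
        rwa [map_one] at this
      · intro n
        have := hln n
        split_ifs
        · simp only [hd, hd']
          field_simp
          try ring
        · ring
    have hWu : IsUnit (W S d) := ⟨⟨W S d, W S d', hW1, hW2⟩, rfl⟩
    have hfac : algebraMap ℂ (H1 →L[ℂ] H1) l - T =
        (algebraMap ℂ (H1 →L[ℂ] H1) l - R) * W S d := by
      refine ((IsMul.scalar l).sub hTm).ext (((IsMul.scalar l).sub hRm).mul (W_mul S d)) ?_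
      intro n
      split_ifs
      · simp only [hd]
        field_simp
        try ring
      · ring
    apply hl
    rw [spectrum.mem_resolventSet_iff, hfac]
    exact hunit.mul hWu
  · apply closure_minimal _ (spec_closed T)
    rintro _ ⟨n, rfl⟩
    intro hu
    rw [spectrum.mem_resolventSet_iff] at hu
    set A := algebraMap ℂ (H1 →L[ℂ] H1) (c n) - T with hA
    have hAm : IsMul A (fun m => c n - c m) := (IsMul.scalar (c n)).sub hTm
    have h1 : A (eH n) = 0 := by
      apply H1_ext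
      intro m
      rw [hAm, ph_e, map_zero]
      show (c n - c m) * _ = 0
      split_ifs with h
      · rw [h]; ring
      · ring
    obtain ⟨B, hB⟩ := hu.exists_left_inv
    have h2 : B (A (eH n)) = eH n := by
      have : (B * A) (eH n) = eH n := by rw [hB]; rfl
      exact this
    rw [h1, map_zero] at h2
    have h3 := ph_e n n
    rw [← h2, map_zero, if_pos rfl] at h3
    exact zero_ne_one h3

end Pool.Agent.R244.RP
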