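import Pool.Agent.R244.RP.Stm

/-!
# Project RP: basic facts on characters, mean values and polynomials
-/

set_option autoImplicit false

open MeasureTheory Polynomial Filter Topology
open scoped BigOperators Real ComplexConjugate

namespace Pool.Agent.R244.RP

lemma ec_add (m n : ℤ) (t : ℝ) : ec (m + n) t = ec m t * ec n t := by
  unfold ec; rw [← Complex.exp_add]; congr 1; push_cast; ring

@[simp] lemma ec_zero (t : ℝ) : ec 0 t = 1 := by simp [ec]

@[simp] lemma ec_at_zero (n : ℤ) : ec n 0 = 1 := by simp [ec]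

lemma ec_eq (n : ℤ) (t : ℝ) : ec n t = Complex.exp (((n * t : ℝ) : ℂ) * Complex.I) := by
  unfold ec; push_cast; ring_nf

@[simp] lemma norm_ec (n : ℤ) (t : ℝ) : ‖ec n t‖ = 1 := by
  rw [ec_eq]; exact Complex.norm_exp_ofReal_mul_I _

lemma conj_ec (n : ℤ) (t : ℝ) : conj (ec n t) = ec (-n) t := by
  unfold ec
  rw [← Complex.exp_conj]; congr 1
  simp

lemma ec_mul_neg (n : ℤ) (t : ℝ) : ec n t * ec (-n) t = 1 := by
  rw [← ec_add]; simp

lemma ec_arg_add (n : ℤ) (s t : ℝ) : ec n (s + t) = ec n s * ec n t := by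
  unfold ec; rw [← Complex.exp_add]; congr 1; push_cast; ring

lemma ec_arg_neg (n : ℤ) (t : ℝ) : ec n (-t) = ec (-n) t := by
  unfold ec; congr 1; push_cast; ring

lemma ec_arg_sub (n : ℤ) (s t : ℝ) : ec n (s - t) = ec n s * ec (-n) t := by
  rw [sub_eq_add_neg, ec_arg_add, ec_arg_neg]

@[fun_prop] lemma continuous_ec (n : ℤ) : Continuous (ec n) := by
  unfold ec; fun_prop

lemma ec_periodic (n : ℤ) : Function.Periodic (ec n) (2 * π) := by
  intro t
  rw [ec_arg_add]
  have : ec n (2 * π) = 1 := by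
    unfold ec
    rw [show ((n : ℂ) * ((2 * π : ℝ) : ℂ) * Complex.I) = n * (2 * π * Complex.I) by push_cast; ring]
    exact Complex.exp_int_mul_two_pi_mul_I n
  rw [this, mul_one]

lemma ec_natCast (n : ℕ) (t : ℝ) : ec (n : ℤ) t = (Complex.exp (t * Complex.I)) ^ n := by
  unfold ec; rw [← Complex.exp_nat_mul]; congr 1; push_cast; ring

/-! ### mean values -/

lemma av_ec (n : ℤ) : av (ec n) = if n = 0 then 1 else 0 := by
  unfold av
  split_ifs with h
  · subst h
    have : ec 0 = fun _ => (1 : ℂ) := by funext t; simp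
    rw [this]
    simp only [intervalIntegral.integral_const, sub_zero]
    have : ((2 * π : ℝ) : ℂ) ≠ 0 := by
      exact_mod_cast (by positivity : (2 * π : ℝ) ≠ 0)
    rw [Complex.real_smul, mul_one]
    exact inv_mul_cancel₀ this
  · have hn : (n : ℂ) * Complex.I ≠ 0 := mul_ne_zero (by exact_mod_cast h) Complex.I_ne_zero
    have : ∀ t : ℝ, ec n t = Complex.exp ((n * Complex.I) * t) := by
      intro t; unfold ec; congr 1; ring
    simp_rw [this]
    rw [integral_exp_mul_complex hn]
    have e1 : Complex.exp (n * Complex.I * ((2 * π : ℝ) : ℂ)) = 1 := by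
      rw [show ((n : ℂ) * Complex.I * ((2 * π : ℝ) : ℂ)) = n * (2 * π * Complex.I) by push_cast; ring]
      exact Complex.exp_int_mul_two_pi_mul_I n
    rw [e1]; simp

lemma av_const (c : ℂ) : av (fun _ => c) = c := by
  unfold av
  simp only [intervalIntegral.integral_const, sub_zero, Complex.real_smul]
  have : ((2 * π : ℝ) : ℂ) ≠ 0 := by
    exact_mod_cast (by positivity : (2 * π : ℝ) ≠ 0)
  field_simp

lemma avr_const (c : ℝ) : avr (fun _ => c) = c := by
  unfold avr
  simp only [intervalIntegral.integral_const, sub_zero, smul_eq_mul]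
  have : (2 * π : ℝ) ≠ 0 := by positivity
  field_simp

lemma av_add {F G : ℝ → ℂ} (hF : Continuous F) (hG : Continuous G) :
    av (fun t => F t + G t) = av F + av G := by
  unfold av
  rw [intervalIntegral.integral_add (hF.intervalIntegrable _ _) (hG.intervalIntegrable _ _), mul_add]

lemma av_const_mul (c : ℂ) (F : ℝ → ℂ) : av (fun t => c * F t) = c * av F := by
  unfold av
  rw [intervalIntegral.integral_const_mul]; ring

lemma av_mul_const (c : ℂ) (F : ℝ → ℂ) : av (fun t => F t * c) = av F * c := by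
  unfold av
  rw [intervalIntegral.integral_mul_const]; ring

lemma av_sum {ι : Type*} (s : Finset ι) (F : ι → ℝ → ℂ) (hF : ∀ i ∈ s, Continuous (F i)) :
    av (fun t => ∑ i ∈ s, F i t) = ∑ i ∈ s, av (F i) := by
  unfold av
  rw [intervalIntegral.integral_finsetSum (fun i hi => (hF i hi).intervalIntegrable _ _),
    Finset.mul_sum]

lemma avr_add {F G : ℝ → ℝ} (hF : Continuous F) (hG : Continuous G) :
    avr (fun t => F t + G t) = avr F + avr G := by
  unfold avr
  rw [intervalIntegral.integral_add (hF.intervalIntegrable _ _) (hG.intervalIntegrable _ _), mul_add]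

lemma avr_sub {F G : ℝ → ℝ} (hF : Continuous F) (hG : Continuous G) :
    avr (fun t => F t - G t) = avr F - avr G := by
  unfold avr
  rw [intervalIntegral.integral_sub (hF.intervalIntegrable _ _) (hG.intervalIntegrable _ _), mul_sub]

lemma avr_const_mul (c : ℝ) (F : ℝ → ℝ) : avr (fun t => c * F t) = c * avr F := by
  unfold avr
  rw [intervalIntegral.integral_const_mul]; ring

lemma avr_mul_const (c : ℝ) (F : ℝ → ℝ) : avr (fun t => F t * c) = avr F * c := by
  unfold avr
  rw [intervalIntegral.integral_mul_const]; ring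

lemma avr_sum {ι : Type*} (s : Finset ι) (F : ι → ℝ → ℝ) (hF : ∀ i ∈ s, Continuous (F i)) :
    avr (fun t => ∑ i ∈ s, F i t) = ∑ i ∈ s, avr (F i) := by
  unfold avr
  rw [intervalIntegral.integral_finsetSum (fun i hi => (hF i hi).intervalIntegrable _ _),
    Finset.mul_sum]

lemma avr_mono {F G : ℝ → ℝ} (hF : Continuous F) (hG : Continuous G) (h : ∀ t, F t ≤ G t) :
    avr F ≤ avr G := by
  unfold avr
  apply mul_le_mul_of_nonneg_left _ (by positivity)
  exact intervalIntegral.integral_mono (by positivity) (hF.intervalIntegrable _ _)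
    (hG.intervalIntegrable _ _) h

lemma avr_nonneg {F : ℝ → ℝ} (h : ∀ t, 0 ≤ F t) : 0 ≤ avr F := by
  unfold avr
  exact mul_nonneg (by positivity)
    (intervalIntegral.integral_nonneg (by positivity) (fun t _ => h t))

lemma av_ofReal (F : ℝ → ℝ) : av (fun t => (F t : ℂ)) = (avr F : ℂ) := by
  unfold av avr
  rw [intervalIntegral.integral_ofReal]; push_cast; ring

lemma re_av {F : ℝ → ℂ} (hF : Continuous F) : (av F).re = avr (fun t => (F t).re) := by
  unfold av avr
  rw [← Complex.ofReal_inv, Complex.re_ofReal_mul]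
  congr 1
  have := intervalIntegral.intervalIntegral_re (𝕜 := ℂ) (f := F) (a := 0) (b := 2 * π)
    (hF.intervalIntegrable (μ := volume) _ _)
  simpa using this.symm

lemma norm_av_le {F : ℝ → ℂ} : ‖av F‖ ≤ avr (fun t => ‖F t‖) := by
  unfold av avr
  rw [norm_mul, norm_inv, Complex.norm_real, Real.norm_of_nonneg (by positivity : (0:ℝ) ≤ 2 * π)]
  apply mul_le_mul_of_nonneg_left _ (by positivity)
  exact intervalIntegral.norm_integral_le_integral_norm (by positivity)

/-- translation invariance -/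
lemma avr_shift {F : ℝ → ℝ} (hF : Function.Periodic F (2 * π)) (s : ℝ) :
    avr (fun t => F (t + s)) = avr F := by
  unfold avr
  rw [intervalIntegral.integral_comp_add_right (fun t => F t) s]
  congr 1
  have := hF.intervalIntegral_add_eq s 0
  rw [zero_add] at this ⊢
  rw [add_comm (2 * π) s]
  exact this

lemma av_shift {F : ℝ → ℂ} (hF : Function.Periodic F (2 * π)) (s : ℝ) :
    av (fun t => F (t + s)) = av F := by
  unfold av
  rw [intervalIntegral.integral_comp_add_right (fun t => F t) s]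
  congr 1
  have := hF.intervalIntegral_add_eq s 0
  rw [zero_add] at this ⊢
  rw [add_comm (2 * π) s]
  exact this

/-- reflection -/
lemma avr_neg {F : ℝ → ℝ} (hF : Function.Periodic F (2 * π)) :
    avr (fun t => F (-t)) = avr F := by
  unfold avr
  rw [intervalIntegral.integral_comp_neg (fun t => F t)]
  congr 1
  have := hF.intervalIntegral_add_eq (-(2 * π)) 0
  simpa using this

/-! ### polynomials on circles -/

lemma ev_eq_sum (P : ℂ[X]) (x t : ℝ) :
    ev P x t = ∑ n ∈ P.support, P.coeff n * (Real.exp (-(n * x)) : ℂ) * ec (n : ℤ) t := by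
  unfold ev
  rw [Polynomial.eval_eq_sum, Polynomial.sum]
  apply Finset.sum_congr rfl
  intro n _
  rw [mul_assoc]
  congr 1
  rw [← Complex.exp_nat_mul]
  unfold ec
  rw [Complex.ofReal_exp, ← Complex.exp_add]
  congr 1; push_cast; ring

lemma ev_eq_sum' (P : ℂ[X]) (x t : ℝ) (s : Finset ℕ) (hs : P.support ⊆ s) :
    ev P x t = ∑ n ∈ s, P.coeff n * (Real.exp (-(n * x)) : ℂ) * ec (n : ℤ) t := by
  rw [ev_eq_sum]
  apply Finset.sum_subset hs
  intro n _ hn
  rw [Polynomial.notMem_support_iff.mp hn]; simp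

@[fun_prop] lemma continuous_ev (P : ℂ[X]) (x : ℝ) : Continuous (ev P x) := by
  unfold ev
  exact P.continuous.comp (by fun_prop)

lemma continuous_ev2 (P : ℂ[X]) : Continuous (fun p : ℝ × ℝ => ev P p.1 p.2) := by
  unfold ev
  exact P.continuous.comp (by fun_prop)

lemma ev_periodic (P : ℂ[X]) (x : ℝ) : Function.Periodic (ev P x) (2 * π) := by
  intro t
  rw [ev_eq_sum, ev_eq_sum]
  simp_rw [(ec_periodic _) t]

lemma ev_mul (P Q : ℂ[X]) (x t : ℝ) : ev (P * Q) x t = ev P x t * ev Q x t := by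
  unfold ev; rw [Polynomial.eval_mul]

lemma ev_add (P Q : ℂ[X]) (x t : ℝ) : ev (P + Q) x t = ev P x t + ev Q x t := by
  unfold ev; rw [Polynomial.eval_add]

lemma ev_sub (P Q : ℂ[X]) (x t : ℝ) : ev (P - Q) x t = ev P x t - ev Q x t := by
  unfold ev; rw [Polynomial.eval_sub]

lemma ev_smul (c : ℂ) (P : ℂ[X]) (x t : ℝ) : ev (C c * P) x t = c * ev P x t := by
  unfold ev; rw [Polynomial.eval_mul, Polynomial.eval_C]

/-- `‖P_x‖₂²` -/
noncomputable def nx (P : ℂ[X]) (x : ℝ) : ℝ :=
  ∑ n ∈ P.support, ‖P.coeff n‖ ^ 2 * Real.exp (-(2 * n * x))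

lemma nx_nonneg (P : ℂ[X]) (x : ℝ) : 0 ≤ nx P x := by unfold nx; positivity

lemma nsq_nonneg (P : ℂ[X]) : 0 ≤ nsq P := by unfold nsq; positivity

lemma nx_zero (P : ℂ[X]) : nx P 0 = nsq P := by simp [nx, nsq]

lemma nsq_eq_sum (P : ℂ[X]) (s : Finset ℕ) (hs : P.support ⊆ s) :
    nsq P = ∑ n ∈ s, ‖P.coeff n‖ ^ 2 := by
  unfold nsq
  apply Finset.sum_subset hs
  intro n _ hn
  rw [Polynomial.notMem_support_iff.mp hn]; simp

lemma nx_eq_sum (P : ℂ[X]) (x : ℝ) (s : Finset ℕ) (hs : P.support ⊆ s) :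
    nx P x = ∑ n ∈ s, ‖P.coeff n‖ ^ 2 * Real.exp (-(2 * n * x)) := by
  unfold nx
  apply Finset.sum_subset hs
  intro n _ hn
  rw [Polynomial.notMem_support_iff.mp hn]; simp

/-- the inner product of two polynomials on a circle -/
lemma av_ev_mul_conj (P Q : ℂ[X]) (x : ℝ) (s : Finset ℕ) (hP : P.support ⊆ s) :
    av (fun t => ev P x t * conj (ev Q x t)) =
      ∑ n ∈ s, P.coeff n * conj (Q.coeff n) * (Real.exp (-(2 * n * x)) : ℂ) := by
  set r := s ∪ Q.support with hr
  have hPr : P.support ⊆ r := hP.trans Finset.subset_union_left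
  have hQr : Q.support ⊆ r := Finset.subset_union_right
  have e1 : ∀ t, ev P x t * conj (ev Q x t) = ∑ n ∈ r, ∑ k ∈ r,
      (P.coeff n * (Real.exp (-(n * x)) : ℂ) * (conj (Q.coeff k) * (Real.exp (-(k * x)) : ℂ))) *
        ec ((n : ℤ) - k) t := by
    intro t
    rw [ev_eq_sum' P x t r hPr, ev_eq_sum' Q x t r hQr, map_sum, Finset.sum_mul_sum]
    apply Finset.sum_congr rfl; intro n _
    apply Finset.sum_congr rfl; intro k _
    rw [map_mul, map_mul, conj_ec, Complex.conj_ofReal, sub_eq_add_neg, ec_add]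
    ring
  simp_rw [e1]
  rw [av_sum _ _ (fun n _ => by fun_prop)]
  have e2 : ∀ n ∈ r, av (fun t => ∑ k ∈ r,
      (P.coeff n * (Real.exp (-(n * x)) : ℂ) * (conj (Q.coeff k) * (Real.exp (-(k * x)) : ℂ))) *
        ec ((n : ℤ) - k) t) = P.coeff n * conj (Q.coeff n) * (Real.exp (-(2 * n * x)) : ℂ) := by
    intro n hn
    rw [av_sum _ _ (fun k _ => by fun_prop)]
    rw [Finset.sum_eq_single n]
    · rw [av_const_mul, av_ec, if_pos (sub_self _), mul_one]
      have : Real.exp (-(2 * n * x)) = Real.exp (-(n * x)) * Real.exp (-(n * x)) := by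
        rw [← Real.exp_add]; congr 1; ring
      rw [this]; push_cast; ring
    · intro k _ hk
      rw [av_const_mul, av_ec, if_neg, mul_zero]
      intro h
      exact hk (by omega)
    · intro h; exact absurd hn h
  rw [Finset.sum_congr rfl e2]
  symm
  apply Finset.sum_subset Finset.subset_union_left
  intro n _ hn
  rw [Polynomial.notMem_support_iff.mp (fun h => hn (hP h))]; simp

lemma avr_norm_sq (P : ℂ[X]) (x : ℝ) : avr (fun t => ‖ev P x t‖ ^ 2) = nx P x := by
  have h := av_ev_mul_conj P P x P.support subset_rfl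
  have e : (fun t => ev P x t * conj (ev P x t)) = fun t => ((‖ev P x t‖ ^ 2 : ℝ) : ℂ) := by
    funext t; rw [Complex.mul_conj, Complex.normSq_eq_norm_sq]
  rw [e, av_ofReal] at h
  have : ((avr (fun t => ‖ev P x t‖ ^ 2) : ℝ) : ℂ) = ((nx P x : ℝ) : ℂ) := by
    rw [h]; unfold nx; push_cast
    apply Finset.sum_congr rfl; intro n _
    rw [Complex.mul_conj, Complex.normSq_eq_norm_sq]; push_cast; ring
  exact_mod_cast this

/-- `av (P Q)` -/
lemma av_ev (P : ℂ[X]) (x : ℝ) : av (fun t => ev P x t) = P.coeff 0 := by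
  have e1 : ∀ t, ev P x t = ∑ n ∈ insert 0 P.support,
      P.coeff n * (Real.exp (-(n * x)) : ℂ) * ec (n : ℤ) t := fun t =>
    ev_eq_sum' P x t _ (Finset.subset_insert _ _)
  simp_rw [e1]
  rw [av_sum _ _ (fun n _ => by fun_prop), Finset.sum_eq_single 0]
  · rw [av_const_mul, av_ec]; simp
  · intro n _ hn
    rw [av_const_mul, av_ec, if_neg (by exact_mod_cast hn), mul_zero]
  · intro h; exact absurd (Finset.mem_insert_self _ _) h

/-! ### multipliers -/

lemma coeff_mult (m : ℕ → ℂ) (P : ℂ[X]) (n : ℕ) : (mult m P).coeff n = m n * P.coeff n := by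
  unfold mult
  rw [Polynomial.finsetSum_coeff]
  simp_rw [Polynomial.coeff_monomial]
  rw [Finset.sum_ite_eq' P.support n (fun k => m k * P.coeff k)]
  split_ifs with h
  · rfl
  · rw [Polynomial.notMem_support_iff.mp h, mul_zero]

lemma support_mult (m : ℕ → ℂ) (P : ℂ[X]) : (mult m P).support ⊆ P.support := by
  intro n hn
  rw [Polynomial.mem_support_iff, coeff_mult] at hn
  rw [Polynomial.mem_support_iff]
  exact fun h => hn (by rw [h, mul_zero])

lemma mult_add (m : ℕ → ℂ) (P Q : ℂ[X]) : mult m (P + Q) = mult m P + mult m Q := by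
  ext n; simp only [coeff_mult, Polynomial.coeff_add]; ring

lemma mult_sub (m : ℕ → ℂ) (P Q : ℂ[X]) : mult m (P - Q) = mult m P - mult m Q := by
  ext n; simp only [coeff_mult, Polynomial.coeff_sub]; ring

lemma mult_comp (m k : ℕ → ℂ) (P : ℂ[X]) : mult m (mult k P) = mult (fun j => m j * k j) P := by
  ext n; simp only [coeff_mult]; ring

lemma coeff_D (P : ℂ[X]) (n : ℕ) : (D P).coeff n = n * P.coeff n := by
  unfold D
  rcases n with _ | n
  · simp
  · rw [Polynomial.coeff_X_mul, Polynomial.coeff_derivative]; push_cast; ring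

lemma D_mul (P Q : ℂ[X]) : D (P * Q) = D P * Q + P * D Q := by
  unfold D; rw [Polynomial.derivative_mul]; ring

lemma coeff_In (P : ℂ[X]) (n : ℕ) : (In P).coeff n = (n : ℂ)⁻¹ * P.coeff n := coeff_mult _ _ _

lemma D_In (P : ℂ[X]) (h : P.coeff 0 = 0) : D (In P) = P := by
  ext n
  rw [coeff_D, coeff_In]
  rcases Nat.eq_zero_or_pos n with h0 | h0
  · subst h0; rw [h]; simp
  · have : (n : ℂ) ≠ 0 := by exact_mod_cast h0.ne'
    field_simp

lemma coeff_zero_D (P : ℂ[X]) : (D P).coeff 0 = 0 := by rw [coeff_D]; simp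

lemma D_para (g h : ℂ[X]) : D (para g h) = g * D h := by
  unfold para
  apply D_In
  rw [Polynomial.mul_coeff_zero, coeff_zero_D, mul_zero]

lemma coeff_zero_para (g h : ℂ[X]) : (para g h).coeff 0 = 0 := by
  unfold para; rw [coeff_In]; simp

/-- `g h = para g h + para h g + g₀ h₀` -/
lemma mul_eq_para (g h : ℂ[X]) : g * h = para g h + para h g + C (g.coeff 0 * h.coeff 0) := by
  ext n
  rw [Polynomial.coeff_add, Polynomial.coeff_add, para, para, coeff_In, coeff_In,
    Polynomial.coeff_C]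
  rcases Nat.eq_zero_or_pos n with h0 | h0
  · subst h0; simp [Polynomial.mul_coeff_zero]
  · rw [if_neg h0.ne', add_zero, ← mul_add, ← Polynomial.coeff_add]
    have : g * D h + h * D g = D (g * h) := by rw [D_mul]; ring
    rw [this, coeff_D]
    have : (n : ℂ) ≠ 0 := by exact_mod_cast h0.ne'
    field_simp

end Pool.Agent.R244.RP
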