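import Pool.Agent.R244.RP.M

/-!
# Project RP: the core inequality
-/

set_option autoImplicit false

open MeasureTheory Polynomial Filter Topology Set
open scoped BigOperators Real ComplexConjugate

namespace Pool.Agent.R244.RP

lemma avr_swap {F : ℝ → ℝ → ℝ} (hF : Continuous (Function.uncurry F)) :
    avr (fun φ => avr (fun s => F φ s)) = avr (fun s => avr (fun φ => F φ s)) := by
  unfold avr
  have h2 : (0 : ℝ) ≤ 2 * π := by positivity
  simp_rw [intervalIntegral.integral_of_le h2]
  rw [integral_const_mul, integral_const_mul]
  congr 2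
  apply integral_integral_swap
  rw [Measure.prod_restrict]
  have : IntegrableOn (Function.uncurry F) (Icc 0 (2 * π) ×ˢ Icc 0 (2 * π))
      (volume.prod volume) :=
    hF.continuousOn.integrableOn_compact (isCompact_Icc.prod isCompact_Icc)
  exact this.mono_set (Set.prod_mono Ioc_subset_Icc_self Ioc_subset_Icc_self)

lemma continuous_avr {F : ℝ → ℝ → ℝ} (hF : Continuous (Function.uncurry F)) :
    Continuous (fun φ => avr (fun s => F φ s)) := by
  unfold avr
  apply Continuous.mul continuous_const
  exact intervalIntegral.continuous_parametric_intervalIntegral_of_continuous' hF _ _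

@[fun_prop] lemma continuous_Fe (m : ℕ) : Continuous (Fe m) := by unfold Fe; fun_prop

lemma Fe_nonneg (m : ℕ) (t : ℝ) : 0 ≤ Fe m t := by unfold Fe; positivity

lemma Fe_periodic (m : ℕ) : Function.Periodic (Fe m) (2 * π) := by
  intro t; unfold Fe; simp_rw [(ec_periodic _) t]

/-- the Fejér kernel has mean 1 -/
lemma avr_Fe (m : ℕ) (hm : 0 < m) : avr (Fe m) = 1 := by
  unfold Fe
  have e : (fun t => (m : ℝ)⁻¹ * ‖∑ j ∈ Finset.range m, ec (j : ℤ) t‖ ^ 2) =
      fun t => (m : ℝ)⁻¹ * ‖ev (∑ j ∈ Finset.range m, X ^ j) 0 t‖ ^ 2 := by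
    funext t
    congr 3
    unfold ev
    rw [Polynomial.eval_finsetSum]
    apply Finset.sum_congr rfl
    intro j _
    rw [Polynomial.eval_pow, Polynomial.eval_X, ec_natCast]
    simp
  rw [e, avr_const_mul, avr_norm_sq, nx_zero]
  have hs : (∑ j ∈ Finset.range m, (X : ℂ[X]) ^ j).support ⊆ Finset.range m := by
    intro k hk
    rw [Polynomial.mem_support_iff, Polynomial.finsetSum_coeff] at hk
    by_contra hk2
    apply hk
    apply Finset.sum_eq_zero
    intro j hj
    rw [Polynomial.coeff_X_pow, if_neg]
    intro h; subst h; exact hk2 hj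
  rw [nsq_eq_sum _ _ hs]
  have : ∀ k ∈ Finset.range m, ‖(∑ j ∈ Finset.range m, (X : ℂ[X]) ^ j).coeff k‖ ^ 2 = 1 := by
    intro k hk
    rw [Polynomial.finsetSum_coeff]
    simp_rw [Polynomial.coeff_X_pow]
    rw [Finset.sum_ite_eq (Finset.range m) k (fun _ => (1 : ℂ)), if_pos hk]
    simp
  rw [Finset.sum_congr rfl this]
  simp
  have : (m : ℝ) ≠ 0 := by exact_mod_cast hm.ne'
  field_simp

/-! ### the pairing is linear in the symbol -/

/-- the pairing of the monomial `z^j` with `Re w` -/
noncomputable def ml (w : ℂ[X]) (j : ℕ) : ℂ := pr (monomial j 1) w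

lemma pr_sum_monomial (w : ℂ[X]) (s : Finset ℕ) (c : ℕ → ℂ) :
    pr (∑ j ∈ s, monomial j (c j)) w = ∑ j ∈ s, c j * ml w j := by
  unfold pr ml pr
  have e : (fun t => ev (∑ j ∈ s, monomial j (c j)) 0 t * ((ev w 0 t).re : ℂ)) =
      fun t => ∑ j ∈ s, c j * (ev (monomial j 1) 0 t * ((ev w 0 t).re : ℂ)) := by
    funext t
    have : ev (∑ j ∈ s, monomial j (c j)) 0 t = ∑ j ∈ s, c j * ev (monomial j 1) 0 t := by
      unfold ev
      rw [Polynomial.eval_finsetSum]
      apply Finset.sum_congr rfl
      intro j _
      rw [Polynomial.eval_monomial, Polynomial.eval_monomial, one_mul]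
    rw [this, Finset.sum_mul]
    apply Finset.sum_congr rfl
    intro j _
    ring
  rw [e, av_sum _ _ (fun j _ => by fun_prop)]
  apply Finset.sum_congr rfl
  intro j _
  rw [av_const_mul]

lemma pr_mult (m : ℕ → ℂ) (P w : ℂ[X]) :
    pr (mult m P) w = ∑ j ∈ P.support, m j * P.coeff j * ml w j := by
  unfold mult
  rw [pr_sum_monomial]

lemma pr_add (P Q w : ℂ[X]) : pr (P + Q) w = pr P w + pr Q w := by
  unfold pr
  rw [← av_add (by fun_prop) (by fun_prop)]
  congr 1; funext t; rw [ev_add]; ring

lemma pr_sub (P Q w : ℂ[X]) : pr (P - Q) w = pr P w - pr Q w := by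
  have := pr_add (P - Q) Q w
  rw [sub_add_cancel] at this
  rw [this]; ring

lemma norm_pr_le (Q w : ℂ[X]) (hw : Bdd w) : ‖pr Q w‖ ≤ avr (fun t => ‖ev Q 0 t‖) := by
  unfold pr
  refine norm_av_le.trans (avr_mono (by fun_prop) (by fun_prop) fun t => ?_)
  rw [norm_mul, Complex.norm_real, Real.norm_eq_abs]
  have hU : |(ev w 0 t).re| ≤ 1 := by
    apply hw
    rw [Complex.norm_exp]
    simp
  calc ‖ev Q 0 t‖ * |(ev w 0 t).re| ≤ ‖ev Q 0 t‖ * 1 := by gcongr
    _ = _ := mul_one _

/-- continuity in the shift -/
lemma continuous_pr_sym (v : ℕ → ℕ → ℝ) (K : ℕ) (P w : ℂ[X]) :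
    Continuous (fun s => pr (mult (sym v K s) P) w) := by
  simp_rw [pr_mult]
  unfold sym
  fun_prop

/-! ### step 1: products -/

lemma bilinear (hE : StmE) : ∃ C : ℝ, 0 ≤ C ∧ ∀ (m : ℕ → ℕ) (v : ℕ → ℕ → ℝ), Ker m v →
    ∀ (N : ℕ) (g h w : ℂ[X]), Bdd w →
      ∑ K ∈ Finset.range N, avr (fun s => Fe (m K) s * ‖pr (mult (sym v K s) (g * h)) w‖) ≤
        C * (√(nsq g) * √(nsq h)) := by
  obtain ⟨C1, hC1, h1⟩ := hE
  obtain ⟨C2, hC2, h2⟩ := stmM
  refine ⟨2 * C1 + 2 * C2, by positivity, ?_⟩
  intro m v hv N g h w hw
  -- one ordered pair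
  have hcont : ∀ (g h : ℂ[X]) K, Continuous (fun s => avr (fun t =>
      ‖ev (mult (sym v K s) (para g h) - para g (mult (sym v K s) h)) 0 t‖)) := by
    intro g h K
    apply continuous_avr
    have hs : ∀ P : ℂ[X], Continuous (fun p : ℝ × ℝ => ev (mult (sym v K p.1) P) 0 p.2) := by
      intro P
      have : (fun p : ℝ × ℝ => ev (mult (sym v K p.1) P) 0 p.2) = fun p : ℝ × ℝ =>
          ∑ j ∈ P.support, sym v K p.1 j * P.coeff j * ec (j : ℤ) p.2 := by
        funext p
        rw [ev_eq_sum' _ _ _ P.support (support_mult _ _)]
        apply Finset.sum_congr rfl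
        intro j _
        rw [coeff_mult]; simp
      rw [this]
      unfold sym
      fun_prop
    have hp : Continuous (fun p : ℝ × ℝ => ev (para g (mult (sym v K p.1) h)) 0 p.2) := by
      -- coefficients are finite sums
      have e : ∀ s : ℝ, para g (mult (sym v K s) h) =
          ∑ j ∈ h.support, para g (monomial j (h.coeff j)) * C (sym v K s j) := by
        intro s
        ext n
        rw [Polynomial.finsetSum_coeff]
        simp_rw [Polynomial.coeff_mul_C]
        unfold para
        simp_rw [coeff_In]
        have : mult (sym v K s) h = ∑ j ∈ h.support, C (sym v K s j) * monomial j (h.coeff j) := by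
          unfold mult
          apply Finset.sum_congr rfl
          intro j _
          rw [Polynomial.C_mul_monomial]
        rw [this]
        have hD : D (∑ j ∈ h.support, C (sym v K s j) * monomial j (h.coeff j)) =
            ∑ j ∈ h.support, C (sym v K s j) * D (monomial j (h.coeff j)) := by
          unfold D
          rw [Polynomial.derivative_sum, Finset.mul_sum]
          apply Finset.sum_congr rfl
          intro j _
          rw [Polynomial.derivative_C_mul]; ring
        rw [hD, Finset.mul_sum, Polynomial.finsetSum_coeff, Finset.mul_sum]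
        apply Finset.sum_congr rfl
        intro j _
        rw [show g * (C (sym v K s j) * D (monomial j (h.coeff j))) =
          C (sym v K s j) * (g * D (monomial j (h.coeff j))) by ring, Polynomial.coeff_C_mul]
        ring
      have e2 : (fun p : ℝ × ℝ => ev (para g (mult (sym v K p.1) h)) 0 p.2) = fun p : ℝ × ℝ =>
          ∑ j ∈ h.support, ev (para g (monomial j (h.coeff j))) 0 p.2 * sym v K p.1 j := by
        funext p
        rw [e]
        unfold ev
        rw [Polynomial.eval_finsetSum]
        apply Finset.sum_congr rfl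
        intro j _
        rw [Polynomial.eval_mul, Polynomial.eval_C]
      rw [e2]
      apply continuous_finsetSum
      intro j _
      apply Continuous.mul
      · exact (continuous_ev _ 0).comp continuous_snd
      · unfold sym; fun_prop
    have : Function.uncurry (fun s t =>
        ‖ev (mult (sym v K s) (para g h) - para g (mult (sym v K s) h)) 0 t‖) = fun p : ℝ × ℝ =>
        ‖ev (mult (sym v K p.1) (para g h)) 0 p.2 - ev (para g (mult (sym v K p.1) h)) 0 p.2‖ := by
      funext p
      simp only [Function.uncurry]
      rw [ev_sub]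
    rw [this]
    exact ((hs _).sub hp).norm
  have hcp : ∀ (g h : ℂ[X]) K, Continuous (fun s => pr (para g (mult (sym v K s) h)) w) := by
    intro g h K
    have e : ∀ s, pr (para g (mult (sym v K s) h)) w = ∑ j ∈ h.support,
        sym v K s j * pr (para g (monomial j (h.coeff j))) w := by
      intro s
      have e1 : para g (mult (sym v K s) h) =
          ∑ j ∈ h.support, C (sym v K s j) * para g (monomial j (h.coeff j)) := by
        ext n
        rw [Polynomial.finsetSum_coeff]
        simp_rw [Polynomial.coeff_C_mul]
        unfold para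
        simp_rw [coeff_In]
        have : mult (sym v K s) h = ∑ j ∈ h.support, C (sym v K s j) * monomial j (h.coeff j) := by
          unfold mult
          apply Finset.sum_congr rfl
          intro j _
          rw [Polynomial.C_mul_monomial]
        rw [this]
        have hD : D (∑ j ∈ h.support, C (sym v K s j) * monomial j (h.coeff j)) =
            ∑ j ∈ h.support, C (sym v K s j) * D (monomial j (h.coeff j)) := by
          unfold D
          rw [Polynomial.derivative_sum, Finset.mul_sum]
          apply Finset.sum_congr rfl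
          intro j _
          rw [Polynomial.derivative_C_mul]; ring
        rw [hD, Finset.mul_sum, Polynomial.finsetSum_coeff, Finset.mul_sum]
        apply Finset.sum_congr rfl
        intro j _
        rw [show g * (C (sym v K s j) * D (monomial j (h.coeff j))) =
          C (sym v K s j) * (g * D (monomial j (h.coeff j))) by ring, Polynomial.coeff_C_mul]
        ring
      rw [e1]
      unfold pr
      have : (fun t => ev (∑ j ∈ h.support, C (sym v K s j) * para g (monomial j (h.coeff j))) 0 t *
          ((ev w 0 t).re : ℂ)) = fun t => ∑ j ∈ h.support, sym v K s j *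
            (ev (para g (monomial j (h.coeff j))) 0 t * ((ev w 0 t).re : ℂ)) := by
        funext t
        have : ev (∑ j ∈ h.support, C (sym v K s j) * para g (monomial j (h.coeff j))) 0 t =
            ∑ j ∈ h.support, sym v K s j * ev (para g (monomial j (h.coeff j))) 0 t := by
          unfold ev
          rw [Polynomial.eval_finsetSum]
          apply Finset.sum_congr rfl
          intro j _
          rw [Polynomial.eval_mul, Polynomial.eval_C]
        rw [this, Finset.sum_mul]
        apply Finset.sum_congr rfl
        intro j _; ring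
      rw [this, av_sum _ _ (fun j _ => by fun_prop)]
      apply Finset.sum_congr rfl
      intro j _
      rw [av_const_mul]
    simp_rw [e]
    unfold sym
    fun_prop
  have hone : ∀ g h : ℂ[X], ∑ K ∈ Finset.range N,
      avr (fun s => Fe (m K) s * ‖pr (mult (sym v K s) (para g h)) w‖) ≤
      (C1 + C2) * (√(nsq g) * √(nsq h)) := by
    intro g h
    have hsup : ∀ K, ∃ s : ℝ, ∀ t ∈ Icc (0 : ℝ) (2 * π),
        ‖pr (para g (mult (sym v K t) h)) w‖ ≤ ‖pr (para g (mult (sym v K s) h)) w‖ := by
      intro K
      obtain ⟨s, -, hs⟩ := isCompact_Icc.exists_isMaxOn (s := Icc (0 : ℝ) (2 * π))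
        ⟨0, by constructor <;> positivity⟩ ((hcp g h K).norm.continuousOn)
      exact ⟨s, fun t ht => hs ht⟩
    choose s hs using hsup
    have hK : ∀ K ∈ Finset.range N,
        avr (fun s => Fe (m K) s * ‖pr (mult (sym v K s) (para g h)) w‖) ≤
        avr (fun s => Fe (m K) s * avr (fun t =>
          ‖ev (mult (sym v K s) (para g h) - para g (mult (sym v K s) h)) 0 t‖)) +
        ‖pr (para g (mult (sym v K (s K)) h)) w‖ := by
      intro K _
      have hm : 0 < m K := (hv.lac K).1
      have c1 : Continuous (fun s => Fe (m K) s * avr (fun t =>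
          ‖ev (mult (sym v K s) (para g h) - para g (mult (sym v K s) h)) 0 t‖)) :=
        (continuous_Fe _).mul (hcont g h K)
      have c2 : Continuous (fun s => Fe (m K) s * ‖pr (para g (mult (sym v K s) h)) w‖) :=
        (continuous_Fe _).mul (hcp g h K).norm
      have c3 : Continuous (fun s => Fe (m K) s * ‖pr (mult (sym v K s) (para g h)) w‖) :=
        (continuous_Fe _).mul (continuous_pr_sym v K _ w).norm
      have a1 : avr (fun s => Fe (m K) s * ‖pr (mult (sym v K s) (para g h)) w‖) ≤
          avr (fun s => Fe (m K) s * avr (fun t =>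
          ‖ev (mult (sym v K s) (para g h) - para g (mult (sym v K s) h)) 0 t‖)) +
          avr (fun s => Fe (m K) s * ‖pr (para g (mult (sym v K s) h)) w‖) := by
        rw [← avr_add c1 c2]
        apply avr_mono c3 (c1.add c2)
        intro s
        simp only [Pi.add_apply]
        rw [← mul_add]
        apply mul_le_mul_of_nonneg_left _ (Fe_nonneg _ _)
        have : pr (mult (sym v K s) (para g h)) w =
            pr (mult (sym v K s) (para g h) - para g (mult (sym v K s) h)) w +
            pr (para g (mult (sym v K s) h)) w := by rw [pr_sub]; ring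
        rw [this]
        refine (norm_add_le _ _).trans ?_
        gcongr
        exact norm_pr_le _ _ hw
      have a2 : avr (fun s => Fe (m K) s * ‖pr (para g (mult (sym v K s) h)) w‖) ≤
          ‖pr (para g (mult (sym v K (s K)) h)) w‖ := by
        have : avr (fun s => Fe (m K) s * ‖pr (para g (mult (sym v K s) h)) w‖) ≤
            avr (fun t => Fe (m K) t * ‖pr (para g (mult (sym v K (s K)) h)) w‖) := by
          unfold avr
          apply mul_le_mul_of_nonneg_left _ (by positivity)
          apply intervalIntegral.integral_mono_on (by positivity) (c2.intervalIntegrable _ _)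
            (Continuous.intervalIntegrable (by fun_prop) _ _)
          intro t ht
          exact mul_le_mul_of_nonneg_left (hs K t ht) (Fe_nonneg _ _)
        rw [avr_mul_const, avr_Fe _ hm, one_mul] at this
        exact this
      linarith
    refine (Finset.sum_le_sum hK).trans ?_
    rw [Finset.sum_add_distrib]
    have b1 := h1 m v hv N g h
    have b2 := h2 m v hv N g h w hw s
    linarith
  -- both orders
  have hK : ∀ K ∈ Finset.range N,
      avr (fun s => Fe (m K) s * ‖pr (mult (sym v K s) (g * h)) w‖) ≤
      avr (fun s => Fe (m K) s * ‖pr (mult (sym v K s) (para g h)) w‖) +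
      avr (fun s => Fe (m K) s * ‖pr (mult (sym v K s) (para h g)) w‖) := by
    intro K _
    have c : ∀ P : ℂ[X], Continuous (fun s => Fe (m K) s * ‖pr (mult (sym v K s) P) w‖) :=
      fun P => (continuous_Fe _).mul (continuous_pr_sym v K _ w).norm
    rw [← avr_add (c _) (c _)]
    apply avr_mono (c _) ((c _).add (c _))
    intro s
    simp only [Pi.add_apply]
    rw [← mul_add]
    apply mul_le_mul_of_nonneg_left _ (Fe_nonneg _ _)
    have hz : mult (sym v K s) (g * h) = mult (sym v K s) (para g h) + mult (sym v K s) (para h g) := by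
      rw [mul_eq_para g h, mult_add, mult_add]
      have : mult (sym v K s) (C (g.coeff 0 * h.coeff 0)) = 0 := by
        ext n
        rw [coeff_mult, Polynomial.coeff_C]
        split_ifs with h0
        · subst h0
          have : v K 0 = 0 := by
            by_contra hne
            exact absurd (hv.supp K 0 hne).1 (by omega)
          simp [sym, this]
        · simp
      rw [this, add_zero]
    rw [hz, pr_add]
    exact norm_add_le _ _
  refine (Finset.sum_le_sum hK).trans ?_
  rw [Finset.sum_add_distrib]
  have b1 := hone g h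
  have b2 := hone h g
  rw [mul_comm (√(nsq h))] at b2
  linarith

end Pool.Agent.R244.RP
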