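import Pool.Agent.R244.RP.Core

/-!
# Project RP: the tail of a Riesz product is small on `H¹`
-/

set_option autoImplicit false

open MeasureTheory Polynomial Filter Topology Set
open scoped BigOperators Real ComplexConjugate

namespace Pool.Agent.R244.RP

lemma norm_coeff_le (Q : ℂ[X]) (δ : ℝ) (hδ : 0 ≤ δ) (h : ∀ t, ‖ev Q 0 t‖ ≤ δ) (j : ℕ) :
    ‖Q.coeff j‖ ≤ δ := by
  have h1 : nsq Q ≤ δ ^ 2 := by
    rw [← nx_zero, ← avr_norm_sq]
    have := avr_mono (F := fun t => ‖ev Q 0 t‖ ^ 2) (G := fun _ => δ ^ 2) (by fun_prop)
      (by fun_prop) (fun t => by have := h t; gcongr)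
    rwa [avr_const] at this
  have h2 : ‖Q.coeff j‖ ^ 2 ≤ nsq Q := by
    by_cases hj : j ∈ Q.support
    · unfold nsq
      exact Finset.single_le_sum (f := fun n => ‖Q.coeff n‖ ^ 2) (fun i _ => by positivity) hj
    · rw [Polynomial.notMem_support_iff.mp hj]
      simpa using nsq_nonneg Q
  exact (sq_le_sq₀ (norm_nonneg _) hδ).mp (h2.trans h1)

/-! ### step 2: all analytic polynomials -/

lemma single (hE : StmE) (hF : StmF) : ∃ C : ℝ, 0 ≤ C ∧ ∀ (m : ℕ → ℕ) (v : ℕ → ℕ → ℝ), Ker m v →
    ∀ (N : ℕ) (f w : ℂ[X]), Bdd w →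
      ∑ K ∈ Finset.range N, avr (fun s => Fe (m K) s * ‖pr (mult (sym v K s) f) w‖) ≤
        C * avr (fun t => ‖ev f 0 t‖) := by
  obtain ⟨C, hC, hb⟩ := bilinear hE
  refine ⟨C, hC, ?_⟩
  intro m v hv N f w hw
  set A := avr (fun t => ‖ev f 0 t‖) with hA
  have hA0 : 0 ≤ A := avr_nonneg fun t => norm_nonneg _
  set M : ℝ := ∑ K ∈ Finset.range N, 16 * (m K : ℝ) with hM
  have hM0 : 0 ≤ M := by positivity
  have key : ∀ δ : ℝ, 0 < δ →
      ∑ K ∈ Finset.range N, avr (fun s => Fe (m K) s * ‖pr (mult (sym v K s) f) w‖) ≤
        C * (A + δ) + δ * M := by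
    intro δ hδ
    obtain ⟨g, h, hg, hh, hgh⟩ := hF f δ hδ
    set Q := f - g * h with hQ
    have hQs : ∀ t, ‖ev Q 0 t‖ ≤ δ := by
      intro t
      rw [hQ, ev_sub, norm_sub_rev]
      exact hgh t
    have hK : ∀ K ∈ Finset.range N,
        avr (fun s => Fe (m K) s * ‖pr (mult (sym v K s) f) w‖) ≤
        avr (fun s => Fe (m K) s * ‖pr (mult (sym v K s) (g * h)) w‖) + δ * (16 * m K) := by
      intro K _
      have hm : 0 < m K := (hv.lac K).1
      have c : ∀ P : ℂ[X], Continuous (fun s => Fe (m K) s * ‖pr (mult (sym v K s) P) w‖) :=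
        fun P => (continuous_Fe _).mul (continuous_pr_sym v K _ w).norm
      have hb1 : ∀ s, ‖pr (mult (sym v K s) Q) w‖ ≤ δ * (16 * m K) := by
        intro s
        refine (norm_pr_le _ _ hw).trans ?_
        have : ∀ t, ‖ev (mult (sym v K s) Q) 0 t‖ ≤ δ * (16 * m K) := by
          intro t
          rw [ev_eq_sum' _ _ _ Q.support (support_mult _ _)]
          refine (norm_sum_le _ _).trans ?_
          calc ∑ n ∈ Q.support, ‖(mult (sym v K s) Q).coeff n *
                (Real.exp (-(n * (0 : ℝ))) : ℂ) * ec (n : ℤ) t‖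
              ≤ ∑ n ∈ Q.support, (if n < 16 * m K then δ else 0) := by
                apply Finset.sum_le_sum
                intro n _
                rw [coeff_mult]
                simp only [mul_zero, neg_zero, Real.exp_zero, Complex.ofReal_one, mul_one,
                  norm_mul, norm_ec, sym, Complex.norm_real, Real.norm_eq_abs]
                split_ifs with hn
                · calc |v K n| * ‖Q.coeff n‖ ≤ 1 * δ := by
                        gcongr
                        · exact hv.le K n
                        · exact norm_coeff_le Q δ hδ.le hQs n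
                    _ = δ := one_mul _
                · have : v K n = 0 := by
                    by_contra hne
                    exact hn (hv.supp K n hne).2
                  rw [this]; simp
            _ = ∑ n ∈ Q.support.filter (· < 16 * m K), δ := by rw [Finset.sum_filter]
            _ ≤ ∑ n ∈ Finset.range (16 * m K), δ := by
                apply Finset.sum_le_sum_of_subset_of_nonneg
                · intro n hn
                  rw [Finset.mem_filter] at hn
                  exact Finset.mem_range.mpr hn.2
                · intro _ _ _; exact hδ.le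
            _ = δ * (16 * m K) := by
                rw [Finset.sum_const, Finset.card_range, nsmul_eq_mul]; push_cast; ring
        have h2 := avr_mono (F := fun t => ‖ev (mult (sym v K s) Q) 0 t‖)
          (G := fun _ => δ * (16 * m K)) (by fun_prop) (by fun_prop) this
        rwa [avr_const] at h2
      calc avr (fun s => Fe (m K) s * ‖pr (mult (sym v K s) f) w‖)
          ≤ avr (fun s => Fe (m K) s * ‖pr (mult (sym v K s) (g * h)) w‖ +
              Fe (m K) s * (δ * (16 * m K))) := by
            apply avr_mono (c f) ((c _).add (by fun_prop))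
            intro s
            simp only [Pi.add_apply]
            rw [← mul_add]
            apply mul_le_mul_of_nonneg_left _ (Fe_nonneg _ _)
            have : pr (mult (sym v K s) f) w = pr (mult (sym v K s) (g * h)) w +
                pr (mult (sym v K s) Q) w := by
              rw [hQ, mult_sub, pr_sub]; ring
            rw [this]
            exact (norm_add_le _ _).trans (by gcongr; exact hb1 s)
        _ = _ := by
            rw [avr_add (c _) (by fun_prop), avr_mul_const, avr_Fe _ hm, one_mul]
    refine (Finset.sum_le_sum hK).trans ?_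
    rw [Finset.sum_add_distrib, ← Finset.mul_sum]
    have b := hb m v hv N g h w hw
    have h3 : √(nsq g) * √(nsq h) ≤ A + δ := by
      calc √(nsq g) * √(nsq h) ≤ √(A + δ) * √(A + δ) := by gcongr
        _ = A + δ := Real.mul_self_sqrt (by positivity)
    have h4 := mul_le_mul_of_nonneg_left h3 hC
    linarith
  apply le_of_forall_pos_le_add
  intro ε hε
  have h := key (ε / (C + M + 1)) (by positivity)
  refine h.trans ?_
  have e : C * (A + ε / (C + M + 1)) + ε / (C + M + 1) * M =
      C * A + ε * ((C + M) / (C + M + 1)) := by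
    field_simp
    ring
  rw [e]
  have : (C + M) / (C + M + 1) ≤ 1 := by
    rw [div_le_one (by positivity)]; linarith
  nlinarith

/-! ### step 3: one block of a Riesz product -/

lemma rp_periodic (n : ℕ → ℕ) (a : ℕ → ℂ) (K : ℕ) : Function.Periodic (rp n a K) (2 * π) := by
  intro t; unfold rp; simp_rw [(ec_periodic _) t]

@[fun_prop] lemma continuous_rp (n : ℕ → ℕ) (a : ℕ → ℂ) (K : ℕ) : Continuous (rp n a K) := by
  unfold rp
  apply continuous_finsetProd
  intro k _
  exact continuous_const.add (Complex.continuous_re.comp (by fun_prop))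

lemma block (n : ℕ → ℕ) (a : ℕ → ℂ) (hn : Lac n) (ha : ∀ k, ‖a k‖ ≤ 1) (hR : StmR)
    (k N : ℕ) (hkN : k ≤ N) (h32 : 32 ≤ n k) (v : ℕ → ℕ → ℝ) (K : ℕ)
    (hv1 : ∀ j : ℕ, 2 * |(j : ℤ) - n k| ≤ (n k : ℤ) → v K j = 1) (f w : ℂ[X]) :
    ‖pr (mult (fun j => rc n a k ((j : ℤ) - n k)) f) w‖ ≤
      25 * avr (fun φ => rp n a N φ * avr (fun s => Fe (n k / 8) s *
        ‖pr (mult (sym v K s) (mult (fun j => ec (-(j : ℤ)) φ) f)) w‖)) := by
  obtain ⟨r1, r2, r3, r4, r5, r6⟩ := hR n a hn ha
  set W : ℝ → ℂ := fun φ => pr (mult (sym v K φ) f) w with hW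
  have hWc : Continuous W := continuous_pr_sym v K f w
  have hWe : ∀ φ, W φ = ∑ j ∈ f.support, sym v K φ j * f.coeff j * ml w j := fun φ => pr_mult _ _ _
  have hWp : Function.Periodic W (2 * π) := by
    intro φ
    rw [hWe, hWe]
    unfold sym
    simp_rw [(ec_periodic _) φ]
  have hshift : ∀ s φ, pr (mult (sym v K s) (mult (fun j => ec (-(j : ℤ)) φ) f)) w = W (φ + s) := by
    intro s φ
    rw [mult_comp, hW]
    simp only
    congr 2
    funext j
    unfold sym
    rw [ec_arg_add]; ring
  simp_rw [hshift]
  -- the block as an average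
  have hL : pr (mult (fun j => rc n a k ((j : ℤ) - n k)) f) w =
      av (fun φ => ec (n k : ℤ) φ * (rp n a k φ : ℂ) * W φ) := by
    rw [pr_mult]
    have e : (fun φ => ec (n k : ℤ) φ * (rp n a k φ : ℂ) * W φ) = fun φ => ∑ j ∈ f.support,
        (v K j * f.coeff j * ml w j) * ((rp n a k φ : ℂ) * ec (-((j : ℤ) - n k)) φ) := by
      funext φ
      rw [hWe, Finset.mul_sum]
      apply Finset.sum_congr rfl
      intro j _
      rw [show -((j : ℤ) - n k) = (n k : ℤ) + -(j : ℤ) by ring, ec_add]
      unfold sym; ring
    rw [e, av_sum _ _ (fun j _ => by fun_prop)]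
    apply Finset.sum_congr rfl
    intro j _
    rw [av_const_mul]
    change rc n a k ((j : ℤ) - n k) * f.coeff j * ml w j =
      v K j * f.coeff j * ml w j * rc n a k ((j : ℤ) - n k)
    by_cases h0 : rc n a k ((j : ℤ) - n k) = 0
    · rw [h0]; ring
    · have : v K j = 1 := by
        apply hv1
        by_contra hc
        exact h0 (r3 k _ (by omega))
      rw [this]; push_cast; ring
  rw [hL]
  have c1 : Continuous (fun φ => rp n a k φ * ‖W φ‖) := (continuous_rp _ _ _).mul hWc.norm
  have huc : Continuous (Function.uncurry fun φ s => Fe (n k / 8) s * rp n a N (φ - s) * ‖W φ‖) := by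
    have := hWc.comp (continuous_fst (X := ℝ) (Y := ℝ))
    have h2 := (continuous_rp n a N).comp ((continuous_fst (X := ℝ) (Y := ℝ)).sub continuous_snd)
    exact (((continuous_Fe _).comp continuous_snd).mul h2).mul this.norm
  calc ‖av (fun φ => ec (n k : ℤ) φ * (rp n a k φ : ℂ) * W φ)‖
      ≤ avr (fun φ => rp n a k φ * ‖W φ‖) := by
        refine norm_av_le.trans (le_of_eq ?_)
        congr 1; funext φ
        rw [norm_mul, norm_mul, norm_ec, one_mul, Complex.norm_real, Real.norm_of_nonneg (r1 k φ)]
    _ ≤ avr (fun φ => 25 * avr (fun s => Fe (n k / 8) s * rp n a N (φ - s) * ‖W φ‖)) := by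
        apply avr_mono c1 (continuous_const.mul (continuous_avr huc))
        intro φ
        simp only [Pi.mul_apply]
        rw [avr_mul_const]
        have := r6 k N φ hkN h32
        have h2 := mul_le_mul_of_nonneg_right this (norm_nonneg (W φ))
        linarith
    _ = 25 * avr (fun s => avr (fun φ => Fe (n k / 8) s * rp n a N (φ - s) * ‖W φ‖)) := by
        rw [avr_const_mul, avr_swap huc]
    _ = 25 * avr (fun s => avr (fun φ => rp n a N φ * (Fe (n k / 8) s * ‖W (φ + s)‖))) := by
        congr 2
        funext s
        have hp : Function.Periodic (fun φ => Fe (n k / 8) s * rp n a N (φ - s) * ‖W φ‖)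
            (2 * π) := by
          intro φ
          simp only
          rw [hWp φ, show φ + 2 * π - s = (φ - s) + 2 * π by ring, rp_periodic n a N (φ - s)]
        rw [← avr_shift hp s]
        congr 1; funext φ
        rw [add_sub_cancel_right]; ring
    _ = 25 * avr (fun φ => avr (fun s => rp n a N φ * (Fe (n k / 8) s * ‖W (φ + s)‖))) := by
        have hu2 : Continuous (Function.uncurry fun s φ =>
            rp n a N φ * (Fe (n k / 8) s * ‖W (φ + s)‖)) := by
          have := hWc.comp ((continuous_snd (X := ℝ) (Y := ℝ)).add continuous_fst)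
          exact ((continuous_rp n a N).comp continuous_snd).mul
            (((continuous_Fe _).comp continuous_fst).mul this.norm)
        rw [avr_swap hu2]
    _ = _ := by
        congr 2
        funext φ
        rw [avr_const_mul]

lemma avr_translate (f : ℂ[X]) (φ : ℝ) :
    avr (fun t => ‖ev (mult (fun j => ec (-(j : ℤ)) φ) f) 0 t‖) = avr (fun t => ‖ev f 0 t‖) := by
  have e : ∀ t, ev (mult (fun j => ec (-(j : ℤ)) φ) f) 0 t = ev f 0 (t + -φ) := by
    intro t
    rw [ev_eq_sum' _ _ _ f.support (support_mult _ _), ev_eq_sum' f _ _ f.support subset_rfl]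
    apply Finset.sum_congr rfl
    intro j _
    rw [coeff_mult, ec_arg_add, ec_arg_neg]; ring
  simp_rw [e]
  exact avr_shift (F := fun t => ‖ev f 0 t‖) (fun t => by simp only [ev_periodic f 0 t]) (-φ)

/-! ### steps 4 and 5 -/

theorem tail (hE : StmE) (hF : StmF) (hD : StmD) (hR : StmR) (hV : StmV) :
    ∃ C : ℝ, 0 ≤ C ∧ ∀ (n : ℕ → ℕ) (a : ℕ → ℂ), Lac n → (∀ k, ‖a k‖ ≤ 1) →
      ∀ (J L : ℕ) (ε : ℝ), 32 ≤ n J → (∀ K, J ≤ K → ‖a K‖ ≤ ε) → ∀ f : ℂ[X],
        avr (fun t => ‖ev (mult (fun j => if 2 * j ≤ n J then 0 else rc n a (J + L) j) f) 0 t‖) ≤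
          C * ε * avr (fun t => ‖ev f 0 t‖) := by
  obtain ⟨C, hC, hs⟩ := single hE hF
  refine ⟨25 * C, by positivity, ?_⟩
  intro n a hn ha J L ε h32 hε f
  obtain ⟨r1, r2, r3, r4, r5, r6⟩ := hR n a hn ha
  have hε0 : 0 ≤ ε := (norm_nonneg _).trans (hε J le_rfl)
  have hmono : ∀ K, n J ≤ n (J + K) := by
    intro K
    induction K with
    | zero => exact le_rfl
    | succ K ih =>
      have := (hn (J + K)).2
      rw [← add_assoc]
      omega
  have h32' : ∀ K, 32 ≤ n (J + K) := fun K => h32.trans (hmono K)
  -- the kernels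
  choose v hv using fun K => hV (n (J + K)) (h32' K)
  set m : ℕ → ℕ := fun K => n (J + K) / 8 with hm
  have hker : Ker m v := by
    refine ⟨?_, fun K j => (hv K).1 j, fun K j => (hv K).2.1 j, fun K t => (hv K).2.2.2 t⟩
    intro K
    have h1 := h32' K
    have h2 := (hn (J + K)).2
    rw [add_assoc] at h2
    simp only [hm]
    omega
  set A := avr (fun t => ‖ev f 0 t‖) with hA
  -- duality
  have key : ∀ w : ℂ[X], Bdd w →
      ‖pr (mult (fun j => if 2 * j ≤ n J then 0 else rc n a (J + L) j) f) w‖ ≤
        ε / 2 * (25 * (C * A)) := by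
    intro w hw
    -- decomposition into blocks
    have hdec : pr (mult (fun j => if 2 * j ≤ n J then 0 else rc n a (J + L) j) f) w =
        ∑ K ∈ Finset.range L, a (J + K) / 2 *
          pr (mult (fun j => rc n a (J + K) ((j : ℤ) - n (J + K))) f) w := by
      simp_rw [pr_mult, Finset.mul_sum]
      rw [Finset.sum_comm]
      apply Finset.sum_congr rfl
      intro j _
      have hsym : (if 2 * j ≤ n J then 0 else rc n a (J + L) j) =
          ∑ K ∈ Finset.range L, a (J + K) / 2 * rc n a (J + K) ((j : ℤ) - n (J + K)) := by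
        split_ifs with hj
        · symm
          apply Finset.sum_eq_zero
          intro K _
          rw [r3 (J + K) _ ?_, mul_zero]
          have h1 := hmono K
          rw [abs_of_nonpos (by omega)]
          omega
        · rw [r5, if_neg (by omega), zero_add, Finset.sum_range_add]
          rw [Finset.sum_eq_zero, zero_add]
          intro K hK
          rw [Finset.mem_range] at hK
          rw [r3 K _ ?_, mul_zero]
          have h1 : 3 * n K ≤ n J := by
            obtain ⟨d, rfl⟩ : ∃ d, J = K + 1 + d := ⟨J - (K + 1), by omega⟩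
            have h2 : ∀ d, n (K + 1) ≤ n (K + 1 + d) := by
              intro d
              induction d with
              | zero => exact le_rfl
              | succ d ih =>
                have := (hn (K + 1 + d)).2
                rw [← add_assoc]
                omega
            exact (hn K).2.trans (h2 d)
          rw [abs_of_nonneg (by omega)]
          omega
      rw [hsym, Finset.sum_mul, Finset.sum_mul]
      apply Finset.sum_congr rfl
      intro K _; ring
    rw [hdec]
    have hblock : ∀ K ∈ Finset.range L,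
        ‖pr (mult (fun j => rc n a (J + K) ((j : ℤ) - n (J + K))) f) w‖ ≤
        25 * avr (fun φ => rp n a (J + L) φ * avr (fun s => Fe (m K) s *
          ‖pr (mult (sym v K s) (mult (fun j => ec (-(j : ℤ)) φ) f)) w‖)) := by
      intro K hK
      rw [Finset.mem_range] at hK
      exact block n a hn ha hR (J + K) (J + L) (by omega) (h32' K) v K (fun j hj => (hv K).2.2.1 j hj)
        f w
    have hcK : ∀ K, Continuous (fun φ => rp n a (J + L) φ * avr (fun s => Fe (m K) s *
          ‖pr (mult (sym v K s) (mult (fun j => ec (-(j : ℤ)) φ) f)) w‖)) := by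
      intro K
      apply (continuous_rp _ _ _).mul
      apply continuous_avr
      have e : (Function.uncurry fun φ s => Fe (m K) s *
          ‖pr (mult (sym v K s) (mult (fun j => ec (-(j : ℤ)) φ) f)) w‖) = fun p : ℝ × ℝ =>
          Fe (m K) p.2 * ‖∑ j ∈ f.support, sym v K p.2 j * ec (-(j : ℤ)) p.1 * f.coeff j * ml w j‖ := by
        funext p
        simp only [Function.uncurry]
        rw [mult_comp, pr_mult]
      rw [e]
      unfold sym
      have : Continuous (fun p : ℝ × ℝ => Fe (m K) p.2) := (continuous_Fe _).comp continuous_snd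
      apply this.mul
      apply Continuous.norm
      fun_prop
    calc ‖∑ K ∈ Finset.range L, a (J + K) / 2 *
          pr (mult (fun j => rc n a (J + K) ((j : ℤ) - n (J + K))) f) w‖
        ≤ ∑ K ∈ Finset.range L, ‖a (J + K) / 2 *
          pr (mult (fun j => rc n a (J + K) ((j : ℤ) - n (J + K))) f) w‖ := norm_sum_le _ _
      _ ≤ ∑ K ∈ Finset.range L, ε / 2 *
          (25 * avr (fun φ => rp n a (J + L) φ * avr (fun s => Fe (m K) s *
            ‖pr (mult (sym v K s) (mult (fun j => ec (-(j : ℤ)) φ) f)) w‖))) := by
          apply Finset.sum_le_sum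
          intro K hK
          rw [norm_mul, norm_div]
          have h1 := hε (J + K) (by omega)
          have h2 := hblock K hK
          have h3 : ‖(2 : ℂ)‖ = 2 := by simp
          rw [h3]
          gcongr
      _ = ε / 2 * (25 * avr (fun φ => rp n a (J + L) φ * ∑ K ∈ Finset.range L,
            avr (fun s => Fe (m K) s *
            ‖pr (mult (sym v K s) (mult (fun j => ec (-(j : ℤ)) φ) f)) w‖))) := by
          rw [← Finset.mul_sum, ← Finset.mul_sum, ← avr_sum _ _ (fun K _ => hcK K)]
          congr 3
          funext φ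
          rw [Finset.mul_sum]
      _ ≤ ε / 2 * (25 * avr (fun φ => rp n a (J + L) φ * (C * A))) := by
          apply mul_le_mul_of_nonneg_left _ (by positivity)
          apply mul_le_mul_of_nonneg_left _ (by norm_num)
          apply avr_mono
          · have e : (fun φ => rp n a (J + L) φ * ∑ K ∈ Finset.range L,
                avr (fun s => Fe (m K) s *
                ‖pr (mult (sym v K s) (mult (fun j => ec (-(j : ℤ)) φ) f)) w‖)) =
                fun φ => ∑ K ∈ Finset.range L, rp n a (J + L) φ * avr (fun s => Fe (m K) s *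
                ‖pr (mult (sym v K s) (mult (fun j => ec (-(j : ℤ)) φ) f)) w‖) := by
              funext φ; rw [Finset.mul_sum]
            rw [e]
            exact continuous_finsetSum _ fun K _ => hcK K
          · fun_prop
          · intro φ
            apply mul_le_mul_of_nonneg_left _ (r1 _ φ)
            have := hs m v hker L (mult (fun j => ec (-(j : ℤ)) φ) f) w hw
            rwa [avr_translate] at this
      _ = ε / 2 * (25 * (C * A)) := by
          rw [avr_mul_const, r2, one_mul]
  have h := hD _ _ key
  linarith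

end Pool.Agent.R244.RP
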