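import Pool.Agent.R244.RP.Stm

/-!
# Project RP: piece RP-D (duality with real trigonometric polynomials)
-/

set_option autoImplicit false

open MeasureTheory Polynomial Filter Topology
open scoped BigOperators Real

namespace Pool.Agent.R244.RP

namespace DD

lemma ev_zero (P : ℂ[X]) (t : ℝ) : ev P 0 t = P.eval (Complex.exp (t * Complex.I)) := by
  unfold ev
  simp

lemma ev_cont (P : ℂ[X]) : Continuous fun t => ev P 0 t := by
  unfold ev
  have h : Continuous fun t : ℝ => Complex.exp (-((0 : ℝ) : ℂ) + t * Complex.I) := by fun_prop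
  exact P.continuous.comp h

/-- uniform approximation of real continuous functions on the circle by real parts of polynomials -/
lemma approx (g : ℂ → ℝ) (hg : Continuous g) (ε : ℝ) (hε : 0 < ε) :
    ∃ w : ℂ[X], ∀ t : ℝ, |(w.eval (Complex.exp (t * Complex.I))).re -
      g (Complex.exp (t * Complex.I))| ≤ ε := by
  let f : C(AddCircle (2 * π), ℂ) := ⟨fun x => (g (fourier 1 x) : ℂ), by
    exact Complex.continuous_ofReal.comp (hg.comp (fourier 1).continuous)⟩
  have hf : f ∈ closure ((Submodule.span ℂ (Set.range (@fourier (2 * π)))) :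
      Set C(AddCircle (2 * π), ℂ)) := by
    have := span_fourier_closure_eq_top (T := 2 * π)
    rw [← Submodule.topologicalClosure_coe, this]
    trivial
  obtain ⟨p, hp, hdist⟩ := Metric.mem_closure_iff.1 hf ε hε
  obtain ⟨c, hc⟩ := (Finsupp.mem_span_range_iff_exists_finsupp).1 hp
  let w : ℂ[X] := ∑ n ∈ c.support, if 0 ≤ n then monomial n.toNat (c n) else
    monomial (-n).toNat ((starRingEnd ℂ) (c n))
  refine ⟨w, fun t => ?_⟩
  set z := Complex.exp (t * Complex.I) with hz
  have hz1 : (fourier 1 (t : AddCircle (2 * π)) : ℂ) = z := by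
    rw [fourier_coe_apply, hz]
    congr 1
    have : (π : ℂ) ≠ 0 := by exact_mod_cast Real.pi_ne_zero
    push_cast
    field_simp
  have hzn : ∀ n : ℤ, (fourier n (t : AddCircle (2 * π)) : ℂ) = z ^ n := by
    intro n
    rw [fourier_coe_apply, hz, ← Complex.exp_int_mul]
    congr 1
    have : (π : ℂ) ≠ 0 := by exact_mod_cast Real.pi_ne_zero
    push_cast
    field_simp
  have hznorm : ‖z‖ = 1 := Complex.norm_exp_ofReal_mul_I t
  have hp1 : p (t : AddCircle (2 * π)) = ∑ n ∈ c.support, c n * z ^ n := by
    rw [← hc, Finsupp.sum]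
    simp [ContinuousMap.sum_apply, hzn]
  have hw : (w.eval z).re = (p (t : AddCircle (2 * π))).re := by
    rw [hp1]
    simp only [w]
    rw [eval_finsetSum, Complex.re_sum, Complex.re_sum]
    apply Finset.sum_congr rfl
    intro n _
    split_ifs with hn
    · rw [eval_monomial]
      congr 2
      rw [← zpow_natCast, Int.toNat_of_nonneg hn]
    · rw [eval_monomial]
      push Not at hn
      have e1 : z ^ (-n).toNat = z ^ (-n) := by
        rw [← zpow_natCast, Int.toNat_of_nonneg (by omega)]
      have e2 : (starRingEnd ℂ) z = z⁻¹ := by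
        rw [Complex.inv_def, Complex.normSq_eq_norm_sq, hznorm]
        simp
      have e3 : z ^ (-n) = (starRingEnd ℂ) (z ^ n) := by
        rw [map_zpow₀, e2, inv_zpow, zpow_neg]
      rw [e1, e3, ← map_mul, Complex.conj_re]
  rw [hw]
  have h1 : ‖f (t : AddCircle (2 * π)) - p (t : AddCircle (2 * π))‖ ≤ ‖f - p‖ :=
    ContinuousMap.norm_coe_le_norm (f - p) _
  have h2 : f (t : AddCircle (2 * π)) = (g z : ℂ) := by
    show ((g (fourier 1 (t : AddCircle (2 * π)))) : ℂ) = g z
    rw [hz1]
  rw [h2] at h1
  have h3 : |(p (t : AddCircle (2 * π))).re - g z| ≤ ‖(g z : ℂ) - p (t : AddCircle (2 * π))‖ := by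
    rw [abs_sub_comm]
    have := Complex.abs_re_le_norm ((g z : ℂ) - p (t : AddCircle (2 * π)))
    rwa [Complex.sub_re, Complex.ofReal_re] at this
  rw [dist_eq_norm] at hdist
  linarith

/-- the maximum principle for the real part of a polynomial -/
lemma re_max (w : ℂ[X]) (M : ℝ) (h : ∀ t : ℝ, (w.eval (Complex.exp (t * Complex.I))).re ≤ M)
    (z : ℂ) (hz : ‖z‖ ≤ 1) : (w.eval z).re ≤ M := by
  have hd : DiffContOnCl ℂ (fun z => Complex.exp (w.eval z)) (Metric.ball 0 1) := by
    apply Differentiable.diffContOnCl
    exact w.differentiable.cexp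
  have h1 := Complex.norm_le_of_forall_mem_frontier_norm_le (U := Metric.ball (0 : ℂ) 1)
    Metric.isBounded_ball hd (C := Real.exp M) (by
      intro y hy
      rw [frontier_ball _ one_ne_zero, mem_sphere_zero_iff_norm] at hy
      have : y = Complex.exp (Complex.arg y * Complex.I) := by
        conv_lhs => rw [← Complex.norm_mul_exp_arg_mul_I y]
        rw [hy]; simp
      rw [Complex.norm_exp, this]
      exact Real.exp_le_exp.2 (h _)) (z := z) (by
      rw [closure_ball _ one_ne_zero, mem_closedBall_zero_iff]
      exact hz)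
  rw [Complex.norm_exp] at h1
  exact Real.exp_le_exp.1 h1

lemma avr_mono {F G : ℝ → ℝ} (hF : Continuous F) (hG : Continuous G) (h : ∀ t, F t ≤ G t) :
    avr F ≤ avr G := by
  unfold avr
  apply mul_le_mul_of_nonneg_left _ (by positivity)
  exact intervalIntegral.integral_mono (by positivity) (hF.intervalIntegrable _ _)
    (hG.intervalIntegrable _ _) h

lemma avr_add {F G : ℝ → ℝ} (hF : Continuous F) (hG : Continuous G) :
    avr (fun t => F t + G t) = avr F + avr G := by
  unfold avr
  rw [intervalIntegral.integral_add (hF.intervalIntegrable _ _) (hG.intervalIntegrable _ _), mul_add]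

lemma avr_mul (c : ℝ) (F : ℝ → ℝ) : avr (fun t => c * F t) = c * avr F := by
  unfold avr
  rw [intervalIntegral.integral_const_mul]
  ring

lemma avr_const (c : ℝ) : avr (fun _ => c) = c := by
  unfold avr
  rw [intervalIntegral.integral_const]
  simp only [sub_zero, smul_eq_mul]
  field_simp

lemma av_re {F : ℝ → ℂ} (hF : Continuous F) : (av F).re = avr (fun t => (F t).re) := by
  unfold av avr
  rw [← Complex.ofReal_inv, Complex.re_ofReal_mul]
  congr 1
  have := Complex.reCLM.intervalIntegral_comp_comm (hF.intervalIntegrable (μ := volume) 0 (2 * π))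
  exact this.symm

lemma main_re (Q : ℂ[X]) (B : ℝ) (h : ∀ w : ℂ[X], Bdd w → ‖pr Q w‖ ≤ B) :
    avr (fun t => |(ev Q 0 t).re|) ≤ B := by
  set A := avr (fun t => |(ev Q 0 t).re|) with hA
  have hQc : Continuous fun t => (ev Q 0 t).re := Complex.continuous_re.comp (ev_cont Q)
  have hQa : Continuous fun t => |(ev Q 0 t).re| := hQc.abs
  have key : ∀ η : ℝ, 0 < η → A ≤ B + η * (1 + A + B) := by
    intro η hη
    let g : ℂ → ℝ := fun z => (Q.eval z).re / (|(Q.eval z).re| + η)
    have hgc : Continuous g := by
      have h1 : Continuous fun z => (Q.eval z).re := Complex.continuous_re.comp Q.continuous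
      exact h1.div (h1.abs.add continuous_const) (fun z =>
        (by positivity : (0:ℝ) < |(Q.eval z).re| + η).ne')
    obtain ⟨w, hw⟩ := approx g hgc η hη
    have hg1 : ∀ z, |g z| ≤ 1 := by
      intro z
      simp only [g]
      rw [abs_div, abs_of_pos (a := |(Q.eval z).re| + η) (by positivity),
        div_le_one (by positivity)]
      linarith
    have hw1 : ∀ t : ℝ, |(w.eval (Complex.exp (t * Complex.I))).re| ≤ 1 + η := by
      intro t
      have h1 := hw t
      have h2 := hg1 (Complex.exp (t * Complex.I))
      rw [abs_le] at h1 h2 ⊢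
      constructor <;> linarith
    set w' : ℂ[X] := Polynomial.C (((1 + η)⁻¹ : ℝ) : ℂ) * w with hw'
    have hw're : ∀ z, (w'.eval z).re = (1 + η)⁻¹ * (w.eval z).re := by
      intro z
      rw [hw', eval_mul, eval_C, Complex.re_ofReal_mul]
    have hbdd : Bdd w' := by
      intro z hz
      rw [hw're, abs_mul, abs_of_pos (a := (1 + η)⁻¹) (by positivity), inv_mul_le_iff₀ (by positivity),
        mul_one, abs_le]
      constructor
      · have := re_max (-w) (1 + η) (by
          intro t
          rw [eval_neg, Complex.neg_re]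
          have := (abs_le.1 (hw1 t)).1
          linarith) z hz
        rw [eval_neg, Complex.neg_re] at this
        linarith
      · exact re_max w (1 + η) (fun t => (abs_le.1 (hw1 t)).2) z hz
    have hpr := h w' hbdd
    have hpr2 : (pr Q w').re = (1 + η)⁻¹ * avr (fun t => (ev w 0 t).re * (ev Q 0 t).re) := by
      unfold pr
      have hcc : Continuous (fun t => ev Q 0 t * ((ev w' 0 t).re : ℂ)) :=
        (ev_cont Q).mul (Complex.continuous_ofReal.comp (Complex.continuous_re.comp (ev_cont w')))
      rw [av_re hcc, ← avr_mul]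
      congr 1
      funext t
      rw [Complex.re_mul_ofReal, ev_zero w', hw're, ← ev_zero w]
      ring
    have hle : avr (fun t => (ev w 0 t).re * (ev Q 0 t).re) ≤ (1 + η) * B := by
      have h1 : (pr Q w').re ≤ B := (Complex.re_le_norm _).trans hpr
      rw [hpr2, inv_mul_le_iff₀ (by positivity)] at h1
      exact h1
    have hwc : Continuous fun t => (ev w 0 t).re := Complex.continuous_re.comp (ev_cont w)
    have hpt : ∀ t, |(ev Q 0 t).re| ≤ (η + η * |(ev Q 0 t).re|) + (ev w 0 t).re * (ev Q 0 t).re := by
      intro t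
      have h1 := hw t
      rw [← ev_zero w] at h1
      set q := (ev Q 0 t).re with hq
      have hgq : g (Complex.exp (t * Complex.I)) = q / (|q| + η) := by
        simp only [g, hq, ev_zero]
      rw [hgq] at h1
      have h2 : |q| - η ≤ q / (|q| + η) * q := by
        rw [div_mul_eq_mul_div, le_div_iff₀ (by positivity)]
        have : q * q = |q| * |q| := by rw [abs_mul_abs_self]
        rw [this]
        nlinarith [abs_nonneg q, sq_nonneg η]
      have h3 : |((ev w 0 t).re - q / (|q| + η)) * q| ≤ η * |q| := by
        rw [abs_mul]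
        exact mul_le_mul_of_nonneg_right h1 (abs_nonneg q)
      have h4 := (abs_le.1 h3).1
      nlinarith
    have hfin := avr_mono hQa ((continuous_const.add (continuous_const.mul hQa)).add
      (hwc.mul hQc)) hpt
    have e1 : avr ((fun t => (η + η * |(ev Q 0 t).re|)) + fun t => (ev w 0 t).re * (ev Q 0 t).re) =
        (η + η * A) + avr (fun t => (ev w 0 t).re * (ev Q 0 t).re) := by
      have := avr_add (F := fun t => (η + η * |(ev Q 0 t).re|))
        (G := fun t => (ev w 0 t).re * (ev Q 0 t).re)
        (continuous_const.add (continuous_const.mul hQa)) (hwc.mul hQc)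
      have h2 := avr_add (F := fun _ => η) (G := fun t => η * |(ev Q 0 t).re|) continuous_const
        (continuous_const.mul hQa)
      rw [avr_const, avr_mul] at h2
      rw [h2] at this
      exact this
    have e2 : A ≤ (η + η * A) + avr (fun t => (ev w 0 t).re * (ev Q 0 t).re) := by
      rw [← e1]
      exact hfin
    linarith
  by_contra hlt
  push Not at hlt
  rcases le_or_gt (1 + A + B) 0 with hc | hc
  · have := key 1 one_pos
    linarith
  · have := key ((A - B) / (2 * (1 + A + B))) (by
      apply div_pos <;> linarith)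
    have h2 : (A - B) / (2 * (1 + A + B)) * (1 + A + B) = (A - B) / 2 := by
      field_simp
    rw [h2] at this
    linarith

end DD

open DD

theorem stmD : StmD := by
  intro Q B h
  have h1 := main_re Q B h
  have h2 := main_re (Polynomial.C (-Complex.I) * Q) B (by
    intro w hw
    have : pr (Polynomial.C (-Complex.I) * Q) w = -Complex.I * pr Q w := by
      have e0 : (fun t => ev (Polynomial.C (-Complex.I) * Q) 0 t * ((ev w 0 t).re : ℂ)) =
          fun t => -Complex.I * (ev Q 0 t * ((ev w 0 t).re : ℂ)) := by
        funext t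
        have : ev (Polynomial.C (-Complex.I) * Q) 0 t = -Complex.I * ev Q 0 t := by
          unfold ev
          rw [eval_mul, eval_C]
        rw [this]
        ring
      unfold pr av
      rw [e0, intervalIntegral.integral_const_mul]
      ring
    rw [this, norm_mul, norm_neg, Complex.norm_I, one_mul]
    exact h w hw)
  have hc1 : Continuous fun t => |(ev Q 0 t).re| := (Complex.continuous_re.comp (ev_cont Q)).abs
  have hc2 : Continuous fun t => |(ev (Polynomial.C (-Complex.I) * Q) 0 t).re| :=
    (Complex.continuous_re.comp (ev_cont _)).abs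
  have h3 : avr (fun t => ‖ev Q 0 t‖) ≤ avr (fun t => |(ev Q 0 t).re| +
      |(ev (Polynomial.C (-Complex.I) * Q) 0 t).re|) := by
    apply avr_mono (ev_cont Q).norm (hc1.add hc2)
    intro t
    have e : (ev (Polynomial.C (-Complex.I) * Q) 0 t).re = (ev Q 0 t).im := by
      unfold ev
      rw [eval_mul, eval_C]
      simp
    show ‖ev Q 0 t‖ ≤ |(ev Q 0 t).re| + |(ev (Polynomial.C (-Complex.I) * Q) 0 t).re|
    rw [e]
    exact Complex.norm_le_abs_re_add_abs_im _
  rw [avr_add hc1 hc2] at h3
  linarith

end Pool.Agent.R244.RP
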