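import Mathlib

/-!
# Project RP (MP_1d9d5b_an): Riesz products acting on `H¹`

Definitions for the core inequality. Mean values over a period `[0, 2π]`, analytic polynomials
`P : ℂ[X]` as functions `t ↦ P (exp (i t))`, Fejér kernels, partial Riesz products.
-/

set_option autoImplicit false

open MeasureTheory Polynomial Filter Topology
open scoped BigOperators Real

namespace Pool.Agent.R244.RP

/-- mean value over a period, real valued functions -/
noncomputable def avr (F : ℝ → ℝ) : ℝ := (2 * π)⁻¹ * ∫ t in (0 : ℝ)..(2 * π), F t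

/-- mean value over a period, complex valued functions -/
noncomputable def av (F : ℝ → ℂ) : ℂ := ((2 * π : ℝ) : ℂ)⁻¹ * ∫ t in (0 : ℝ)..(2 * π), F t

/-- the character `t ↦ exp (i n t)` -/
noncomputable def ec (n : ℤ) (t : ℝ) : ℂ := Complex.exp (n * t * Complex.I)

/-- the polynomial `P` at the point `exp (-x + i t)` -/
noncomputable def ev (P : ℂ[X]) (x t : ℝ) : ℂ := P.eval (Complex.exp (-x + t * Complex.I))

/-- `‖P‖₂²` -/
noncomputable def nsq (P : ℂ[X]) : ℝ := ∑ n ∈ P.support, ‖P.coeff n‖ ^ 2

/-- the Fourier multiplier with symbol `m` -/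
noncomputable def mult (m : ℕ → ℂ) (P : ℂ[X]) : ℂ[X] :=
  ∑ n ∈ P.support, monomial n (m n * P.coeff n)

/-- the pairing of the analytic polynomial `Q` with the real function `Re w` on the circle -/
noncomputable def pr (Q w : ℂ[X]) : ℂ := av (fun t => ev Q 0 t * ((ev w 0 t).re : ℂ))

/-- `|Re w| ≤ 1` on the closed unit disc -/
def Bdd (w : ℂ[X]) : Prop := ∀ z : ℂ, ‖z‖ ≤ 1 → |(w.eval z).re| ≤ 1

/-- positive integers with ratios at least 3 -/
def Lac (n : ℕ → ℕ) : Prop := ∀ k, 0 < n k ∧ 3 * n k ≤ n (k + 1)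

/-- the Fejér kernel of order `m` -/
noncomputable def Fe (m : ℕ) (t : ℝ) : ℝ := (m : ℝ)⁻¹ * ‖∑ j ∈ Finset.range m, ec j t‖ ^ 2

/-- the partial Riesz products -/
noncomputable def rp (n : ℕ → ℕ) (a : ℕ → ℂ) (K : ℕ) (t : ℝ) : ℝ :=
  ∏ k ∈ Finset.range K, (1 + (a k * ec (n k) t).re)

/-- the Fourier coefficients of the partial Riesz products -/
noncomputable def rc (n : ℕ → ℕ) (a : ℕ → ℂ) (K : ℕ) (j : ℤ) : ℂ :=
  av (fun t => (rp n a K t : ℂ) * ec (-j) t)

instance factTwoPi : Fact (0 < 2 * π) := ⟨by positivity⟩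

/-- `H¹` of the circle `ℝ / 2πℤ`: the integrable functions without negative frequencies -/
noncomputable def H1 : Submodule ℂ (Lp ℂ 1 (AddCircle.haarAddCircle (T := 2 * π))) where
  carrier := {f | ∀ n : ℤ, n < 0 → fourierCoeff (T := 2 * π) (f : AddCircle (2 * π) → ℂ) n = 0}
  zero_mem' := by
    intro n _
    unfold fourierCoeff
    rw [integral_congr_ae (g := fun _ => (0 : ℂ))]
    · simp
    · filter_upwards [Lp.coeFn_zero ℂ 1 (AddCircle.haarAddCircle (T := 2 * π))] with x hx
      rw [hx]; simp
  add_mem' := by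
    intro f g hf hg n hn
    have hF : Integrable (fun t => (fourier (-n) : C(AddCircle (2 * π), ℂ)) t •
        (f : AddCircle (2 * π) → ℂ) t) (AddCircle.haarAddCircle (T := 2 * π)) :=
      (L1.integrable_coeFn f).bdd_mul (c := 1) (fourier (-n)).continuous.aestronglyMeasurable
        (Eventually.of_forall fun t => by simp)
    have hG : Integrable (fun t => (fourier (-n) : C(AddCircle (2 * π), ℂ)) t •
        (g : AddCircle (2 * π) → ℂ) t) (AddCircle.haarAddCircle (T := 2 * π)) :=
      (L1.integrable_coeFn g).bdd_mul (c := 1) (fourier (-n)).continuous.aestronglyMeasurable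
        (Eventually.of_forall fun t => by simp)
    have h1 := hf n hn
    have h2 := hg n hn
    unfold fourierCoeff at h1 h2 ⊢
    rw [integral_congr_ae (g := fun t => (fourier (-n) : C(AddCircle (2 * π), ℂ)) t •
        (f : AddCircle (2 * π) → ℂ) t + (fourier (-n) : C(AddCircle (2 * π), ℂ)) t •
        (g : AddCircle (2 * π) → ℂ) t), integral_add hF hG, h1, h2, add_zero]
    filter_upwards [Lp.coeFn_add f g] with x hx
    rw [hx]; simp [mul_add]
  smul_mem' := by
    intro c f hf n hn
    have h1 := hf n hn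
    unfold fourierCoeff at h1 ⊢
    rw [integral_congr_ae (g := fun t => c • ((fourier (-n) : C(AddCircle (2 * π), ℂ)) t •
        (f : AddCircle (2 * π) → ℂ) t)), integral_smul, h1, smul_zero]
    filter_upwards [Lp.coeFn_smul c f] with x hx
    rw [hx]; simp [mul_left_comm]

end Pool.Agent.R244.RP
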