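import Pool.Agent.R244.RP.Defs

/-!
# Project RP: Riesz products as measures, and their multipliers on `H¹`
-/

set_option autoImplicit false

open MeasureTheory Filter Topology
open scoped BigOperators Real

namespace Pool.Agent.R244.RP

/-- the Fourier coefficients `∫ exp (-i j t) dμ` of a measure -/
noncomputable def fc (μ : Measure (AddCircle (2 * π))) (j : ℤ) : ℂ :=
  ∫ t, (fourier (-j) : C(AddCircle (2 * π), ℂ)) t ∂μ

/-- `μ` is the Riesz product with frequencies `n k` and coefficients `a k`: the weak-* limit of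
`∏_{k<N} (1 + Re (a_k exp (i n_k t))) dt / 2π` -/
def IsRiesz (μ : Measure (AddCircle (2 * π))) (n : ℕ → ℕ) (a : ℕ → ℂ) : Prop :=
  Lac n ∧ (∀ k, ‖a k‖ ≤ 1) ∧ ∀ φ : C(AddCircle (2 * π), ℂ),
    Tendsto (fun N => ∫ t, (((∏ k ∈ Finset.range N,
      (1 + (a k * (fourier (n k : ℤ) : C(AddCircle (2 * π), ℂ)) t).re)) : ℝ) : ℂ) * φ t
        ∂(AddCircle.haarAddCircle (T := 2 * π))) atTop (𝓝 (∫ t, φ t ∂μ))

/-- `T` is the multiplier `f ↦ μ * f` on `H¹` -/
def IsMult (μ : Measure (AddCircle (2 * π))) (T : H1 →L[ℂ] H1) : Prop := ∀ (f : H1) (n : ℕ),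
    fourierCoeff (T := 2 * π) (((T f : H1) : Lp ℂ 1 (AddCircle.haarAddCircle (T := 2 * π))) :
      AddCircle (2 * π) → ℂ) (n : ℤ) =
    fc μ n * fourierCoeff (T := 2 * π) ((f : Lp ℂ 1 (AddCircle.haarAddCircle (T := 2 * π))) :
      AddCircle (2 * π) → ℂ) (n : ℤ)

/-- RP-X: existence and uniqueness of the multiplier of a finite measure. -/
def StmX : Prop := ∀ (μ : Measure (AddCircle (2 * π))) [IsFiniteMeasure μ],
  ∃! T : H1 →L[ℂ] H1, IsMult μ T

end Pool.Agent.R244.RP
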