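import Pool.Agent.R938.RPE.Comm

/-!
# Project RP, piece RP-E: the commutator estimate
-/

set_option autoImplicit false

open MeasureTheory Polynomial Filter Topology
open scoped BigOperators Real

namespace Pool.Agent.R244.RP

open Pool.Agent.R938.RPE

theorem stmE_one {m : ℕ → ℕ} {v : ℕ → ℕ → ℝ} (hk : Ker m v) (K : ℕ) (g h : ℂ[X]) {A B : ℕ}
    (hA : g.natDegree < A) (hB : h.natDegree + 1 < B) {lam : ℝ} (hlam : 0 < lam) :
    avr (fun s => Fe (m K) s * avr (fun t =>
      ‖ev (mult (sym v K s) (para g h) - para g (mult (sym v K s) h)) 0 t‖))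
      ≤ 61 / 2 * (lam * ∑ k ∈ Finset.range A, ‖g.coeff k‖ ^ 2 * (32 * th (m K) k)
        + lam⁻¹ * ∑ l ∈ Finset.range B, ‖h.coeff l‖ ^ 2 * (16 * th (m K) l)) := by
  have hm : 0 < m K := (hk.lac K).1
  have hv : ∀ i, 16 * m K ≤ i → v K i = 0 := by
    intro i hi
    by_contra hne
    have := (hk.supp K i hne).2
    omega
  set V : ℝ → ℂ := fun u => ∑ j ∈ Finset.range (16 * m K), (v K j : ℂ) * ec (j : ℤ) u with hV
  set H : ℕ → ℂ := fun l => if l < 16 * m K then (l : ℂ) * h.coeff l else 0 with hH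
  have hrep : ∀ s t : ℝ, ev (mult (sym v K s) (para g h) - para g (mult (sym v K s) h)) 0 t
      = ∫ u, V (u - s) * Kf g.coeff H A B u t ∂μ := fun s t =>
    E_rep hv g h hA hB s t (sym v K s) fun j => rfl
  simp only [hrep, avr_eq]
  have hms : 0 < √(m K : ℝ) := Real.sqrt_pos.2 (by exact_mod_cast hm)
  refine (avg_est hm (V := V) (fun u => hk.ker K u) g.coeff H (by simp [hH]) A B
    (mul_pos hlam hms)).trans ?_
  apply mul_le_mul_of_nonneg_left _ (by norm_num)
  apply add_le_add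
  · rw [mul_assoc]
    apply mul_le_mul_of_nonneg_left _ hlam.le
    rw [Finset.mul_sum]
    refine Finset.sum_le_sum fun k _ => ?_
    have h1 := mul_le_mul_of_nonneg_left (w1 hm k) (sq_nonneg ‖g.coeff k‖)
    linarith
  · rw [mul_inv, mul_assoc]
    apply mul_le_mul_of_nonneg_left _ (inv_pos.2 hlam).le
    rw [Finset.mul_sum]
    refine Finset.sum_le_sum fun l _ => ?_
    simp only [hH]
    split_ifs with hl
    · have h1 := mul_le_mul_of_nonneg_left (w2 hm l hl) (sq_nonneg ‖h.coeff l‖)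
      rw [norm_mul, mul_pow, Complex.norm_natCast]
      linarith
    · have h1 : 0 ≤ ‖h.coeff l‖ ^ 2 * (16 * th (m K) l) :=
        mul_nonneg (sq_nonneg _) (mul_nonneg (by norm_num) (th_nonneg _ _))
      simpa using h1

/-- **RP-E** -/
theorem stmE (hL : StmL) : StmE := by
  refine ⟨9760, by norm_num, fun m v hk N g h => ?_⟩
  have hA : g.natDegree < g.natDegree + 1 := by omega
  have hB : h.natDegree + 1 < h.natDegree + 2 := by omega
  have hB' : h.natDegree < h.natDegree + 2 := by omega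
  have hG := nsq_eq hA
  have hH := nsq_eq hB'
  have hG0 : 0 ≤ nsq g := by rw [hG]; positivity
  have hH0 : 0 ≤ nsq h := by rw [hH]; positivity
  refine (opt (c := 4880) (by norm_num) hG0 hH0 fun lam hlam => ?_).trans (by linarith)
  refine (Finset.sum_le_sum fun K _ => stmE_one hk K g h hA hB hlam).trans ?_
  rw [← Finset.mul_sum, Finset.sum_add_distrib, ← Finset.mul_sum, ← Finset.mul_sum,
    Finset.sum_comm]
  have h1 : ∑ k ∈ Finset.range (g.natDegree + 1), ∑ K ∈ Finset.range N,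
      ‖g.coeff k‖ ^ 2 * (32 * th (m K) k) ≤ 160 * nsq g := by
    rw [hG, Finset.mul_sum]
    refine Finset.sum_le_sum fun k _ => ?_
    rw [← Finset.mul_sum, ← Finset.mul_sum]
    have := mul_le_mul_of_nonneg_left (th_sum hL hk.lac N k) (sq_nonneg ‖g.coeff k‖)
    linarith
  have h2 : ∑ K ∈ Finset.range N, ∑ k ∈ Finset.range (h.natDegree + 2),
      ‖h.coeff k‖ ^ 2 * (16 * th (m K) k) ≤ 80 * nsq h := by
    rw [Finset.sum_comm, hH, Finset.mul_sum]
    refine Finset.sum_le_sum fun k _ => ?_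
    rw [← Finset.mul_sum, ← Finset.mul_sum]
    have := mul_le_mul_of_nonneg_left (th_sum hL hk.lac N k) (sq_nonneg ‖h.coeff k‖)
    linarith
  have h3 := mul_le_mul_of_nonneg_left h1 hlam.le
  have h4 := mul_le_mul_of_nonneg_left h2 (inv_pos.2 hlam).le
  have h5 : 0 ≤ lam⁻¹ * nsq h := mul_nonneg (inv_pos.2 hlam).le hH0
  nlinarith

end Pool.Agent.R244.RP
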