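import Pool.Agent.R244.RP.Stm

/-!
# Project RP (MP_1d9d5b_an): RP-F, factorization (helper360)
-/

set_option autoImplicit false

open MeasureTheory Polynomial Filter Topology
open scoped BigOperators Real NNReal ENNReal

namespace Pool.Agent.R244.RP

namespace PieceF

/-- holomorphic factorization beyond the circle -/
def Fac (f : ℂ → ℂ) : Prop := ∃ (R : ℝ) (G H : ℂ → ℂ), 1 < R ∧
  DifferentiableOn ℂ G (Metric.ball 0 R) ∧ DifferentiableOn ℂ H (Metric.ball 0 R) ∧
  (∀ z, ‖z‖ = 1 → G z * H z = f z ∧ ‖G z‖ ^ 2 = ‖f z‖ ∧ ‖H z‖ ^ 2 = ‖f z‖)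

lemma fac_const (c : ℂ) : Fac (fun _ => c) := by
  obtain ⟨k, hk⟩ : ∃ k : ℂ, k ^ 2 = c := IsAlgClosed.exists_pow_nat_eq c (by norm_num)
  refine ⟨2, fun _ => k, fun _ => k, by norm_num, differentiableOn_const _,
    differentiableOn_const _, fun z _ => ⟨by rw [← hk]; ring, ?_, ?_⟩⟩
  all_goals rw [← hk, norm_pow]

lemma fac_mul {f g : ℂ → ℂ} (hf : Fac f) (hg : Fac g) : Fac (fun z => f z * g z) := by
  obtain ⟨R, G, H, hR, hG, hH, h⟩ := hf
  obtain ⟨R', G', H', hR', hG', hH', h'⟩ := hg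
  refine ⟨min R R', fun z => G z * G' z, fun z => H z * H' z, lt_min hR hR', ?_, ?_, ?_⟩
  · exact (hG.mono (Metric.ball_subset_ball (min_le_left _ _))).mul
      (hG'.mono (Metric.ball_subset_ball (min_le_right _ _)))
  · exact (hH.mono (Metric.ball_subset_ball (min_le_left _ _))).mul
      (hH'.mono (Metric.ball_subset_ball (min_le_right _ _)))
  · intro z hz
    obtain ⟨h1, h2, h3⟩ := h z hz
    obtain ⟨h1', h2', h3'⟩ := h' z hz
    refine ⟨?_, ?_, ?_⟩
    · change G z * G' z * (H z * H' z) = f z * g z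
      rw [← h1, ← h1']; ring
    · change ‖G z * G' z‖ ^ 2 = ‖f z * g z‖
      rw [norm_mul, norm_mul, mul_pow, h2, h2']
    · change ‖H z * H' z‖ ^ 2 = ‖f z * g z‖
      rw [norm_mul, norm_mul, mul_pow, h3, h3']

/-- a holomorphic square root of `1 - b z` on the ball of radius `R` if `‖b‖ R ≤ 1` -/
lemma exists_sqrt (b : ℂ) (R : ℝ) (hb : ‖b‖ * R ≤ 1) : ∃ s : ℂ → ℂ,
    DifferentiableOn ℂ s (Metric.ball 0 R) ∧ (∀ z, ‖z‖ < R → s z ^ 2 = 1 - b * z) ∧
    ∀ z, ‖z‖ < R → s z ≠ 0 := by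
  have hre : ∀ z : ℂ, ‖z‖ < R → 0 < (1 - b * z).re := by
    intro z hz
    have h1 : (b * z).re ≤ ‖b * z‖ := Complex.re_le_norm _
    rw [norm_mul] at h1
    rcases (norm_nonneg b).eq_or_lt with h0 | h0
    · rw [← h0] at h1
      simp only [Complex.sub_re, Complex.one_re]
      linarith
    · have h2 : ‖b‖ * ‖z‖ < ‖b‖ * R := mul_lt_mul_of_pos_left hz h0
      simp only [Complex.sub_re, Complex.one_re]
      linarith
  refine ⟨fun z => Complex.exp (Complex.log (1 - b * z) / 2), ?_, ?_, ?_⟩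
  · refine DifferentiableOn.cexp ?_
    refine DifferentiableOn.div_const ?_ _
    refine DifferentiableOn.clog ?_ ?_
    · fun_prop
    · intro z hz
      rw [Metric.mem_ball, dist_zero_right] at hz
      exact Complex.mem_slitPlane_iff.2 (Or.inl (hre z hz))
  · intro z hz
    have h0 : (1 - b * z) ≠ 0 := by
      intro h
      have := hre z hz
      rw [h] at this
      simp at this
    rw [← Complex.exp_nat_mul]
    rw [show ((2 : ℕ) : ℂ) * (Complex.log (1 - b * z) / 2) = Complex.log (1 - b * z) by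
      push_cast; ring]
    exact Complex.exp_log h0
  · intro z _
    exact Complex.exp_ne_zero _

lemma norm_conj_eq (a z : ℂ) (hz : ‖z‖ = 1) : ‖1 - (starRingEnd ℂ) a * z‖ = ‖z - a‖ := by
  have h1 : z * (starRingEnd ℂ) z = 1 := by
    rw [Complex.mul_conj, Complex.normSq_eq_norm_sq, hz]; simp
  have h2 : 1 - (starRingEnd ℂ) a * z = z * (starRingEnd ℂ) (z - a) := by
    rw [map_sub, mul_sub, h1]; ring
  rw [h2, norm_mul, hz, one_mul, Complex.norm_conj]

lemma fac_X (a : ℂ) (ha : ‖a‖ ≠ 1) : Fac (fun z => z - a) := by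
  rcases lt_or_gt_of_ne ha with h | h
  · -- inside
    have hpos : 0 < 1 + ‖a‖ := by positivity
    set R : ℝ := 2 / (1 + ‖a‖) with hRdef
    have hR : 1 < R := by
      rw [hRdef, lt_div_iff₀ hpos]; linarith
    have hb : ‖(starRingEnd ℂ) a‖ * R ≤ 1 := by
      rw [Complex.norm_conj, hRdef, mul_div_assoc', div_le_one hpos]
      linarith
    obtain ⟨s, hs, hs2, hs0⟩ := exists_sqrt ((starRingEnd ℂ) a) R hb
    refine ⟨R, fun z => (z - a) / s z, s, hR, ?_, hs, ?_⟩
    · refine DifferentiableOn.div (by fun_prop) hs ?_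
      intro z hz
      rw [Metric.mem_ball, dist_zero_right] at hz
      exact hs0 z hz
    · intro z hz
      have hzR : ‖z‖ < R := by rw [hz]; exact hR
      have h2 : ‖s z‖ ^ 2 = ‖z - a‖ := by
        rw [← norm_pow, hs2 z hzR, norm_conj_eq a z hz]
      have h0 : s z ≠ 0 := hs0 z hzR
      have hza : ‖z - a‖ ≠ 0 := by
        rw [← h2]; exact pow_ne_zero _ (norm_ne_zero_iff.2 h0)
      refine ⟨div_mul_cancel₀ _ h0, ?_, h2⟩
      rw [norm_div, div_pow, h2, sq, mul_div_cancel_right₀ _ hza]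
  · -- outside
    have ha0 : a ≠ 0 := by
      intro h0; rw [h0, norm_zero] at h; linarith
    obtain ⟨k, hk⟩ : ∃ k : ℂ, k ^ 2 = -a := IsAlgClosed.exists_pow_nat_eq _ (by norm_num)
    have hb : ‖a⁻¹‖ * ‖a‖ ≤ 1 := by
      rw [norm_inv, inv_mul_cancel₀ (norm_ne_zero_iff.2 ha0)]
    obtain ⟨s, hs, hs2, hs0⟩ := exists_sqrt (a⁻¹) ‖a‖ hb
    have key : ∀ z, ‖z‖ < ‖a‖ → (k * s z) ^ 2 = z - a := by
      intro z hz
      rw [mul_pow, hk, hs2 z hz]
      field_simp
      ring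
    refine ⟨‖a‖, fun z => k * s z, fun z => k * s z, h, hs.const_mul k, hs.const_mul k, ?_⟩
    intro z hz
    have hz' : ‖z‖ < ‖a‖ := by rw [hz]; exact h
    refine ⟨(sq (k * s z)).symm.trans (key z hz'), ?_, ?_⟩
    all_goals
      rw [← norm_pow]
      exact congrArg _ (key z hz')

lemma fac_prod (s : Multiset ℂ) (hs : ∀ a ∈ s, ‖a‖ ≠ 1) :
    Fac (fun z => (s.map (fun a => z - a)).prod) := by
  induction s using Multiset.induction with
  | empty => simpa using fac_const 1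
  | cons a s ih =>
    have h1 := fac_X a (hs a (Multiset.mem_cons_self a s))
    have h2 := ih (fun b hb => hs b (Multiset.mem_cons_of_mem hb))
    simpa using fac_mul h1 h2

lemma fac_poly (f : ℂ[X]) (hf : ∀ z, ‖z‖ = 1 → f.eval z ≠ 0) : Fac (fun z => f.eval z) := by
  have h1 : ∀ z, f.eval z = f.leadingCoeff * (f.roots.map (fun a => z - a)).prod :=
    fun z => (IsAlgClosed.splits f).eval_eq_prod_roots z
  have h2 : ∀ a ∈ f.roots, ‖a‖ ≠ 1 := by
    intro a ha h
    exact hf a h (isRoot_of_mem_roots ha)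
  have h3 := fac_mul (fac_const f.leadingCoeff) (fac_prod f.roots h2)
  have h4 : (fun z => f.eval z) =
      (fun z => f.leadingCoeff * (f.roots.map (fun a => z - a)).prod) := funext h1
  rw [h4]
  exact h3

lemma poly_approx (G : ℂ → ℂ) (R : ℝ) (hR : 1 < R) (hG : DifferentiableOn ℂ G (Metric.ball 0 R))
    (δ : ℝ) (hδ : 0 < δ) : ∃ p : ℂ[X], ∀ z, ‖z‖ = 1 → ‖p.eval z - G z‖ ≤ δ := by
  set R1 : ℝ≥0 := ⟨(1 + R) / 2, by linarith⟩ with hR1
  have hR1R : (R1 : ℝ) < R := by rw [hR1]; change (1 + R) / 2 < R; linarith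
  have h1R1 : (1 : ℝ) < R1 := by rw [hR1]; change 1 < (1 + R) / 2; linarith
  set R2 : ℝ≥0 := ⟨(1 + R1) / 2, by positivity⟩ with hR2
  have hR21 : (R2 : ℝ) < R1 := by rw [hR2]; change (1 + (R1 : ℝ)) / 2 < R1; linarith
  have h1R2 : (1 : ℝ) < R2 := by rw [hR2]; change 1 < (1 + (R1 : ℝ)) / 2; linarith
  have hd : DifferentiableOn ℂ G (Metric.closedBall 0 R1) :=
    hG.mono (Metric.closedBall_subset_ball hR1R)
  have hR1pos : 0 < R1 := by
    rw [← NNReal.coe_pos]; linarith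
  have hps := hd.hasFPowerSeriesOnBall hR1pos
  have hlt : (R2 : ℝ≥0∞) < (R1 : ℝ≥0∞) := by
    rw [ENNReal.coe_lt_coe, ← NNReal.coe_lt_coe]; exact hR21
  have hu := hps.tendstoUniformlyOn hlt
  rw [Metric.tendstoUniformlyOn_iff] at hu
  obtain ⟨n, hn⟩ := (hu δ hδ).exists
  refine ⟨∑ k ∈ Finset.range n, monomial k ((cauchyPowerSeries G 0 R1).coeff k), ?_⟩
  intro z hz
  have h1 := hn z (by rw [Metric.mem_ball, dist_zero_right, hz]; exact h1R2)
  have h2 : (∑ k ∈ Finset.range n, monomial k ((cauchyPowerSeries G 0 R1).coeff k) : ℂ[X]).eval z =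
      (cauchyPowerSeries G 0 R1).partialSum n z := by
    rw [Polynomial.eval_finsetSum, FormalMultilinearSeries.partialSum]
    refine Finset.sum_congr rfl fun k _ => ?_
    rw [Polynomial.eval_monomial, FormalMultilinearSeries.apply_eq_pow_smul_coeff, smul_eq_mul,
      mul_comm]
  rw [h2, ← dist_eq_norm, dist_comm]
  rw [zero_add] at h1
  exact h1.le

/-- the points of the circle -/
lemma ev_zero (P : ℂ[X]) (t : ℝ) : ev P 0 t = P.eval (circleMap 0 1 t) := by
  unfold ev circleMap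
  simp

lemma nsq_eq_avr (P : ℂ[X]) : nsq P = avr (fun t => ‖ev P 0 t‖ ^ 2) := by
  unfold nsq avr
  rw [Polynomial.sum_sq_norm_coeff_eq_circleAverage, Real.circleAverage_def, smul_eq_mul]
  congr 1
  refine intervalIntegral.integral_congr fun t _ => ?_
  rw [ev_zero]

lemma continuous_ev (P : ℂ[X]) : Continuous (fun t => ev P 0 t) := by
  have h : (fun t => ev P 0 t) = fun t => P.eval (circleMap 0 1 t) := funext (ev_zero P)
  rw [h]
  exact P.continuous.comp (continuous_circleMap 0 1)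

lemma norm_circleMap (t : ℝ) : ‖circleMap 0 1 t‖ = 1 := by simp

lemma avr_mono_add (F G : ℝ → ℝ) (hF : Continuous F) (hG : Continuous G) (δ : ℝ)
    (h : ∀ t, F t ≤ G t + δ) : avr F ≤ avr G + δ := by
  unfold avr
  have hpi : (0 : ℝ) < 2 * π := by positivity
  have h1 : ∫ t in (0 : ℝ)..(2 * π), F t ≤ ∫ t in (0 : ℝ)..(2 * π), (G t + δ) :=
    intervalIntegral.integral_mono_on hpi.le (hF.intervalIntegrable _ _)
      ((hG.add continuous_const).intervalIntegrable _ _) (fun t _ => h t)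
  rw [intervalIntegral.integral_add (hG.intervalIntegrable _ _)
    (continuous_const.intervalIntegrable _ _), intervalIntegral.integral_const, smul_eq_mul,
    sub_zero] at h1
  calc (2 * π)⁻¹ * ∫ t in (0 : ℝ)..(2 * π), F t
      ≤ (2 * π)⁻¹ * ((∫ t in (0 : ℝ)..(2 * π), G t) + 2 * π * δ) :=
        mul_le_mul_of_nonneg_left h1 (by positivity)
    _ = (2 * π)⁻¹ * (∫ t in (0 : ℝ)..(2 * π), G t) + δ := by
        rw [mul_add, ← mul_assoc, inv_mul_cancel₀ hpi.ne', one_mul]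

/-- dilations -/
lemma exists_dilation (f : ℂ[X]) (hf : f ≠ 0) (δ : ℝ) (hδ : 0 < δ) : ∃ F : ℂ[X],
    (∀ z, ‖z‖ = 1 → F.eval z ≠ 0) ∧ ∀ z, ‖z‖ = 1 → ‖F.eval z - f.eval z‖ ≤ δ := by
  have huc : UniformContinuousOn (fun z => f.eval z) (Metric.closedBall (0 : ℂ) 1) :=
    (isCompact_closedBall 0 1).uniformContinuousOn_of_continuous f.continuous.continuousOn
  rw [Metric.uniformContinuousOn_iff] at huc
  obtain ⟨η, hη, huc⟩ := huc δ hδ
  -- choose the dilation factor
  have hinf : (Set.Ioo (max 0 (1 - η)) 1 : Set ℝ).Infinite := by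
    apply Set.Ioo_infinite
    rw [max_lt_iff]
    constructor
    · norm_num
    · linarith
  have hfin : ((fun a : ℂ => ‖a‖) '' (f.roots.toFinset : Set ℂ)).Finite :=
    (Finset.finite_toSet _).image _
  obtain ⟨r, hr1, hr2⟩ := (hinf.sdiff hfin).nonempty
  have hr0 : 0 < r := lt_of_le_of_lt (le_max_left _ _) hr1.1
  have hr3 : 1 - η < r := lt_of_le_of_lt (le_max_right _ _) hr1.1
  have hr4 : r < 1 := hr1.2
  have hev : ∀ z, (f.comp (C (r : ℂ) * X)).eval z = f.eval (r * z) := by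
    intro z
    rw [eval_comp, eval_mul, eval_C, eval_X]
  refine ⟨f.comp (C (r : ℂ) * X), ?_, ?_⟩
  · intro z hz h0
    rw [hev] at h0
    apply hr2
    refine ⟨(r : ℂ) * z, ?_, ?_⟩
    · rw [Finset.mem_coe, Multiset.mem_toFinset, mem_roots hf]
      exact h0
    · change ‖(r : ℂ) * z‖ = r
      rw [norm_mul, hz, mul_one, Complex.norm_real, Real.norm_of_nonneg hr0.le]
  · intro z hz
    rw [hev, ← dist_eq_norm]
    refine (huc (r * z) ?_ z ?_ ?_).le
    · rw [Metric.mem_closedBall, dist_zero_right, norm_mul, hz, mul_one, Complex.norm_real,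
        Real.norm_of_nonneg hr0.le]
      exact hr4.le
    · rw [Metric.mem_closedBall, dist_zero_right, hz]
    · rw [dist_eq_norm, show (r : ℂ) * z - z = ((r - 1 : ℝ) : ℂ) * z by push_cast; ring, norm_mul,
        hz, mul_one, Complex.norm_real, Real.norm_eq_abs, abs_of_neg (by linarith)]
      linarith

end PieceF

open PieceF in
/-- RP-F: factorization of analytic polynomials in `H¹` (approximate, by polynomials) -/
theorem stmF : StmF := by
  intro f δ hδ
  by_cases hf : f = 0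
  · subst hf
    refine ⟨0, 0, ?_, ?_, ?_⟩
    · simp [nsq, avr, ev, hδ.le]
    · simp [nsq, avr, ev, hδ.le]
    · intro t; simp [ev, hδ.le]
  obtain ⟨F, hF0, hFf⟩ := exists_dilation f hf (δ / 2) (by positivity)
  obtain ⟨R, G, H, hR, hG, hH, hGH⟩ := fac_poly F hF0
  -- bound
  obtain ⟨M, hM0, hM⟩ : ∃ M : ℝ, 0 ≤ M ∧ ∀ z : ℂ, ‖z‖ = 1 → ‖F.eval z‖ ≤ M ^ 2 := by
    obtain ⟨B, hB⟩ := (isCompact_closedBall (0 : ℂ) 1).exists_bound_of_continuousOn
      (f := fun z => F.eval z) F.continuous.continuousOn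
    refine ⟨|B| + 1, by positivity, fun z hz => ?_⟩
    have h1 := hB z (by rw [Metric.mem_closedBall, dist_zero_right, hz])
    have h2 : |B| ≤ (|B| + 1) ^ 2 := by nlinarith [abs_nonneg B]
    exact h1.trans ((le_abs_self B).trans h2)
  -- error
  obtain ⟨η, hη0, hη⟩ : ∃ η : ℝ, 0 < η ∧ η * (2 * M + η) ≤ δ / 2 := by
    refine ⟨min 1 (δ / (2 * (2 * M + 1))), by positivity, ?_⟩
    have h1 : min 1 (δ / (2 * (2 * M + 1))) ≤ 1 := min_le_left _ _
    have h2 : min 1 (δ / (2 * (2 * M + 1))) ≤ δ / (2 * (2 * M + 1)) := min_le_right _ _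
    have h3 : 0 ≤ min 1 (δ / (2 * (2 * M + 1))) := by positivity
    calc min 1 (δ / (2 * (2 * M + 1))) * (2 * M + min 1 (δ / (2 * (2 * M + 1))))
        ≤ (δ / (2 * (2 * M + 1))) * (2 * M + 1) := by
          apply mul_le_mul h2 (by linarith) (by positivity) (by positivity)
      _ = δ / 2 := by field_simp
  obtain ⟨g, hg⟩ := poly_approx G R hR hG η hη0
  obtain ⟨h, hh⟩ := poly_approx H R hR hH η hη0
  have nG : ∀ z, ‖z‖ = 1 → ‖G z‖ ≤ M := by
    intro z hz
    have h1 := (hGH z hz).2.1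
    have h2 := hM z hz
    exact (pow_le_pow_iff_left₀ (norm_nonneg _) hM0 (by norm_num)).1 (h1.le.trans h2)
  have nH : ∀ z, ‖z‖ = 1 → ‖H z‖ ≤ M := by
    intro z hz
    have h1 := (hGH z hz).2.2
    have h2 := hM z hz
    exact (pow_le_pow_iff_left₀ (norm_nonneg _) hM0 (by norm_num)).1 (h1.le.trans h2)
  have sqb : ∀ (p : ℂ[X]) (P : ℂ → ℂ), (∀ z, ‖z‖ = 1 → ‖p.eval z - P z‖ ≤ η) →
      (∀ z, ‖z‖ = 1 → ‖P z‖ ≤ M) → (∀ z, ‖z‖ = 1 → ‖P z‖ ^ 2 = ‖F.eval z‖) →
      nsq p ≤ avr (fun t => ‖ev f 0 t‖) + δ := by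
    intro p P hp hP hPF
    rw [nsq_eq_avr]
    refine avr_mono_add _ _ ((continuous_ev p).norm.pow 2) (continuous_ev f).norm δ ?_
    intro t
    change ‖ev p 0 t‖ ^ 2 ≤ ‖ev f 0 t‖ + δ
    rw [ev_zero, ev_zero]
    have hz := norm_circleMap t
    generalize circleMap 0 1 t = z at hz
    have h1 : ‖p.eval z‖ ≤ ‖P z‖ + η := by
      have := norm_add_le (P z) (p.eval z - P z)
      rw [add_sub_cancel] at this
      linarith [hp z hz]
    have h2 : ‖F.eval z‖ ≤ ‖f.eval z‖ + δ / 2 := by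
      have := norm_add_le (f.eval z) (F.eval z - f.eval z)
      rw [add_sub_cancel] at this
      linarith [hFf z hz]
    have h3 := hP z hz
    have h4 := hPF z hz
    have h5 : ‖p.eval z‖ ^ 2 ≤ (‖P z‖ + η) ^ 2 := pow_le_pow_left₀ (norm_nonneg _) h1 2
    have h6 : η * ‖P z‖ ≤ η * M := mul_le_mul_of_nonneg_left h3 hη0.le
    nlinarith [h4, h5, h6, h2, hη]
  refine ⟨g, h, sqb g G hg nG (fun z hz => (hGH z hz).2.1),
    sqb h H hh nH (fun z hz => (hGH z hz).2.2), ?_⟩
  intro t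
  rw [ev_zero, ev_zero]
  have hz := norm_circleMap t
  generalize circleMap 0 1 t = z at hz
  rw [eval_mul]
  have h1 : g.eval z * h.eval z - f.eval z =
      (g.eval z - G z) * (h.eval z - H z) + (g.eval z - G z) * H z + G z * (h.eval z - H z) +
        (F.eval z - f.eval z) := by
    have h0 : G z * H z = F.eval z := (hGH z hz).1
    rw [← h0]; ring
  rw [h1]
  have h2 : ‖(g.eval z - G z) * (h.eval z - H z)‖ ≤ η * η := by
    rw [norm_mul]
    exact mul_le_mul (hg z hz) (hh z hz) (norm_nonneg _) hη0.le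
  have h3 : ‖(g.eval z - G z) * H z‖ ≤ η * M := by
    rw [norm_mul]
    exact mul_le_mul (hg z hz) (nH z hz) (norm_nonneg _) hη0.le
  have h4 : ‖G z * (h.eval z - H z)‖ ≤ M * η := by
    rw [norm_mul]
    exact mul_le_mul (nG z hz) (hh z hz) (norm_nonneg _) hM0
  have h5 := hFf z hz
  have h6 := norm_add_le ((g.eval z - G z) * (h.eval z - H z) + (g.eval z - G z) * H z +
    G z * (h.eval z - H z)) (F.eval z - f.eval z)
  have h7 := norm_add_le ((g.eval z - G z) * (h.eval z - H z) + (g.eval z - G z) * H z)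
    (G z * (h.eval z - H z))
  have h8 := norm_add_le ((g.eval z - G z) * (h.eval z - H z)) ((g.eval z - G z) * H z)
  nlinarith [h2, h3, h4, h5, h6, h7, h8, hη]

end Pool.Agent.R244.RP
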