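import Pool.Agent.R244.RP.Core2
import Pool.Agent.R244.RP.Defs2

/-!
# Project RP: final assembly
-/

set_option autoImplicit false

open MeasureTheory Polynomial Filter Topology Set
open scoped BigOperators Real ComplexConjugate

namespace Pool.Agent.R244.RP

lemma fourier_eq_ec (j : ℤ) (x : ℝ) :
    (fourier j : C(AddCircle (2 * π), ℂ)) (x : AddCircle (2 * π)) = ec j x := by
  rw [fourier_coe_apply]
  unfold ec
  congr 1
  have : (π : ℂ) ≠ 0 := by exact_mod_cast Real.pi_ne_zero
  push_cast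
  field_simp

/-- the Fourier coefficients of the partial products -/
lemma integral_eq_rc (n : ℕ → ℕ) (a : ℕ → ℂ) (N : ℕ) (j : ℤ) :
    ∫ t, (((∏ k ∈ Finset.range N,
      (1 + (a k * (fourier (n k : ℤ) : C(AddCircle (2 * π), ℂ)) t).re)) : ℝ) : ℂ) *
        (fourier (-j) : C(AddCircle (2 * π), ℂ)) t
        ∂(AddCircle.haarAddCircle (T := 2 * π)) = rc n a N j := by
  have h := fourierCoeff_eq_intervalIntegral (T := 2 * π) (fun t : AddCircle (2 * π) =>
    (((∏ k ∈ Finset.range N,
      (1 + (a k * (fourier (n k : ℤ) : C(AddCircle (2 * π), ℂ)) t).re)) : ℝ) : ℂ)) j 0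
  unfold fourierCoeff at h
  simp only [smul_eq_mul] at h
  simp_rw [mul_comm (((∏ k ∈ Finset.range N, (1 + (a k * _).re) : ℝ)) : ℂ)]
  rw [h]
  unfold rc av rp
  rw [zero_add, Complex.real_smul]
  congr 1
  · push_cast; simp
  · apply intervalIntegral.integral_congr
    intro x _
    simp only [fourier_eq_ec]
    ring

lemma lac_lt (n : ℕ → ℕ) (hn : Lac n) (k : ℕ) : k < n k := by
  induction k with
  | zero => exact (hn 0).1
  | succ k ih => have := (hn k).2; omega

lemma lac_mono (n : ℕ → ℕ) (hn : Lac n) {i k : ℕ} (h : i ≤ k) : n i ≤ n k := by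
  induction k, h using Nat.le_induction with
  | base => exact le_rfl
  | succ k _ ih => have := (hn k).2; omega

lemma fc_eq (hR : StmR) (μ : Measure (AddCircle (2 * π))) (n : ℕ → ℕ) (a : ℕ → ℂ)
    (h : IsRiesz μ n a) (N : ℕ) (j : ℤ) (hj : 2 * |j| ≤ n N) : fc μ j = rc n a N j := by
  obtain ⟨hn, ha, hl⟩ := h
  obtain ⟨r1, r2, r3, r4, r5, r6⟩ := hR n a hn ha
  have h1 := hl (fourier (-j))
  simp_rw [integral_eq_rc] at h1
  have h2 : Tendsto (fun K => rc n a K j) atTop (𝓝 (rc n a N j)) := by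
    apply tendsto_const_nhds.congr'
    filter_upwards [eventually_ge_atTop N] with K hK
    exact (r4 N K j hK hj).symm
  exact tendsto_nhds_unique h1 h2

lemma fc_freq (hR : StmR) (μ : Measure (AddCircle (2 * π))) (n : ℕ → ℕ) (a : ℕ → ℂ)
    (h : IsRiesz μ n a) (k : ℕ) : fc μ (n k : ℤ) = a k / 2 := by
  have hn := h.1
  have ha := h.2.1
  obtain ⟨r1, r2, r3, r4, r5, r6⟩ := hR n a hn ha
  have h0 : ∀ N, rc n a N 0 = 1 := by
    intro N
    have := r5 N 0
    rw [if_pos rfl, Finset.sum_eq_zero, add_zero] at this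
    · exact_mod_cast this
    · intro K _
      rw [r3 K _ ?_, mul_zero]
      have := (hn K).1
      rw [abs_of_nonpos (by push_cast; omega)]
      push_cast; omega
  have hk := (hn k).2
  have hk0 := (hn k).1
  rw [fc_eq hR μ n a h (k + 1) (n k) (by rw [abs_of_nonneg (by omega)]; omega), r5,
    if_neg (by omega), zero_add, Finset.sum_range_succ, Finset.sum_eq_zero, zero_add, sub_self, h0,
    mul_one]
  intro K hK
  rw [Finset.mem_range] at hK
  rw [r3 K _ ?_, mul_zero]
  have h1 := (hn K).2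
  have h2 := lac_mono n hn (show K + 1 ≤ k by omega)
  rw [abs_of_nonneg (by omega)]
  omega

/-- the hypothesis of `StmA` -/
lemma small_tail (hE : StmE) (hF : StmF) (hD : StmD) (hR : StmR) (hV : StmV)
    (μ : Measure (AddCircle (2 * π))) (n : ℕ → ℕ) (a : ℕ → ℂ)
    (h : IsRiesz μ n a) (h0 : Tendsto (fc μ) cofinite (𝓝 0)) (ε : ℝ) (hε : 0 < ε) :
    ∃ S : ℕ, ∀ P : ℂ[X],
      avr (fun t => ‖ev (mult (fun j => if j < S then 0 else fc μ j) P) 0 t‖) ≤
        ε * avr (fun t => ‖ev P 0 t‖) := by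
  obtain ⟨C, hC, ht⟩ := tail hE hF hD hR hV
  have hn := h.1
  have ha := h.2.1
  -- `a k → 0`
  have hinj : Function.Injective (fun k : ℕ => (n k : ℤ)) := by
    have : StrictMono n := strictMono_nat_of_lt_succ fun k => by
      have h1 := (hn k).1
      have h2 := (hn k).2
      omega
    exact Nat.cast_injective.comp this.injective
  have ha0 : Tendsto (fun k => ‖a k‖) atTop (𝓝 0) := by
    have h1 := h0.comp hinj.tendsto_cofinite
    rw [Nat.cofinite_eq_atTop] at h1
    have h2 : (fc μ ∘ fun k : ℕ => (n k : ℤ)) = fun k => a k / 2 := by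
      funext k
      exact fc_freq hR μ n a h k
    rw [h2] at h1
    have h3 := (h1.const_mul 2).norm
    simp only [mul_zero, norm_zero] at h3
    refine h3.congr ?_
    intro k
    congr 1; ring
  have hpos : 0 < ε / (C + 1) := by positivity
  obtain ⟨J₀, hJ₀⟩ := eventually_atTop.mp ((tendsto_order.mp ha0).2 _ hpos)
  set J := max J₀ 32 with hJ
  have hJ32 : 32 ≤ n J := (le_max_right J₀ 32).trans (lac_lt n hn J).le
  refine ⟨n J / 2 + 1, ?_⟩
  intro P
  set L := 2 * P.natDegree with hL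
  have hb := ht n a hn ha J L (ε / (C + 1)) hJ32
    (fun K hK => (hJ₀ K ((le_max_left _ _).trans hK)).le) P
  have e : mult (fun j => if j < n J / 2 + 1 then 0 else fc μ j) P =
      mult (fun j => if 2 * j ≤ n J then 0 else rc n a (J + L) j) P := by
    unfold mult
    apply Finset.sum_congr rfl
    intro j hj
    congr 2
    change (if j < n J / 2 + 1 then 0 else fc μ j) = if 2 * j ≤ n J then 0 else rc n a (J + L) j
    by_cases hjJ : 2 * j ≤ n J
    · rw [if_pos (by omega), if_pos hjJ]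
    · rw [if_neg (by omega), if_neg hjJ]
      apply fc_eq hR μ n a h
      have h1 : j ≤ P.natDegree := Polynomial.le_natDegree_of_mem_supp j hj
      have h2 := lac_lt n hn (J + L)
      rw [abs_of_nonneg (by omega)]
      omega
  rw [e]
  refine hb.trans ?_
  have hA : 0 ≤ avr (fun t => ‖ev P 0 t‖) := avr_nonneg fun t => norm_nonneg _
  apply mul_le_mul_of_nonneg_right _ hA
  rw [mul_div_assoc']
  rw [div_le_iff₀ (by positivity)]
  nlinarith

theorem main (hA : StmA) (hE : StmE) (hF : StmF) (hD : StmD) (hR : StmR) (hV : StmV)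
    (μ : Measure (AddCircle (2 * π))) (n : ℕ → ℕ) (a : ℕ → ℂ)
    (h : IsRiesz μ n a) (h0 : Tendsto (fc μ) cofinite (𝓝 0)) (T : H1 →L[ℂ] H1)
    (hT : IsMult μ T) : spectrum ℂ T = closure (Set.range fun k : ℕ => fc μ k) := by
  apply hA _ T hT
  · have h1 := h0.comp (Nat.cast_injective (R := ℤ)).tendsto_cofinite
    rwa [Nat.cofinite_eq_atTop] at h1
  · intro ε hε
    exact small_tail hE hF hD hR hV μ n a h h0 ε hε

end Pool.Agent.R244.RP
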