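import Pool.Agent.R244.RP.U

/-!
# Project RP: lacunary sums (`StmL`) and the main term (`StmM`)
-/

set_option autoImplicit false

open MeasureTheory Polynomial Filter Topology Set
open scoped BigOperators Real ComplexConjugate

namespace Pool.Agent.R244.RP

lemma lac_sum_aux (s : ℕ → ℝ) (h0 : ∀ k, 0 < s k) (h1 : ∀ k, 5 / 3 * s k ≤ s (k + 1)) (N : ℕ) :
    (s N ≤ 1 → ∑ K ∈ Finset.range (N + 1), min (s K) (s K)⁻¹ ≤ 5 / 2 * s N) ∧
    (1 ≤ s N → ∑ K ∈ Finset.range (N + 1), min (s K) (s K)⁻¹ + 3 / 2 * (s N)⁻¹ ≤ 5) := by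
  induction N with
  | zero =>
    simp only [zero_add, Finset.range_one, Finset.sum_singleton]
    refine ⟨fun h => ?_, fun h => ?_⟩
    · have := min_le_left (s 0) (s 0)⁻¹
      linarith [h0 0]
    · have h2 := min_le_right (s 0) (s 0)⁻¹
      have h3 : (s 0)⁻¹ ≤ 1 := inv_le_one_of_one_le₀ h
      linarith
  | succ N ih =>
    obtain ⟨ih1, ih2⟩ := ih
    have hN := h0 N
    have hN1 := h0 (N + 1)
    have hr := h1 N
    rw [Finset.sum_range_succ]
    have hinv : (s (N + 1))⁻¹ ≤ 3 / 5 * (s N)⁻¹ := by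
      rw [inv_le_comm₀ hN1 (by positivity)]
      rw [mul_inv, inv_inv]
      linarith
    refine ⟨fun h => ?_, fun h => ?_⟩
    · have h2 := min_le_left (s (N + 1)) (s (N + 1))⁻¹
      have h3 := ih1 (by linarith)
      linarith
    · have h2 := min_le_right (s (N + 1)) (s (N + 1))⁻¹
      have h4 : (s (N + 1))⁻¹ ≤ 1 := inv_le_one_of_one_le₀ h
      rcases le_total (s N) 1 with h5 | h5
      · have h3 := ih1 h5
        linarith
      · have h3 := ih2 h5
        linarith

theorem stmL : StmL := by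
  intro m hm N t ht
  rcases N with _ | N
  · simp
  have h0 : ∀ k, 0 < √((m k : ℝ) * t) := by
    intro k
    have : (0 : ℝ) < m k := by exact_mod_cast (hm k).1
    positivity
  have h1 : ∀ k, 5 / 3 * √((m k : ℝ) * t) ≤ √((m (k + 1) : ℝ) * t) := by
    intro k
    apply Real.le_sqrt_of_sq_le
    rw [mul_pow, Real.sq_sqrt (by positivity)]
    have h3 : (3 : ℝ) * m k ≤ m (k + 1) := by exact_mod_cast (hm k).2
    have h4 : (0 : ℝ) < m k := by exact_mod_cast (hm k).1
    nlinarith [mul_pos h4 ht]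
  have h := lac_sum_aux (fun k => √((m k : ℝ) * t)) h0 h1 N
  rcases le_total (√((m N : ℝ) * t)) 1 with h5 | h5
  · have := h.1 h5
    linarith
  · have h6 := h.2 h5
    have h7 := inv_pos.mpr (h0 N)
    linarith

/-- number of scales at a given frequency -/
lemma count_le (m : ℕ → ℕ) (hm : Lac m) (N n : ℕ) :
    ∑ K ∈ Finset.range N, (if 2 * m K < n ∧ n < 16 * m K then (1 : ℝ) else 0) ≤ 20 := by
  rcases Nat.eq_zero_or_pos n with h0 | h0
  · subst h0; simp
  have hn : (0 : ℝ) < n := by exact_mod_cast h0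
  have h := stmL m hm N ((n : ℝ)⁻¹) (by positivity)
  have : ∀ K ∈ Finset.range N, (if 2 * m K < n ∧ n < 16 * m K then (1 : ℝ) else 0) ≤
      4 * min (√((m K : ℝ) * (n : ℝ)⁻¹)) (√((m K : ℝ) * (n : ℝ)⁻¹))⁻¹ := by
    intro K _
    have hK : (0 : ℝ) < m K := by exact_mod_cast (hm K).1
    split_ifs with hc
    · obtain ⟨c1, c2⟩ := hc
      have c1' : (2 : ℝ) * m K < n := by exact_mod_cast c1
      have c2' : (n : ℝ) < 16 * m K := by exact_mod_cast c2
      have hs : 1 / 4 ≤ √((m K : ℝ) * (n : ℝ)⁻¹) := by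
        apply Real.le_sqrt_of_sq_le
        rw [← div_eq_mul_inv, le_div_iff₀ hn]
        nlinarith
      have hs2 : √((m K : ℝ) * (n : ℝ)⁻¹) ≤ 1 := by
        apply Real.sqrt_le_one.mpr
        rw [← div_eq_mul_inv, div_le_one hn]
        linarith
      have hs3 : (1 : ℝ) ≤ (√((m K : ℝ) * (n : ℝ)⁻¹))⁻¹ :=
        (one_le_inv₀ (by linarith)).mpr hs2
      have : 1 / 4 ≤ min (√((m K : ℝ) * (n : ℝ)⁻¹)) (√((m K : ℝ) * (n : ℝ)⁻¹))⁻¹ :=
        le_min hs (by linarith)
      linarith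
    · positivity
  calc _ ≤ ∑ K ∈ Finset.range N, 4 * min (√((m K : ℝ) * (n : ℝ)⁻¹)) (√((m K : ℝ) * (n : ℝ)⁻¹))⁻¹ :=
        Finset.sum_le_sum this
    _ = 4 * ∑ K ∈ Finset.range N, min (√((m K : ℝ) * (n : ℝ)⁻¹)) (√((m K : ℝ) * (n : ℝ)⁻¹))⁻¹ := by
        rw [Finset.mul_sum]
    _ ≤ 20 := by linarith

/-- the energy at the scale `K` -/
noncomputable def yk (m : ℕ → ℕ) (h : ℂ[X]) (K : ℕ) : ℝ :=
  ∑ n ∈ h.support, (if 2 * m K < n ∧ n < 16 * m K then (1 : ℝ) else 0) * ‖h.coeff n‖ ^ 2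

lemma yk_nonneg (m : ℕ → ℕ) (h : ℂ[X]) (K : ℕ) : 0 ≤ yk m h K := by
  unfold yk; positivity

lemma sum_yk (m : ℕ → ℕ) (hm : Lac m) (h : ℂ[X]) (N : ℕ) :
    ∑ K ∈ Finset.range N, yk m h K ≤ 20 * nsq h := by
  unfold yk nsq
  rw [Finset.sum_comm, Finset.mul_sum]
  apply Finset.sum_le_sum
  intro n _
  rw [← Finset.sum_mul]
  exact mul_le_mul_of_nonneg_right (count_le m hm N n) (by positivity)

/-- the pairing of a polynomial without constant term with `Re w` -/
lemma pr_eq (Q w : ℂ[X]) (hQ : Q.coeff 0 = 0) :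
    pr Q w = 2⁻¹ * ∑ n ∈ Q.support, (if n = 0 then 0 else Q.coeff n * conj (w.coeff n)) := by
  unfold pr
  have e : (fun t => ev Q 0 t * ((ev w 0 t).re : ℂ)) =
      fun t => 2⁻¹ * ev (Q * w) 0 t + 2⁻¹ * (ev Q 0 t * conj (ev w 0 t)) := by
    funext t
    rw [ev_mul, Complex.re_eq_add_conj]; ring
  rw [e, av_add (by fun_prop) (by fun_prop), av_const_mul, av_const_mul, av_ev,
    Polynomial.mul_coeff_zero, hQ, zero_mul, mul_zero, zero_add,
    av_ev_mul_conj Q w 0 Q.support subset_rfl]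
  congr 1
  apply Finset.sum_congr rfl
  intro n _
  split_ifs with h0
  · subst h0; rw [hQ]; simp
  · simp

lemma pr_eq_integral (Q w : ℂ[X]) (hQ : Q.coeff 0 = 0) :
    pr Q w = 2 * ∫ x in Ioi (0 : ℝ), (x : ℂ) * lp Q w x := by
  rw [integral_lp Q w Q.support subset_rfl, pr_eq Q w hQ]
  ring

lemma continuous_nx (P : ℂ[X]) : Continuous (nx P) := by
  unfold nx; fun_prop

lemma norm_lp_para_le (g u w : ℂ[X]) (x p : ℝ) (hp : 0 < p) :
    2 * ‖lp (para g u) w x‖ ≤ p * nx (g * D w) x + p⁻¹ * nx (D u) x := by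
  have h1 : ‖lp (para g u) w x‖ ≤ avr (fun t => ‖ev (g * D w) x t‖ * ‖ev (D u) x t‖) := by
    unfold lp
    refine norm_av_le.trans (le_of_eq ?_)
    congr 1
    funext t
    rw [D_para, ev_mul, ev_mul, norm_mul, norm_mul, norm_mul, Complex.norm_conj]; ring
  have h2 : 2 * avr (fun t => ‖ev (g * D w) x t‖ * ‖ev (D u) x t‖) ≤
      p * nx (g * D w) x + p⁻¹ * nx (D u) x := by
    rw [← avr_norm_sq, ← avr_norm_sq, ← avr_const_mul, ← avr_const_mul, ← avr_const_mul,
      ← avr_add (by fun_prop) (by fun_prop)]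
    apply avr_mono (by fun_prop) (by fun_prop)
    intro t
    set a := ‖ev (g * D w) x t‖
    set b := ‖ev (D u) x t‖
    have hpp : 0 < √p := Real.sqrt_pos.mpr hp
    have := sq_nonneg (√p * a - (√p)⁻¹ * b)
    have e : (√p * a - (√p)⁻¹ * b) ^ 2 = p * a ^ 2 + p⁻¹ * b ^ 2 - 2 * (a * b) := by
      have e1 : √p ^ 2 = p := Real.sq_sqrt hp.le
      have e2 : ((√p)⁻¹) ^ 2 = p⁻¹ := by rw [inv_pow, e1]
      have e3 : √p * (√p)⁻¹ = 1 := mul_inv_cancel₀ hpp.ne'
      calc (√p * a - (√p)⁻¹ * b) ^ 2 = √p ^ 2 * a ^ 2 + ((√p)⁻¹) ^ 2 * b ^ 2 -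
            2 * (√p * (√p)⁻¹) * (a * b) := by ring
        _ = _ := by rw [e1, e2, e3]; ring
    linarith
  linarith

lemma nx_D_mult_le (m : ℕ → ℕ) (v : ℕ → ℕ → ℝ) (hv : Ker m v) (h : ℂ[X]) (K : ℕ) (s x : ℝ)
    (hx : 0 ≤ x) :
    nx (D (mult (sym v K s) h)) x ≤ 256 * (m K : ℝ) ^ 2 * Real.exp (-(4 * m K * x)) * yk m h K := by
  have hs : (D (mult (sym v K s) h)).support ⊆ h.support := by
    intro n hn
    rw [Polynomial.mem_support_iff, coeff_D, coeff_mult] at hn
    rw [Polynomial.mem_support_iff]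
    exact fun h => hn (by rw [h, mul_zero, mul_zero])
  rw [nx_eq_sum _ _ _ hs, yk, Finset.mul_sum]
  apply Finset.sum_le_sum
  intro n _
  rw [coeff_D, coeff_mult, norm_mul, norm_mul, sym, norm_mul, norm_ec, mul_one,
    Complex.norm_natCast, Complex.norm_real, Real.norm_eq_abs]
  by_cases h0 : v K n = 0
  · rw [h0]
    simp only [abs_zero, zero_mul, mul_zero, ne_eq, OfNat.ofNat_ne_zero, not_false_eq_true,
      zero_pow]
    positivity
  · have hc := hv.supp K n h0
    rw [if_pos hc, one_mul]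
    have c1 : (2 : ℝ) * m K ≤ n := by exact_mod_cast hc.1.le
    have c2 : (n : ℝ) ≤ 16 * m K := by exact_mod_cast hc.2.le
    have hv1 := hv.le K n
    have e1 : ((n : ℝ) * (|v K n| * ‖h.coeff n‖)) ^ 2 ≤ 256 * (m K : ℝ) ^ 2 * ‖h.coeff n‖ ^ 2 := by
      have : (n : ℝ) * (|v K n| * ‖h.coeff n‖) ≤ 16 * m K * (1 * ‖h.coeff n‖) := by
        gcongr
      calc ((n : ℝ) * (|v K n| * ‖h.coeff n‖)) ^ 2 ≤ (16 * m K * (1 * ‖h.coeff n‖)) ^ 2 := by
            gcongr
        _ = _ := by ring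
    have e2 : Real.exp (-(2 * n * x)) ≤ Real.exp (-(4 * m K * x)) := by
      apply Real.exp_le_exp.mpr
      nlinarith
    calc _ ≤ (256 * (m K : ℝ) ^ 2 * ‖h.coeff n‖ ^ 2) * Real.exp (-(4 * m K * x)) := by gcongr
      _ = _ := by ring

lemma integrable_exp {c : ℝ} (hc : 0 < c) :
    IntegrableOn (fun x : ℝ => Real.exp (-(c * x))) (Ioi 0) := by
  have := exp_neg_integrableOn_Ioi 0 hc
  refine this.congr_fun (fun x _ => ?_) measurableSet_Ioi
  simp

lemma integral_exp' {c : ℝ} (hc : 0 < c) : ∫ x in Ioi (0 : ℝ), Real.exp (-(c * x)) = 1 / c := by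
  have h := Real.integral_rpow_mul_exp_neg_mul_Ioi (a := 1) (r := c) (by norm_num) hc
  simpa using h

/-- the weight -/
noncomputable def pw (m : ℕ → ℕ) (K : ℕ) (x : ℝ) : ℝ := m K * x * Real.exp (-(m K * x))

lemma pw_le (m : ℕ → ℕ) (hm : Lac m) (K : ℕ) (x : ℝ) (hx : 0 < x) :
    pw m K x ≤ min (√(m K * x)) (√(m K * x))⁻¹ := by
  unfold pw
  have hK : (0 : ℝ) < m K := by exact_mod_cast (hm K).1
  set u : ℝ := m K * x with hu
  have hu0 : 0 < u := by positivity
  have hs : 0 < √u := Real.sqrt_pos.mpr hu0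
  have hsq : √u * √u = u := Real.mul_self_sqrt hu0.le
  -- `√u e^{-u} ≤ 1`
  have h1 : √u * Real.exp (-u) ≤ 1 := by
    rw [Real.exp_neg, ← div_eq_mul_inv, div_le_one (Real.exp_pos _)]
    have := Real.add_one_le_exp u
    nlinarith [sq_nonneg (√u - 1)]
  have h2 : u * √u * Real.exp (-u) ≤ 1 := by
    rw [Real.exp_neg, ← div_eq_mul_inv, div_le_one (Real.exp_pos _)]
    have := Real.quadratic_le_exp_of_nonneg hu0.le
    nlinarith [sq_nonneg (√u - 1), sq_nonneg (u - √u), sq_nonneg (√u)]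
  apply le_min
  · calc u * Real.exp (-u) = √u * (√u * Real.exp (-u)) := by rw [← mul_assoc, hsq]
      _ ≤ √u * 1 := mul_le_mul_of_nonneg_left h1 hs.le
      _ = √u := mul_one _
  · rw [le_inv_comm₀ (by positivity) hs]
    rw [← one_div, le_div_iff₀ (by positivity)]
    linarith [h2]

lemma sum_pw_le (m : ℕ → ℕ) (hm : Lac m) (N : ℕ) (x : ℝ) (hx : 0 < x) :
    ∑ K ∈ Finset.range N, pw m K x ≤ 5 :=
  (Finset.sum_le_sum fun K _ => pw_le m hm K x hx).trans (stmL m hm N x hx)

lemma quad_opt {S A B : ℝ} (hS : 0 ≤ S) (hA : 0 ≤ A) (hB : 0 ≤ B)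
    (h : ∀ l : ℝ, 0 < l → S ≤ l * A + l⁻¹ * B) : S ≤ 2 * (√A * √B) := by
  have h1 : ∀ l : ℝ, 0 ≤ A * (l * l) + (-S) * l + B := by
    intro l
    rcases le_or_gt l 0 with hl | hl
    · nlinarith [mul_nonneg hA (mul_self_nonneg l), mul_nonneg hS (neg_nonneg.mpr hl)]
    · have := mul_le_mul_of_nonneg_left (h l hl) hl.le
      have e : l * (l * A + l⁻¹ * B) = A * (l * l) + B := by field_simp
      rw [e] at this
      linarith
  have h2 := discrim_le_zero h1
  unfold discrim at h2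
  have h3 : S ^ 2 ≤ (2 * (√A * √B)) ^ 2 := by
    rw [mul_pow, mul_pow, Real.sq_sqrt hA, Real.sq_sqrt hB]; linarith
  exact (sq_le_sq₀ hS (by positivity)).mp h3

theorem stmM : StmM := by
  refine ⟨400, by norm_num, ?_⟩
  intro m v hv N g h w hw s
  set S := ∑ K ∈ Finset.range N, ‖pr (para g (mult (sym v K (s K)) h)) w‖ with hS
  have hgw : (g * D w).coeff 0 = 0 := by rw [Polynomial.mul_coeff_zero, coeff_zero_D, mul_zero]
  have i1 := integrable_nx (g * D w) hgw
  have hU : ∫ x in Ioi (0 : ℝ), x * nx (g * D w) x ≤ 4 * nsq g := by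
    have := stmU g w hw
    have e0 : ∀ x t, ‖ev g x t * ev (D w) x t‖ ^ 2 = ‖ev (g * D w) x t‖ ^ 2 := by
      intro x t; rw [ev_mul]
    simp_rw [e0, avr_norm_sq] at this
    exact this
  have hmpos : ∀ K, (0 : ℝ) < m K := fun K => by exact_mod_cast (hv.lac K).1
  have hpw : ∀ K x, 0 < x → 0 < pw m K x := by
    intro K x hx; unfold pw; have := hmpos K; positivity
  have hpwint : ∀ K, IntegrableOn (fun x => pw m K x * (x * nx (g * D w) x)) (Ioi 0) := by
    intro K
    refine Integrable.mono' (i1.const_mul 5) ?_ ?_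
    · apply Continuous.aestronglyMeasurable
      unfold pw
      have := continuous_nx (g * D w)
      fun_prop
    · refine (ae_restrict_iff' measurableSet_Ioi).mpr (Eventually.of_forall fun x hx => ?_)
      have hx' : (0 : ℝ) < x := hx
      have h1 := sum_pw_le m hv.lac (K + 1) x hx'
      have h2 : pw m K x ≤ 5 := by
        refine le_trans ?_ h1
        exact Finset.single_le_sum (f := fun K => pw m K x) (fun i _ => (hpw i x hx').le)
          (Finset.self_mem_range_succ K)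
      have h3 : 0 ≤ x * nx (g * D w) x := mul_nonneg hx'.le (nx_nonneg _ _)
      rw [Real.norm_of_nonneg (mul_nonneg (hpw K x hx').le h3)]
      exact mul_le_mul_of_nonneg_right h2 h3
  have key : ∀ l : ℝ, 0 < l → S ≤ l * (20 * nsq g) + l⁻¹ * (256 / 3 * 20 * nsq h) := by
    intro l hl
    have hK : ∀ K ∈ Finset.range N, ‖pr (para g (mult (sym v K (s K)) h)) w‖ ≤
        l * (∫ x in Ioi (0 : ℝ), pw m K x * (x * nx (g * D w) x)) +
          l⁻¹ * (256 / 3 * yk m h K) := by
      intro K _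
      rw [pr_eq_integral _ _ (coeff_zero_para _ _)]
      have hm0 := hmpos K
      have j2 : IntegrableOn (fun x : ℝ => l⁻¹ * (256 * yk m h K) *
          (m K * Real.exp (-(3 * m K * x)))) (Ioi 0) :=
        ((integrable_exp (c := 3 * m K) (by positivity)).const_mul _).const_mul _
      have j1 : IntegrableOn (fun x : ℝ => l * (pw m K x * (x * nx (g * D w) x))) (Ioi 0) :=
        (hpwint K).const_mul _
      have hb : ‖∫ x in Ioi (0 : ℝ), (2 : ℂ) * ((x : ℂ) * lp (para g (mult (sym v K (s K)) h)) w x)‖ ≤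
          ∫ x in Ioi (0 : ℝ), (l * (pw m K x * (x * nx (g * D w) x)) +
            l⁻¹ * (256 * yk m h K) * (m K * Real.exp (-(3 * m K * x)))) := by
        apply norm_integral_le_of_norm_le (j1.add j2)
        refine (ae_restrict_iff' measurableSet_Ioi).mpr (Eventually.of_forall fun x hx => ?_)
        have hx' : (0 : ℝ) < x := hx
        have hp := hpw K x hx'
        have h1 := norm_lp_para_le g (mult (sym v K (s K)) h) w x (l * pw m K x) (by positivity)
        have h2 := nx_D_mult_le m v hv h K (s K) x hx'.le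
        have h3 : (l * pw m K x)⁻¹ * nx (D (mult (sym v K (s K)) h)) x ≤
            (l * pw m K x)⁻¹ * (256 * (m K : ℝ) ^ 2 * Real.exp (-(4 * m K * x)) * yk m h K) :=
          mul_le_mul_of_nonneg_left h2 (by positivity)
        rw [norm_mul, norm_mul, Complex.norm_real, Real.norm_of_nonneg hx'.le, Complex.norm_ofNat]
        have h4 : x * ((l * pw m K x)⁻¹ *
            (256 * (m K : ℝ) ^ 2 * Real.exp (-(4 * m K * x)) * yk m h K)) =
            l⁻¹ * (256 * yk m h K) * (m K * Real.exp (-(3 * m K * x))) := by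
          unfold pw
          have e : Real.exp (-(4 * m K * x)) = Real.exp (-(3 * m K * x)) * Real.exp (-(m K * x)) := by
            rw [← Real.exp_add]; congr 1; ring
          rw [e]
          have := Real.exp_ne_zero (-(m K * x))
          field_simp
        calc 2 * (x * ‖lp (para g (mult (sym v K (s K)) h)) w x‖)
            = x * (2 * ‖lp (para g (mult (sym v K (s K)) h)) w x‖) := by ring
          _ ≤ x * (l * pw m K x * nx (g * D w) x + (l * pw m K x)⁻¹ *
              (256 * (m K : ℝ) ^ 2 * Real.exp (-(4 * m K * x)) * yk m h K)) :=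
              mul_le_mul_of_nonneg_left (by linarith) hx'.le
          _ = l * (pw m K x * (x * nx (g * D w) x)) + x * ((l * pw m K x)⁻¹ *
              (256 * (m K : ℝ) ^ 2 * Real.exp (-(4 * m K * x)) * yk m h K)) := by ring
          _ = _ := by rw [h4]; rfl
      rw [integral_const_mul] at hb
      refine hb.trans (le_of_eq ?_)
      rw [integral_add j1 j2, integral_const_mul, integral_const_mul, integral_const_mul,
        integral_exp' (c := 3 * m K) (by positivity)]
      congr 1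
      field_simp
    calc S ≤ ∑ K ∈ Finset.range N, (l * (∫ x in Ioi (0 : ℝ), pw m K x * (x * nx (g * D w) x)) +
          l⁻¹ * (256 / 3 * yk m h K)) := Finset.sum_le_sum hK
      _ = l * (∫ x in Ioi (0 : ℝ), ∑ K ∈ Finset.range N, pw m K x * (x * nx (g * D w) x)) +
          l⁻¹ * (256 / 3 * ∑ K ∈ Finset.range N, yk m h K) := by
          rw [Finset.sum_add_distrib, ← Finset.mul_sum, ← Finset.mul_sum, ← Finset.mul_sum,
            integral_finsetSum _ (fun K _ => hpwint K)]
      _ ≤ l * (5 * (4 * nsq g)) + l⁻¹ * (256 / 3 * (20 * nsq h)) := by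
          have hs := sum_yk m hv.lac h N
          have hi : ∫ x in Ioi (0 : ℝ), ∑ K ∈ Finset.range N, pw m K x * (x * nx (g * D w) x) ≤
              5 * (4 * nsq g) := by
            calc _ ≤ ∫ x in Ioi (0 : ℝ), 5 * (x * nx (g * D w) x) := by
                  apply setIntegral_mono_on (integrable_finsetSum _ fun K _ => hpwint K)
                    (i1.const_mul _) measurableSet_Ioi
                  intro x hx
                  have hx' : (0 : ℝ) < x := hx
                  rw [← Finset.sum_mul]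
                  exact mul_le_mul_of_nonneg_right (sum_pw_le m hv.lac N x hx')
                    (mul_nonneg hx'.le (nx_nonneg _ _))
              _ = 5 * ∫ x in Ioi (0 : ℝ), x * nx (g * D w) x := integral_const_mul _ _
              _ ≤ _ := by linarith
          gcongr
      _ = _ := by ring
  have hfin := quad_opt (Finset.sum_nonneg fun K _ => norm_nonneg _) (by
    have := nsq_nonneg g; positivity) (by have := nsq_nonneg h; positivity) key
  refine hfin.trans ?_
  rw [Real.sqrt_mul (by norm_num), Real.sqrt_mul (by norm_num)]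
  have h20 : √(20 : ℝ) * √(256 / 3 * 20) ≤ 200 := by
    rw [← Real.sqrt_mul (by norm_num)]
    apply Real.sqrt_le_iff.mpr
    norm_num
  have hp : 0 ≤ √(nsq g) * √(nsq h) := by positivity
  calc 2 * (√20 * √(nsq g) * (√(256 / 3 * 20) * √(nsq h)))
      = 2 * (√20 * √(256 / 3 * 20)) * (√(nsq g) * √(nsq h)) := by ring
    _ ≤ 2 * 200 * (√(nsq g) * √(nsq h)) := by gcongr
    _ = _ := by ring

end Pool.Agent.R244.RP
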