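import Pool.Agent.R244.RP.Stm

/-!
# Project RP: pieces RP-R and RP-V (partial Riesz products, Fejér kernels)
-/

set_option autoImplicit false

open MeasureTheory Polynomial Filter Topology
open scoped BigOperators Real

namespace Pool.Agent.R244.RP

namespace RR

lemma ec_add (m n : ℤ) (t : ℝ) : ec (m + n) t = ec m t * ec n t := by
  unfold ec
  rw [← Complex.exp_add]
  congr 1
  push_cast
  ring

lemma ec_zero (t : ℝ) : ec 0 t = 1 := by simp [ec]

lemma ec_norm (n : ℤ) (t : ℝ) : ‖ec n t‖ = 1 := by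
  unfold ec
  rw [show (n : ℂ) * t * Complex.I = ((n * t : ℝ) : ℂ) * Complex.I by push_cast; ring]
  exact Complex.norm_exp_ofReal_mul_I _

lemma ec_conj (n : ℤ) (t : ℝ) : (starRingEnd ℂ) (ec n t) = ec (-n) t := by
  unfold ec
  rw [← Complex.exp_conj]
  congr 1
  simp

lemma ec_sub_arg (n : ℤ) (s t : ℝ) : ec n (s - t) = ec n s * ec (-n) t := by
  unfold ec
  rw [← Complex.exp_add]
  congr 1
  push_cast
  ring

lemma ec_cont (n : ℤ) : Continuous (ec n) := by
  unfold ec
  fun_prop

lemma ec_pow (n : ℕ) (t : ℝ) : ec n t = (ec 1 t) ^ n := by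
  unfold ec
  rw [← Complex.exp_nat_mul]
  congr 1
  push_cast
  ring

lemma av_ec (n : ℤ) : av (fun t => ec n t) = if n = 0 then 1 else 0 := by
  unfold av
  split_ifs with h
  · subst h
    simp only [ec_zero]
    rw [intervalIntegral.integral_const]
    simp only [sub_zero, Complex.real_smul, mul_one]
    have : (2 * (π : ℂ)) ≠ 0 := by
      simp [Real.pi_ne_zero]
    push_cast
    rw [inv_mul_cancel₀ this]
  · have hc : ((n : ℂ) * Complex.I) ≠ 0 := by
      simp [h, Complex.I_ne_zero]
    have h1 : (fun t : ℝ => ec n t) = fun t : ℝ => Complex.exp ((n : ℂ) * Complex.I * t) := by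
      funext t
      unfold ec
      congr 1
      ring
    rw [h1, integral_exp_mul_complex hc]
    have h2 : Complex.exp ((n : ℂ) * Complex.I * ((2 * π : ℝ) : ℂ)) = 1 := by
      rw [show (n : ℂ) * Complex.I * ((2 * π : ℝ) : ℂ) = n * (2 * π * Complex.I) by push_cast; ring]
      exact Complex.exp_int_mul_two_pi_mul_I n
    rw [h2]
    simp

lemma av_add {F G : ℝ → ℂ} (hF : Continuous F) (hG : Continuous G) :
    av (fun t => F t + G t) = av F + av G := by
  unfold av
  rw [intervalIntegral.integral_add (hF.intervalIntegrable _ _) (hG.intervalIntegrable _ _), mul_add]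

lemma av_mul (c : ℂ) (F : ℝ → ℂ) : av (fun t => c * F t) = c * av F := by
  unfold av
  rw [intervalIntegral.integral_const_mul]
  ring

lemma av_sum {ι : Type} (s : Finset ι) (F : ι → ℝ → ℂ) (hF : ∀ i ∈ s, Continuous (F i)) :
    av (fun t => ∑ i ∈ s, F i t) = ∑ i ∈ s, av (F i) := by
  unfold av
  rw [intervalIntegral.integral_finsetSum (fun i hi => (hF i hi).intervalIntegrable _ _),
    Finset.mul_sum]

lemma av_ofReal (F : ℝ → ℝ) : av (fun t => (F t : ℂ)) = (avr F : ℂ) := by
  unfold av avr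
  rw [intervalIntegral.integral_ofReal]
  push_cast
  ring

lemma avr_mono {F G : ℝ → ℝ} (hF : Continuous F) (hG : Continuous G) (h : ∀ t, F t ≤ G t) :
    avr F ≤ avr G := by
  unfold avr
  apply mul_le_mul_of_nonneg_left _ (by positivity)
  exact intervalIntegral.integral_mono (by positivity) (hF.intervalIntegrable _ _)
    (hG.intervalIntegrable _ _) h

lemma avr_mul (c : ℝ) (F : ℝ → ℝ) : avr (fun t => c * F t) = c * avr F := by
  unfold avr
  rw [intervalIntegral.integral_const_mul]
  ring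

/-! ### Fejér kernels -/

/-- the coefficients of the Fejér kernel -/
noncomputable def wt (M : ℕ) (d : ℤ) : ℝ := max 0 (1 - |(d : ℝ)| / M)

lemma card_diff (M : ℕ) (d : ℤ) :
    (((Finset.range M ×ˢ Finset.range M).filter fun p => (p.1 : ℤ) - p.2 = d).card : ℤ) =
      max 0 (M - |d|) := by
  rcases le_total 0 d with hd | hd
  · obtain ⟨k, rfl⟩ := Int.eq_ofNat_of_zero_le hd
    have h1 : ((Finset.range M ×ˢ Finset.range M).filter fun p => (p.1 : ℤ) - p.2 = (k : ℤ)) =
        (Finset.range (M - k)).image fun b => (b + k, b) := by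
      ext ⟨a, b⟩
      simp only [Finset.mem_filter, Finset.mem_product, Finset.mem_range, Finset.mem_image,
        Prod.mk.injEq]
      constructor
      · rintro ⟨⟨h1, h2⟩, h3⟩
        exact ⟨b, by omega, by omega, rfl⟩
      · rintro ⟨c, h1, h2, rfl⟩
        omega
    rw [h1, Finset.card_image_of_injective _ (fun a b h => by simpa using h), Finset.card_range]
    simp only [Nat.abs_cast]
    omega
  · obtain ⟨k, hk⟩ := Int.eq_ofNat_of_zero_le (neg_nonneg.2 hd)
    have hd' : d = -(k : ℤ) := by omega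
    subst hd'
    have h1 : ((Finset.range M ×ˢ Finset.range M).filter fun p => (p.1 : ℤ) - p.2 = -(k : ℤ)) =
        (Finset.range (M - k)).image fun b => (b, b + k) := by
      ext ⟨a, b⟩
      simp only [Finset.mem_filter, Finset.mem_product, Finset.mem_range, Finset.mem_image,
        Prod.mk.injEq]
      constructor
      · rintro ⟨⟨h1, h2⟩, h3⟩
        exact ⟨a, by omega, rfl, by omega⟩
      · rintro ⟨c, h1, rfl, h2⟩
        omega
    rw [h1, Finset.card_image_of_injective _ (fun a b h => by simpa using h), Finset.card_range]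
    rw [abs_neg, Nat.abs_cast]
    omega

lemma Fe_sum {M : ℕ} (hM : 0 < M) (t : ℝ) : (Fe M t : ℂ) =
    ∑ d ∈ Finset.Icc (-(M : ℤ)) M, (wt M d : ℂ) * ec d t := by
  have hM' : (M : ℝ) ≠ 0 := by positivity
  have h1 : ((‖∑ j ∈ Finset.range M, ec j t‖ ^ 2 : ℝ) : ℂ) =
      ∑ p ∈ Finset.range M ×ˢ Finset.range M, ec ((p.1 : ℤ) - p.2) t := by
    rw [← Complex.normSq_eq_norm_sq, Complex.normSq_eq_conj_mul_self, map_sum, Finset.sum_mul_sum,
      Finset.sum_comm, Finset.sum_product]
    apply Finset.sum_congr rfl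
    intro i _
    apply Finset.sum_congr rfl
    intro j _
    rw [ec_conj, ← ec_add]
    congr 1
    ring
  unfold Fe
  push_cast
  push_cast at h1
  rw [h1, ← Finset.sum_fiberwise_of_maps_to (t := Finset.Icc (-(M : ℤ)) M)
    (g := fun p : ℕ × ℕ => (p.1 : ℤ) - p.2), Finset.mul_sum]
  · apply Finset.sum_congr rfl
    intro d _
    have h2 : ∑ p ∈ (Finset.range M ×ˢ Finset.range M).filter (fun p => (p.1 : ℤ) - p.2 = d),
        ec ((p.1 : ℤ) - p.2) t =
        (((Finset.range M ×ˢ Finset.range M).filter fun p => (p.1 : ℤ) - p.2 = d).card : ℂ) *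
          ec d t := by
      rw [Finset.sum_congr rfl (g := fun _ => ec d t) (fun p hp => by
        rw [(Finset.mem_filter.1 hp).2]), Finset.sum_const, nsmul_eq_mul]
    rw [h2]
    have h3 := card_diff M d
    have h4 : (((Finset.range M ×ˢ Finset.range M).filter fun p => (p.1 : ℤ) - p.2 = d).card : ℝ) =
        max 0 (M - |(d : ℝ)|) := by
      have := congrArg (fun z : ℤ => (z : ℝ)) h3
      push_cast at this
      exact this
    have h5 : wt M d = (M : ℝ)⁻¹ * (((Finset.range M ×ˢ Finset.range M).filter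
        fun p => (p.1 : ℤ) - p.2 = d).card : ℝ) := by
      rw [h4, wt, mul_max_of_nonneg _ _ (by positivity)]
      congr 1
      · simp
      · field_simp
    rw [h5]
    push_cast
    ring
  · intro p hp
    simp only [Finset.mem_product, Finset.mem_range] at hp
    simp only [Finset.mem_Icc]
    omega

lemma wt_zero {M : ℕ} (hM : 0 < M) {d : ℤ} (h : (M : ℤ) ≤ |d|) : wt M d = 0 := by
  unfold wt
  apply max_eq_left
  have h1 : (M : ℝ) ≤ |(d : ℝ)| := by exact_mod_cast h
  have h2 : (0 : ℝ) < M := by positivity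
  rw [sub_nonpos, one_le_div h2]
  exact h1

lemma Fe_cont (M : ℕ) : Continuous (Fe M) := by
  unfold Fe
  have : Continuous fun t : ℝ => ∑ j ∈ Finset.range M, ec j t :=
    continuous_finsetSum _ fun j _ => ec_cont j
  fun_prop

lemma Fe_nonneg (M : ℕ) (t : ℝ) : 0 ≤ Fe M t := by
  unfold Fe
  positivity

lemma Fe_coeff {M : ℕ} (hM : 0 < M) (j : ℤ) : av (fun s => (Fe M s : ℂ) * ec (-j) s) = wt M j := by
  have h1 : (fun s => (Fe M s : ℂ) * ec (-j) s) = fun s =>
      ∑ d ∈ Finset.Icc (-(M : ℤ)) M, (wt M d : ℂ) * ec (d - j) s := by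
    funext s
    rw [Fe_sum hM, Finset.sum_mul]
    apply Finset.sum_congr rfl
    intro d _
    rw [mul_assoc, ← ec_add, sub_eq_add_neg]
  rw [h1, av_sum _ (fun d s => (wt M d : ℂ) * ec (d - j) s)
    (fun d _ => continuous_const.mul (ec_cont _))]
  have h2 : ∀ d, av (fun s => (wt M d : ℂ) * ec (d - j) s) = if d = j then (wt M j : ℂ) else 0 := by
    intro d
    rw [av_mul, av_ec]
    by_cases h : d = j
    · subst h; simp
    · rw [if_neg h, if_neg (sub_ne_zero.2 h), mul_zero]
  rw [Finset.sum_congr rfl (fun d _ => h2 d), Finset.sum_ite_eq']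
  split_ifs with h
  · rfl
  · rw [wt_zero hM]
    · simp
    · rw [Finset.mem_Icc] at h
      by_contra hlt
      apply h
      push Not at hlt
      rw [abs_lt] at hlt
      omega

lemma Fe_mul_le (k m : ℕ) (hk : 0 < k) (hm : 0 < m) (t : ℝ) : Fe (k * m) t ≤ k * Fe m t := by
  have hfac : ∀ k : ℕ, ∑ j ∈ Finset.range (k * m), ec (j : ℤ) t =
      (∑ j ∈ Finset.range m, ec (j : ℤ) t) * ∑ i ∈ Finset.range k, ec ((i * m : ℕ) : ℤ) t := by
    intro k
    induction k with
    | zero => simp
    | succ k ih =>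
      rw [add_mul, one_mul, Finset.sum_range_add, ih, Finset.sum_range_succ _ k, mul_add]
      congr 1
      rw [Finset.sum_mul]
      apply Finset.sum_congr rfl
      intro j _
      rw [← ec_add]
      congr 1
      push_cast
      ring
  have hnorm : ‖∑ i ∈ Finset.range k, ec ((i * m : ℕ) : ℤ) t‖ ≤ k := by
    refine (norm_sum_le _ _).trans ?_
    simp [ec_norm]
  unfold Fe
  rw [hfac k, norm_mul, mul_pow]
  have hk' : (0 : ℝ) < k := by exact_mod_cast hk
  have hm' : (0 : ℝ) < m := by exact_mod_cast hm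
  push_cast
  have h2 : ‖∑ i ∈ Finset.range k, ec ((i * m : ℕ) : ℤ) t‖ ^ 2 ≤ (k : ℝ) ^ 2 := by
    apply pow_le_pow_left₀ (norm_nonneg _) hnorm
  have h3 : 0 ≤ ‖∑ j ∈ Finset.range m, ec (j : ℤ) t‖ ^ 2 := by positivity
  calc ((k : ℝ) * m)⁻¹ * (‖∑ j ∈ Finset.range m, ec (j : ℤ) t‖ ^ 2 *
        ‖∑ i ∈ Finset.range k, ec ((i * m : ℕ) : ℤ) t‖ ^ 2)
      ≤ ((k : ℝ) * m)⁻¹ * (‖∑ j ∈ Finset.range m, ec (j : ℤ) t‖ ^ 2 * (k : ℝ) ^ 2) := by gcongr
    _ = k * ((m : ℝ)⁻¹ * ‖∑ j ∈ Finset.range m, ec (j : ℤ) t‖ ^ 2) := by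
        field_simp

/-! ### partial Riesz products -/

section riesz

variable (n : ℕ → ℕ) (a : ℕ → ℂ)

/-- the degree -/
def SS (K : ℕ) : ℕ := ∑ k ∈ Finset.range K, n k

lemma SS_lt (h : Lac n) (K : ℕ) : 2 * SS n K + 1 ≤ n K := by
  induction K with
  | zero =>
    have := (h 0).1
    simp only [SS, Finset.range_zero, Finset.sum_empty]
    omega
  | succ K ih =>
    have h1 := (h K).2
    have h2 : SS n (K + 1) = SS n K + n K := Finset.sum_range_succ _ _
    rw [h2]
    omega

lemma n_mono (h : Lac n) : Monotone n := by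
  apply monotone_nat_of_le_succ
  intro k
  have := (h k).2
  omega

lemma rp_cont (K : ℕ) : Continuous (rp n a K) := by
  unfold rp
  apply continuous_finsetProd
  intro k _
  exact continuous_const.add (Complex.continuous_re.comp (continuous_const.mul (ec_cont _)))

lemma rp_succ (K : ℕ) (t : ℝ) : (rp n a (K + 1) t : ℂ) = (rp n a K t : ℂ) *
    (1 + a K / 2 * ec (n K) t + (starRingEnd ℂ) (a K) / 2 * ec (-(n K : ℤ)) t) := by
  have h1 : rp n a (K + 1) t = rp n a K t * (1 + (a K * ec (n K) t).re) := by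
    unfold rp
    rw [Finset.prod_range_succ]
  rw [h1]
  push_cast
  congr 1
  rw [Complex.re_eq_add_conj, map_mul, ec_conj]
  ring

lemma rc_zero (j : ℤ) : rc n a 0 j = if j = 0 then 1 else 0 := by
  unfold rc
  have : (fun t => (rp n a 0 t : ℂ) * ec (-j) t) = fun t => ec (-j) t := by
    funext t
    simp [rp]
  rw [this, av_ec]
  simp

lemma rc_succ (K : ℕ) (j : ℤ) : rc n a (K + 1) j = rc n a K j + a K / 2 * rc n a K (j - n K) +
    (starRingEnd ℂ) (a K) / 2 * rc n a K (j + n K) := by
  unfold rc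
  have h : (fun t => (rp n a (K + 1) t : ℂ) * ec (-j) t) = fun t =>
      ((rp n a K t : ℂ) * ec (-j) t + a K / 2 * ((rp n a K t : ℂ) * ec (-(j - n K)) t)) +
      (starRingEnd ℂ) (a K) / 2 * ((rp n a K t : ℂ) * ec (-(j + n K)) t) := by
    funext t
    rw [rp_succ, show -(j - (n K : ℤ)) = (n K : ℤ) + -j by ring,
      show -(j + (n K : ℤ)) = -(n K : ℤ) + -j by ring, ec_add, ec_add]
    ring
  have hc : ∀ i : ℤ, Continuous fun t => (rp n a K t : ℂ) * ec i t := fun i =>
    (Complex.continuous_ofReal.comp (rp_cont n a K)).mul (ec_cont i)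
  rw [h, av_add (F := fun t => (rp n a K t : ℂ) * ec (-j) t + a K / 2 *
      ((rp n a K t : ℂ) * ec (-(j - n K)) t))
    (G := fun t => (starRingEnd ℂ) (a K) / 2 * ((rp n a K t : ℂ) * ec (-(j + n K)) t))
    ((hc _).add (continuous_const.mul (hc _))) (continuous_const.mul (hc _)),
    av_add (F := fun t => (rp n a K t : ℂ) * ec (-j) t)
    (G := fun t => a K / 2 * ((rp n a K t : ℂ) * ec (-(j - n K)) t)) (hc _)
    (continuous_const.mul (hc _)), av_mul, av_mul]

lemma rc_supp (K : ℕ) : ∀ j : ℤ, (SS n K : ℤ) < |j| → rc n a K j = 0 := by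
  induction K with
  | zero =>
    intro j hj
    rw [rc_zero, if_neg]
    intro h
    subst h
    simp [SS] at hj
  | succ K ih =>
    intro j hj
    have h2 : SS n (K + 1) = SS n K + n K := Finset.sum_range_succ _ _
    rw [h2] at hj
    push_cast at hj
    rw [lt_abs] at hj
    rw [rc_succ, ih j (by rw [lt_abs]; omega), ih (j - n K) (by rw [lt_abs]; omega),
      ih (j + n K) (by rw [lt_abs]; omega)]
    ring

lemma rc_big (h : Lac n) (K : ℕ) (j : ℤ) (hj : (n K : ℤ) ≤ 2 * |j|) : rc n a K j = 0 := by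
  apply rc_supp
  have := SS_lt n h K
  omega

lemma rc_stable (h : Lac n) {K N : ℕ} (hKN : K ≤ N) (j : ℤ) (hj : 2 * |j| ≤ (n K : ℤ)) :
    rc n a N j = rc n a K j := by
  induction N, hKN using Nat.le_induction with
  | base => rfl
  | succ N hN ih =>
    have h1 := n_mono n h hN
    have h2 := SS_lt n h N
    have h3 : 2 * |j| ≤ (n N : ℤ) := by
      have : (n K : ℤ) ≤ n N := by exact_mod_cast h1
      omega
    rw [rc_succ, ih]
    have h4 : rc n a N (j - n N) = 0 := by
      apply rc_supp
      rw [lt_abs]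
      have := abs_le.1 (show |j| ≤ |j| from le_rfl)
      omega
    have h5 : rc n a N (j + n N) = 0 := by
      apply rc_supp
      rw [lt_abs]
      have := abs_le.1 (show |j| ≤ |j| from le_rfl)
      omega
    rw [h4, h5]
    ring

lemma rp_hasSum (K : ℕ) (t : ℝ) : HasSum (fun j : ℤ => rc n a K j * ec j t) (rp n a K t : ℂ) := by
  induction K with
  | zero =>
    have h : (fun j : ℤ => rc n a 0 j * ec j t) = fun j : ℤ => if j = 0 then (1 : ℂ) else 0 := by
      funext j
      rw [rc_zero]
      split_ifs with h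
      · subst h; rw [ec_zero]; ring
      · ring
    rw [h]
    have : (rp n a 0 t : ℂ) = 1 := by simp [rp]
    rw [this]
    exact hasSum_ite_eq 0 1
  | succ K ih =>
    have h1 : HasSum ((fun j : ℤ => rc n a K j * ec j t) ∘ (Equiv.subRight (n K : ℤ)))
        (rp n a K t : ℂ) := (Equiv.hasSum_iff (Equiv.subRight (n K : ℤ))).2 ih
    have h2 : HasSum ((fun j : ℤ => rc n a K j * ec j t) ∘ (Equiv.addRight (n K : ℤ)))
        (rp n a K t : ℂ) := (Equiv.hasSum_iff (Equiv.addRight (n K : ℤ))).2 ih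
    have h3 := (ih.add (h1.mul_left (a K / 2 * ec (n K) t))).add
      (h2.mul_left ((starRingEnd ℂ) (a K) / 2 * ec (-(n K : ℤ)) t))
    have e1 : (rp n a (K + 1) t : ℂ) = (rp n a K t : ℂ) + a K / 2 * ec (n K) t * (rp n a K t : ℂ) +
        (starRingEnd ℂ) (a K) / 2 * ec (-(n K : ℤ)) t * (rp n a K t : ℂ) := by
      rw [rp_succ]; ring
    rw [e1]
    convert h3 using 1
    funext j
    have e2 : ec j t = ec (n K) t * ec (j - n K) t := by
      rw [← ec_add]; congr 1; ring
    have e3 : ec j t = ec (-(n K : ℤ)) t * ec (j + n K) t := by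
      rw [← ec_add]; congr 1; ring
    simp only [Function.comp_apply, Equiv.subRight_apply, Equiv.coe_addRight]
    rw [rc_succ]
    calc (rc n a K j + a K / 2 * rc n a K (j - n K) +
        (starRingEnd ℂ) (a K) / 2 * rc n a K (j + n K)) * ec j t
        = rc n a K j * ec j t + a K / 2 * rc n a K (j - n K) * ec j t +
          (starRingEnd ℂ) (a K) / 2 * rc n a K (j + n K) * ec j t := by ring
      _ = rc n a K j * ec j t + a K / 2 * rc n a K (j - n K) * (ec (n K) t * ec (j - n K) t) +
          (starRingEnd ℂ) (a K) / 2 * rc n a K (j + n K) *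
            (ec (-(n K : ℤ)) t * ec (j + n K) t) := by rw [← e2, ← e3]
      _ = _ := by ring

lemma rp_sum (K : ℕ) (t : ℝ) : (rp n a K t : ℂ) =
    ∑ j ∈ Finset.Icc (-(SS n K : ℤ)) (SS n K), rc n a K j * ec j t := by
  apply (rp_hasSum n a K t).unique
  apply hasSum_sum_of_ne_finset_zero
  intro j hj
  rw [rc_supp n a K j, zero_mul]
  rw [Finset.mem_Icc] at hj
  rw [lt_abs]
  omega

lemma conv_hasSum {M : ℕ} (hM : 0 < M) (K : ℕ) (φ : ℝ) :
    HasSum (fun j : ℤ => (wt M j : ℂ) * (rc n a K j * ec j φ))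
      ((avr (fun s => Fe M s * rp n a K (φ - s)) : ℝ) : ℂ) := by
  have h1 : ((avr (fun s => Fe M s * rp n a K (φ - s)) : ℝ) : ℂ) =
      ∑ j ∈ Finset.Icc (-(SS n K : ℤ)) (SS n K), (wt M j : ℂ) * (rc n a K j * ec j φ) := by
    rw [← av_ofReal]
    have h2 : (fun s => ((Fe M s * rp n a K (φ - s) : ℝ) : ℂ)) = fun s =>
        ∑ j ∈ Finset.Icc (-(SS n K : ℤ)) (SS n K),
          (rc n a K j * ec j φ) * ((Fe M s : ℂ) * ec (-j) s) := by
      funext s
      push_cast
      rw [rp_sum, Finset.mul_sum]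
      apply Finset.sum_congr rfl
      intro j _
      rw [ec_sub_arg]
      ring
    rw [h2, av_sum _ (fun (j : ℤ) s => (rc n a K j * ec j φ) * ((Fe M s : ℂ) * ec (-j) s))
      (fun j _ => continuous_const.mul ((Complex.continuous_ofReal.comp (Fe_cont M)).mul
        (ec_cont _)))]
    apply Finset.sum_congr rfl
    intro j _
    rw [av_mul, Fe_coeff hM]
    ring
  rw [h1]
  apply hasSum_sum_of_ne_finset_zero
  intro j hj
  rw [rc_supp n a K j, zero_mul, mul_zero]
  rw [Finset.mem_Icc] at hj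
  rw [lt_abs]
  omega

lemma rp_nonneg (ha : ∀ k, ‖a k‖ ≤ 1) (K : ℕ) (t : ℝ) : 0 ≤ rp n a K t := by
  unfold rp
  apply Finset.prod_nonneg
  intro k _
  have h1 : |(a k * ec (n k) t).re| ≤ 1 := by
    refine (Complex.abs_re_le_norm _).trans ?_
    rw [norm_mul, ec_norm, mul_one]
    exact ha k
  have := (abs_le.1 h1).1
  linarith

lemma rp_bound (h : Lac n) (ha : ∀ k, ‖a k‖ ≤ 1) (K N : ℕ) (φ : ℝ) (hKN : K ≤ N)
    (h32 : 32 ≤ n K) :
    rp n a K φ ≤ 25 * avr (fun s => Fe (n K / 8) s * rp n a N (φ - s)) := by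
  set m := n K / 8 with hm
  have hm4 : 4 ≤ m := by omega
  have hSm : SS n K ≤ 5 * m := by
    have := SS_lt n h K
    omega
  have hpos : ∀ M K s, 0 ≤ Fe M s * rp n a K (φ - s) := fun M K s =>
    mul_nonneg (Fe_nonneg M s) (rp_nonneg n a ha K _)
  have hcont : ∀ M K, Continuous fun s => Fe M s * rp n a K (φ - s) := fun M K =>
    (Fe_cont M).mul ((rp_cont n a K).comp (continuous_const.sub continuous_id))
  -- representation
  have h1 := ((conv_hasSum n a (M := 10 * m) (by omega) K φ).mul_left 2).sub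
    (conv_hasSum n a (M := 5 * m) (by omega) K φ)
  have h2 : (fun j : ℤ => 2 * ((wt (10 * m) j : ℂ) * (rc n a K j * ec j φ)) -
      (wt (5 * m) j : ℂ) * (rc n a K j * ec j φ)) = fun j : ℤ => rc n a K j * ec j φ := by
    funext j
    by_cases hj : |j| ≤ (5 * m : ℕ)
    · have hm' : (0 : ℝ) < m := by positivity
      have hj' : |(j : ℝ)| ≤ 5 * m := by exact_mod_cast hj
      have e1 : wt (10 * m) j = 1 - |(j : ℝ)| / (10 * m) := by
        unfold wt
        push_cast
        apply max_eq_right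
        rw [sub_nonneg, div_le_one (by positivity)]
        linarith
      have e2 : wt (5 * m) j = 1 - |(j : ℝ)| / (5 * m) := by
        unfold wt
        push_cast
        apply max_eq_right
        rw [sub_nonneg, div_le_one (by positivity)]
        linarith
      have e3 : 2 * wt (10 * m) j - wt (5 * m) j = 1 := by
        rw [e1, e2]
        field_simp
        ring
      have e4 : 2 * (wt (10 * m) j : ℂ) - (wt (5 * m) j : ℂ) = 1 := by exact_mod_cast e3
      calc 2 * ((wt (10 * m) j : ℂ) * (rc n a K j * ec j φ)) -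
          (wt (5 * m) j : ℂ) * (rc n a K j * ec j φ)
          = (2 * (wt (10 * m) j : ℂ) - (wt (5 * m) j : ℂ)) * (rc n a K j * ec j φ) := by ring
        _ = _ := by rw [e4, one_mul]
    · rw [rc_supp n a K j (by push Not at hj; omega)]
      ring
  rw [h2] at h1
  have h3 := h1.unique (rp_hasSum n a K φ)
  have h4 : rp n a K φ = 2 * avr (fun s => Fe (10 * m) s * rp n a K (φ - s)) -
      avr (fun s => Fe (5 * m) s * rp n a K (φ - s)) := by exact_mod_cast h3.symm
  have h5 : 0 ≤ avr (fun s => Fe (5 * m) s * rp n a K (φ - s)) := by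
    unfold avr
    apply mul_nonneg (by positivity)
    exact intervalIntegral.integral_nonneg (by positivity) fun s _ => hpos _ _ s
  have h6 : avr (fun s => Fe (10 * m) s * rp n a K (φ - s)) ≤
      10 * avr (fun s => Fe m s * rp n a K (φ - s)) := by
    rw [← avr_mul]
    apply avr_mono (hcont _ _) (continuous_const.mul (hcont _ _))
    intro s
    have := Fe_mul_le 10 m (by norm_num) (by omega) s
    have h7 := rp_nonneg n a ha K (φ - s)
    push_cast at this
    show Fe (10 * m) s * rp n a K (φ - s) ≤ 10 * (Fe m s * rp n a K (φ - s))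
    nlinarith
  have h8 : avr (fun s => Fe m s * rp n a K (φ - s)) = avr (fun s => Fe m s * rp n a N (φ - s)) := by
    have g1 := conv_hasSum n a (M := m) (by omega) K φ
    have g2 := conv_hasSum n a (M := m) (by omega) N φ
    have g3 : (fun j : ℤ => (wt m j : ℂ) * (rc n a N j * ec j φ)) =
        fun j : ℤ => (wt m j : ℂ) * (rc n a K j * ec j φ) := by
      funext j
      by_cases hj : (m : ℤ) ≤ |j|
      · rw [wt_zero (by omega) hj]
        simp
      · rw [rc_stable n a h hKN j (by push Not at hj; omega)]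
    rw [g3] at g2
    exact_mod_cast g1.unique g2
  have h9 : 0 ≤ avr (fun s => Fe m s * rp n a N (φ - s)) := by
    unfold avr
    apply mul_nonneg (by positivity)
    exact intervalIntegral.integral_nonneg (by positivity) fun s _ => hpos _ _ s
  rw [h8] at h6
  linarith

end riesz

lemma Fe_hasSum {M : ℕ} (hM : 0 < M) (t : ℝ) :
    HasSum (fun d : ℤ => (wt M d : ℂ) * ec d t) (Fe M t : ℂ) := by
  rw [Fe_sum hM]
  apply hasSum_sum_of_ne_finset_zero
  intro d hd
  rw [wt_zero hM, Complex.ofReal_zero, zero_mul]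
  rw [Finset.mem_Icc] at hd
  by_contra hlt
  push Not at hlt
  rw [abs_lt] at hlt
  omega

end RR

open RR

theorem stmR : StmR := by
  intro n a h ha
  refine ⟨rp_nonneg n a ha, ?_, ?_, ?_, ?_, ?_⟩
  · intro K
    have h1 : rc n a K 0 = 1 := by
      rw [rc_stable n a h (Nat.zero_le K) 0 (by simp), rc_zero, if_pos rfl]
    unfold rc at h1
    have h2 : (fun t => (rp n a K t : ℂ) * ec (-0) t) = fun t => (rp n a K t : ℂ) := by
      funext t
      rw [neg_zero, ec_zero, mul_one]
    rw [h2, av_ofReal] at h1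
    exact_mod_cast h1
  · intro K j hj
    exact rc_big n a h K j hj
  · intro K N j hKN hj
    exact rc_stable n a h hKN j hj
  · intro N j
    induction N with
    | zero =>
      rw [rc_zero, Finset.range_zero, Finset.sum_empty, add_zero]
      simp
    | succ N ih =>
      rw [rc_succ, ih, Finset.sum_range_succ]
      have : rc n a N ((j : ℤ) + n N) = 0 := by
        apply rc_supp
        have := SS_lt n h N
        rw [lt_abs]
        omega
      rw [this]
      ring
  · intro K N φ hKN h32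
    exact rp_bound n a h ha K N φ hKN h32

theorem stmV : StmV := by
  intro N hN
  set m := N / 8 with hm
  have hm4 : 4 ≤ m := by omega
  have hm' : (0 : ℝ) < m := by positivity
  have hN1 : 8 * m ≤ N := by omega
  have hN2 : N ≤ 8 * m + 7 := by omega
  have hN1' : 8 * (m : ℝ) ≤ N := by exact_mod_cast hN1
  have hN2' : (N : ℝ) ≤ 8 * m + 7 := by exact_mod_cast hN2
  let u : ℤ → ℝ := fun d => max 0 (min 1 (6 - |(d : ℝ)| / m))
  have hu : ∀ d : ℤ, 6 * wt (6 * m) d - 5 * wt (5 * m) d = u d := by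
    intro d
    simp only [u, wt]
    push_cast
    set x := |(d : ℝ)| / m with hx
    have hx0 : 0 ≤ x := by positivity
    have e1 : |(d : ℝ)| / (6 * m) = x / 6 := by rw [hx]; field_simp
    have e2 : |(d : ℝ)| / (5 * m) = x / 5 := by rw [hx]; field_simp
    rw [e1, e2]
    rcases le_total x 5 with h5 | h5
    · rw [max_eq_right (by linarith : (0 : ℝ) ≤ 1 - x / 6),
        max_eq_right (by linarith : (0 : ℝ) ≤ 1 - x / 5),
        min_eq_left (by linarith : (1 : ℝ) ≤ 6 - x), max_eq_right (by norm_num : (0 : ℝ) ≤ 1)]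
      ring
    · rw [max_eq_left (by linarith : 1 - x / 5 ≤ (0 : ℝ)),
        min_eq_right (by linarith : 6 - x ≤ (1 : ℝ))]
      rcases le_total x 6 with h6 | h6
      · rw [max_eq_right (by linarith : (0 : ℝ) ≤ 1 - x / 6),
          max_eq_right (by linarith : (0 : ℝ) ≤ 6 - x)]
        ring
      · rw [max_eq_left (by linarith : 1 - x / 6 ≤ (0 : ℝ)),
          max_eq_left (by linarith : 6 - x ≤ (0 : ℝ))]
        ring
  have hu_supp : ∀ d : ℤ, 6 * (m : ℤ) ≤ |d| → u d = 0 := by
    intro d hd
    have hd' : 6 * (m : ℝ) ≤ |(d : ℝ)| := by exact_mod_cast hd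
    simp only [u]
    have : 6 ≤ |(d : ℝ)| / m := by rw [le_div_iff₀ hm']; exact hd'
    apply max_eq_left
    exact (min_le_right _ _).trans (by linarith)
  refine ⟨fun j => u ((j : ℤ) - N), ?_, ?_, ?_, ?_⟩
  · intro j
    rw [abs_le]
    constructor
    · exact le_trans (by norm_num) (le_max_left _ _)
    · exact max_le (by norm_num) (min_le_left _ _)
  · intro j hj
    have : |(j : ℤ) - N| < 6 * m := by
      by_contra hge
      push Not at hge
      exact hj (hu_supp _ hge)
    rw [abs_lt] at this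
    omega
  · intro j hj
    have h1 : |(j : ℤ) - N| ≤ 5 * m := by omega
    have h2 : |(((j : ℤ) - N : ℤ) : ℝ)| ≤ 5 * m := by exact_mod_cast h1
    show max 0 (min 1 (6 - |(((j : ℤ) - N : ℤ) : ℝ)| / m)) = 1
    have h3 : |(((j : ℤ) - N : ℤ) : ℝ)| / m ≤ 5 := by rw [div_le_iff₀ hm']; exact h2
    rw [min_eq_left (by linarith), max_eq_right (by norm_num)]
  · intro t
    have h1 : HasSum (fun d : ℤ => (u d : ℂ) * ec d t)
        (((6 * Fe (6 * m) t - 5 * Fe (5 * m) t : ℝ)) : ℂ) := by
      have h2 := ((Fe_hasSum (M := 6 * m) (by omega) t).mul_left 6).sub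
        ((Fe_hasSum (M := 5 * m) (by omega) t).mul_left 5)
      have e : (fun d : ℤ => (u d : ℂ) * ec d t) = fun d : ℤ =>
          6 * ((wt (6 * m) d : ℂ) * ec d t) - 5 * ((wt (5 * m) d : ℂ) * ec d t) := by
        funext d
        rw [← hu d]
        push_cast
        ring
      rw [e]
      push_cast
      exact h2
    have h3 : HasSum ((fun d : ℤ => (u d : ℂ) * ec d t) ∘ (Equiv.subRight (N : ℤ)))
        (((6 * Fe (6 * m) t - 5 * Fe (5 * m) t : ℝ)) : ℂ) :=
      (Equiv.hasSum_iff (Equiv.subRight (N : ℤ))).2 h1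
    have h4 := h3.mul_left (ec N t)
    have h5 : HasSum (fun j : ℤ => (u (j - N) : ℂ) * ec j t)
        (ec N t * (((6 * Fe (6 * m) t - 5 * Fe (5 * m) t : ℝ)) : ℂ)) := by
      have e : (fun j : ℤ => (u (j - N) : ℂ) * ec j t) = fun j : ℤ =>
          ec N t * ((fun d : ℤ => (u d : ℂ) * ec d t) ∘ (Equiv.subRight (N : ℤ))) j := by
        funext j
        simp only [Function.comp_apply, Equiv.subRight_apply]
        have : ec j t = ec N t * ec (j - N) t := by
          rw [← ec_add]; congr 1; ring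
        rw [this]
        ring
      rw [e]
      exact h4
    have h6 : HasSum (fun j : ℤ => (u (j - N) : ℂ) * ec j t)
        (∑ j ∈ (Finset.range (16 * m)).map Nat.castEmbedding,
          (u (j - N) : ℂ) * ec j t) := by
      apply hasSum_sum_of_ne_finset_zero
      intro j hj
      have : u (j - N) = 0 := by
        apply hu_supp
        by_contra hlt
        push Not at hlt
        rw [abs_lt] at hlt
        apply hj
        rw [Finset.mem_map]
        refine ⟨j.toNat, ?_, ?_⟩
        · rw [Finset.mem_range]; omega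
        · simp; omega
      rw [this]
      simp
    have h7 := h6.unique h5
    rw [Finset.sum_map] at h7
    simp only [Nat.castEmbedding_apply] at h7
    rw [h7, norm_mul, ec_norm, one_mul, Complex.norm_real, Real.norm_eq_abs]
    have f1 := Fe_mul_le 6 m (by norm_num) (by omega) t
    have f2 := Fe_mul_le 5 m (by norm_num) (by omega) t
    have f3 := Fe_nonneg (6 * m) t
    have f4 := Fe_nonneg (5 * m) t
    have f5 := Fe_nonneg m t
    push_cast at f1 f2
    rw [abs_le]
    constructor <;> linarith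

end Pool.Agent.R244.RP
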