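import Pool.Agent.R244.RP.Defs

/-!
# Project RP (MP_1d9d5b_an): statements of the pieces (proofs in NOTES.md)
-/

set_option autoImplicit false

open MeasureTheory Polynomial Filter Topology
open scoped BigOperators Real

namespace Pool.Agent.R244.RP

/-- `D P = z P'` -/
noncomputable def D (P : ℂ[X]) : ℂ[X] := X * derivative P

/-- the antiderivative: `D (In P) = P` if `P 0 = 0` (the coefficient of order 0 is 0) -/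
noncomputable def In (P : ℂ[X]) : ℂ[X] := mult (fun n => (n : ℂ)⁻¹) P

/-- the analytic paraproduct, `D (para g h) = g * D h` -/
noncomputable def para (g h : ℂ[X]) : ℂ[X] := In (g * D h)

/-- the symbol of the shifted kernel number `K` -/
noncomputable def sym (v : ℕ → ℕ → ℝ) (K : ℕ) (s : ℝ) (j : ℕ) : ℂ := (v K j : ℂ) * ec (-(j : ℤ)) s

/-- kernels with symbols `v K` living at the scales `m K` -/
structure Ker (m : ℕ → ℕ) (v : ℕ → ℕ → ℝ) : Prop where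
  lac : Lac m
  le : ∀ K j, |v K j| ≤ 1
  supp : ∀ K j, v K j ≠ 0 → 2 * m K < j ∧ j < 16 * m K
  ker : ∀ K t, ‖∑ j ∈ Finset.range (16 * m K), (v K j : ℂ) * ec (j : ℤ) t‖ ≤ 61 * Fe (m K) t

/-- RP-A: functional analysis on `H¹`. -/
def StmA : Prop := ∀ (c : ℕ → ℂ) (T : H1 →L[ℂ] H1),
  (∀ (f : H1) (n : ℕ),
    fourierCoeff (T := 2 * π) (((T f : H1) : Lp ℂ 1 (AddCircle.haarAddCircle (T := 2 * π))) :
      AddCircle (2 * π) → ℂ) (n : ℤ) =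
    c n * fourierCoeff (T := 2 * π) ((f : Lp ℂ 1 (AddCircle.haarAddCircle (T := 2 * π))) :
      AddCircle (2 * π) → ℂ) (n : ℤ)) →
  Tendsto c atTop (𝓝 0) →
  (∀ ε : ℝ, 0 < ε → ∃ S : ℕ, ∀ P : ℂ[X],
    avr (fun t => ‖ev (mult (fun j => if j < S then 0 else c j) P) 0 t‖) ≤
      ε * avr (fun t => ‖ev P 0 t‖)) →
  spectrum ℂ T = closure (Set.range c)

/-- RP-F: factorization of analytic polynomials in `H¹` (approximate, by polynomials). -/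
def StmF : Prop := ∀ (f : ℂ[X]) (δ : ℝ), 0 < δ → ∃ g h : ℂ[X],
  nsq g ≤ avr (fun t => ‖ev f 0 t‖) + δ ∧ nsq h ≤ avr (fun t => ‖ev f 0 t‖) + δ ∧
  ∀ t, ‖ev (g * h) 0 t - ev f 0 t‖ ≤ δ

/-- RP-D: duality. -/
def StmD : Prop := ∀ (Q : ℂ[X]) (B : ℝ), (∀ w : ℂ[X], Bdd w → ‖pr Q w‖ ≤ B) →
  avr (fun t => ‖ev Q 0 t‖) ≤ 2 * B

/-- RP-R: facts on partial Riesz products. -/
def StmR : Prop := ∀ (n : ℕ → ℕ) (a : ℕ → ℂ), Lac n → (∀ k, ‖a k‖ ≤ 1) →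
  (∀ K t, 0 ≤ rp n a K t) ∧
  (∀ K, avr (rp n a K) = 1) ∧
  (∀ K (j : ℤ), (n K : ℤ) ≤ 2 * |j| → rc n a K j = 0) ∧
  (∀ K N (j : ℤ), K ≤ N → 2 * |j| ≤ (n K : ℤ) → rc n a N j = rc n a K j) ∧
  (∀ N (j : ℕ), rc n a N j = (if j = 0 then 1 else 0) +
    ∑ K ∈ Finset.range N, a K / 2 * rc n a K ((j : ℤ) - n K)) ∧
  (∀ K N (φ : ℝ), K ≤ N → 32 ≤ n K →
    rp n a K φ ≤ 25 * avr (fun s => Fe (n K / 8) s * rp n a N (φ - s)))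

/-- RP-V: the kernels (elementary facts on Fejér kernels). -/
def StmV : Prop := ∀ (N : ℕ), 32 ≤ N → ∃ v : ℕ → ℝ,
  (∀ j, |v j| ≤ 1) ∧ (∀ j, v j ≠ 0 → 2 * (N / 8) < j ∧ j < 16 * (N / 8)) ∧
  (∀ j : ℕ, 2 * |(j : ℤ) - N| ≤ (N : ℤ) → v j = 1) ∧
  ∀ t, ‖∑ j ∈ Finset.range (16 * (N / 8)), (v j : ℂ) * ec (j : ℤ) t‖ ≤ 61 * Fe (N / 8) t

/-- RP-U: the Carleson estimate. -/
def StmU : Prop := ∀ g w : ℂ[X], Bdd w →
  ∫ x in Set.Ioi (0 : ℝ), x * avr (fun t => ‖ev g x t * ev (D w) x t‖ ^ 2) ≤ 4 * nsq g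

/-- RP-M: the main term. -/
def StmM : Prop := ∃ C : ℝ, 0 ≤ C ∧ ∀ (m : ℕ → ℕ) (v : ℕ → ℕ → ℝ), Ker m v →
  ∀ (N : ℕ) (g h w : ℂ[X]), Bdd w → ∀ s : ℕ → ℝ,
    ∑ K ∈ Finset.range N, ‖pr (para g (mult (sym v K (s K)) h)) w‖ ≤ C * (√(nsq g) * √(nsq h))

/-- RP-E: the commutators. -/
def StmE : Prop := ∃ C : ℝ, 0 ≤ C ∧ ∀ (m : ℕ → ℕ) (v : ℕ → ℕ → ℝ), Ker m v →
  ∀ (N : ℕ) (g h : ℂ[X]),
    ∑ K ∈ Finset.range N, avr (fun s => Fe (m K) s * avr (fun t =>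
      ‖ev (mult (sym v K s) (para g h) - para g (mult (sym v K s) h)) 0 t‖)) ≤
      C * (√(nsq g) * √(nsq h))

/-- RP-L: the lacunary sums. -/
def StmL : Prop := ∀ (m : ℕ → ℕ), Lac m → ∀ (N : ℕ) (t : ℝ), 0 < t →
  ∑ K ∈ Finset.range N, min (√(m K * t)) (√(m K * t))⁻¹ ≤ 5

end Pool.Agent.R244.RP
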