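import Pool.Agent.R244.RP.Defs2

/-!
# Project RP: the definitions used by the final statement
-/

set_option autoImplicit false

open MeasureTheory Filter Topology
open scoped BigOperators Real

namespace Pool.Agent.R244.RP

/-- The Banach space `L¹(𝕋)`, `𝕋 = ℝ / 2πℤ` with its normalized Haar measure. -/
def L1T : Type := Lp ℂ 1 (AddCircle.haarAddCircle (T := 2 * π))

noncomputable instance instL1T : NormedAddCommGroup L1T :=
  Lp.instNormedAddCommGroup (E := ℂ) (p := 1) (μ := AddCircle.haarAddCircle (T := 2 * π))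

noncomputable instance instL1TSpace : NormedSpace ℂ L1T :=
  Lp.instNormedSpace (𝕜 := ℂ) (E := ℂ) (p := 1) (μ := AddCircle.haarAddCircle (T := 2 * π))

/-- an element of `L¹(𝕋)` as a function on the circle -/
noncomputable def fn (f : L1T) : AddCircle (2 * π) → ℂ :=
  ((show Lp ℂ 1 (AddCircle.haarAddCircle (T := 2 * π)) from f : _) : AddCircle (2 * π) → ℂ)

/-- the Fourier coefficients `f̂(n) = ∫ f(t) exp(-int) dt / 2π` -/
noncomputable def co (f : L1T) (n : ℤ) : ℂ := fourierCoeff (fn f) n

lemma integrable_co (f : L1T) (n : ℤ) :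
    Integrable (fun t => (fourier (-n) : C(AddCircle (2 * π), ℂ)) t • fn f t)
      (AddCircle.haarAddCircle (T := 2 * π)) :=
  (L1.integrable_coeFn (show Lp ℂ 1 (AddCircle.haarAddCircle (T := 2 * π)) from f)).bdd_mul
    (c := 1) (fourier (-n)).continuous.aestronglyMeasurable (Eventually.of_forall fun t => by simp)

lemma co_zero (n : ℤ) : co 0 n = 0 := by
  unfold co fourierCoeff
  rw [integral_congr_ae (g := fun _ => (0 : ℂ))]
  · simp
  · filter_upwards [Lp.coeFn_zero ℂ 1 (AddCircle.haarAddCircle (T := 2 * π))] with x hx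
    have : fn 0 x = 0 := hx
    rw [this]; simp

lemma co_add (f g : L1T) (n : ℤ) : co (f + g) n = co f n + co g n := by
  unfold co fourierCoeff
  rw [← integral_add (integrable_co f n) (integrable_co g n)]
  apply integral_congr_ae
  filter_upwards [Lp.coeFn_add (show Lp ℂ 1 (AddCircle.haarAddCircle (T := 2 * π)) from f)
    (show Lp ℂ 1 (AddCircle.haarAddCircle (T := 2 * π)) from g)] with x hx
  have : fn (f + g) x = fn f x + fn g x := hx
  rw [this, smul_add]

lemma co_smul (c : ℂ) (f : L1T) (n : ℤ) : co (c • f) n = c * co f n := by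
  unfold co fourierCoeff
  rw [← integral_const_mul]
  apply integral_congr_ae
  filter_upwards [Lp.coeFn_smul c (show Lp ℂ 1 (AddCircle.haarAddCircle (T := 2 * π)) from f)]
    with x hx
  have : fn (c • f) x = c * fn f x := hx
  rw [this]; simp [mul_left_comm]

/-- the Hardy space `H¹(𝕋)`, as a subspace of `L¹(𝕋)` -/
noncomputable def HardySub : Submodule ℂ L1T where
  carrier := {f | ∀ n : ℤ, n < 0 → co f n = 0}
  zero_mem' := fun n _ => co_zero n
  add_mem' := fun {f g} hf hg n hn => by rw [co_add, hf n hn, hg n hn, add_zero]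
  smul_mem' := fun c f hf n hn => by rw [co_smul, hf n hn, mul_zero]

/-- the Hardy space `H¹(𝕋)` with the norm of `L¹(𝕋)` -/
def Hardy : Type := HardySub

noncomputable instance instHardy : NormedAddCommGroup Hardy :=
  Submodule.normedAddCommGroup HardySub

noncomputable instance instHardySpace : NormedSpace ℂ Hardy :=
  Submodule.normedSpace HardySub

/-- an element of `H¹(𝕋)` as an element of `L¹(𝕋)` -/
noncomputable def Hardy.toL1 (f : Hardy) : L1T := HardySub.subtype f

/-- `T` is the multiplier `f ↦ μ * f` on `H¹(𝕋)`: it multiplies the Fourier coefficient of order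
`n` by `μ̂(n)` -/
def IsMultiplier (μ : Measure (AddCircle (2 * π))) (T : Hardy →L[ℂ] Hardy) : Prop :=
  ∀ (f : Hardy) (n : ℕ), co (T f).toL1 n = fc μ n * co f.toL1 n

example : Hardy = H1 := rfl

end Pool.Agent.R244.RP
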