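import Pool.Agent.R244.RP.Bas

/-!
# Project RP: the Carleson estimate (`StmU`) and the Littlewood-Paley identity
-/

set_option autoImplicit false

open MeasureTheory Polynomial Filter Topology Set
open scoped BigOperators Real ComplexConjugate

namespace Pool.Agent.R244.RP

/-! ### Integrals over `(0, ∞)` -/

lemma integrableOn_x_exp {c : ℝ} (hc : 0 < c) :
    IntegrableOn (fun x : ℝ => x * Real.exp (-(c * x))) (Ioi 0) := by
  have h := integrableOn_rpow_mul_exp_neg_mul_rpow (p := 1) (s := 1) (b := c) (by norm_num)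
    (by norm_num) hc
  refine h.congr_fun (fun x _ => ?_) measurableSet_Ioi
  simp

lemma integral_x_exp {c : ℝ} (hc : 0 < c) :
    ∫ x in Ioi (0 : ℝ), x * Real.exp (-(c * x)) = 1 / c ^ 2 := by
  have h := Real.integral_rpow_mul_exp_neg_mul_Ioi (a := 2) (r := c) (by norm_num) hc
  have e : ∫ x in Ioi (0 : ℝ), x * Real.exp (-(c * x)) =
      ∫ x in Ioi (0 : ℝ), x ^ ((2 : ℝ) - 1) * Real.exp (-(c * x)) := by
    apply setIntegral_congr_fun measurableSet_Ioi
    intro x _
    norm_num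
  rw [e, h]
  have : Real.Gamma 2 = 1 := Real.Gamma_two
  rw [this, mul_one]
  norm_num [Real.rpow_natCast]

/-- the Littlewood-Paley integrand -/
noncomputable def lp (A B : ℂ[X]) (x : ℝ) : ℂ := av (fun t => ev (D A) x t * conj (ev (D B) x t))

lemma lp_eq (A B : ℂ[X]) (x : ℝ) (s : Finset ℕ) (hA : A.support ⊆ s) :
    lp A B x = ∑ n ∈ s, ((n : ℂ) ^ 2 * (A.coeff n * conj (B.coeff n))) *
      (Real.exp (-(2 * n * x)) : ℂ) := by
  unfold lp
  have hDA : (D A).support ⊆ s := by
    intro n hn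
    apply hA
    rw [Polynomial.mem_support_iff, coeff_D] at hn
    rw [Polynomial.mem_support_iff]
    exact fun h => hn (by rw [h, mul_zero])
  rw [av_ev_mul_conj _ _ _ s hDA]
  apply Finset.sum_congr rfl
  intro n _
  rw [coeff_D, coeff_D, map_mul, Complex.conj_natCast]; ring

lemma integrable_lp (A B : ℂ[X]) : IntegrableOn (fun x : ℝ => (x : ℂ) * lp A B x) (Ioi 0) := by
  have e : (fun x : ℝ => (x : ℂ) * lp A B x) = fun x : ℝ => ∑ n ∈ A.support,
      ((n : ℂ) ^ 2 * (A.coeff n * conj (B.coeff n))) * ((x * Real.exp (-(2 * n * x)) : ℝ) : ℂ) := by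
    funext x
    rw [lp_eq A B x A.support subset_rfl, Finset.mul_sum]
    apply Finset.sum_congr rfl; intro n _; push_cast; ring
  rw [e]
  apply integrable_finsetSum
  intro n _
  rcases Nat.eq_zero_or_pos n with h0 | h0
  · subst h0; simp
  · apply Integrable.const_mul
    exact (integrableOn_x_exp (c := 2 * n) (by positivity)).ofReal

lemma integral_lp (A B : ℂ[X]) (s : Finset ℕ) (hA : A.support ⊆ s) :
    ∫ x in Ioi (0 : ℝ), (x : ℂ) * lp A B x =
      (4 : ℂ)⁻¹ * ∑ n ∈ s, (if n = 0 then 0 else A.coeff n * conj (B.coeff n)) := by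
  have e : (fun x : ℝ => (x : ℂ) * lp A B x) = fun x : ℝ => ∑ n ∈ s,
      ((n : ℂ) ^ 2 * (A.coeff n * conj (B.coeff n))) * ((x * Real.exp (-(2 * n * x)) : ℝ) : ℂ) := by
    funext x
    rw [lp_eq A B x s hA, Finset.mul_sum]
    apply Finset.sum_congr rfl; intro n _; push_cast; ring
  rw [e, integral_finsetSum, Finset.mul_sum]
  · apply Finset.sum_congr rfl
    intro n _
    rcases Nat.eq_zero_or_pos n with h0 | h0
    · subst h0; simp
    · rw [if_neg h0.ne', integral_const_mul, integral_complex_ofReal,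
        integral_x_exp (c := 2 * n) (by positivity)]
      have : (n : ℂ) ≠ 0 := by exact_mod_cast h0.ne'
      push_cast
      field_simp
      norm_num
  · intro n _
    rcases Nat.eq_zero_or_pos n with h0 | h0
    · subst h0; simp
    · apply Integrable.const_mul
      exact (integrableOn_x_exp (c := 2 * n) (by positivity)).ofReal

/-- integrability of `x ‖P_x‖₂²` for polynomials with `P 0 = 0` -/
lemma integrable_nx (P : ℂ[X]) (h : P.coeff 0 = 0) :
    IntegrableOn (fun x : ℝ => x * nx P x) (Ioi 0) := by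
  have e : (fun x : ℝ => x * nx P x) = fun x : ℝ => ∑ n ∈ P.support,
      ‖P.coeff n‖ ^ 2 * (x * Real.exp (-(2 * n * x))) := by
    funext x
    unfold nx
    rw [Finset.mul_sum]
    apply Finset.sum_congr rfl; intro n _; ring
  rw [e]
  apply integrable_finsetSum
  intro n hn
  rcases Nat.eq_zero_or_pos n with h0 | h0
  · subst h0; rw [Polynomial.mem_support_iff] at hn; exact absurd h hn
  · exact (integrableOn_x_exp (c := 2 * n) (by positivity)).const_mul _

lemma integral_nx_D (P : ℂ[X]) : ∫ x in Ioi (0 : ℝ), x * nx (D P) x ≤ nsq P / 4 := by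
  have h1 := integral_lp P P P.support subset_rfl
  have e : ∀ x : ℝ, (x : ℂ) * lp P P x = ((x * nx (D P) x : ℝ) : ℂ) := by
    intro x
    unfold lp
    have : (fun t => ev (D P) x t * conj (ev (D P) x t)) =
        fun t => ((‖ev (D P) x t‖ ^ 2 : ℝ) : ℂ) := by
      funext t; rw [Complex.mul_conj, Complex.normSq_eq_norm_sq]
    rw [this, av_ofReal, avr_norm_sq]; push_cast; ring
  simp_rw [e] at h1
  rw [integral_complex_ofReal] at h1
  have h2 : (4 : ℂ)⁻¹ * ∑ n ∈ P.support, (if n = 0 then 0 else P.coeff n * conj (P.coeff n)) =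
      (((4 : ℝ)⁻¹ * ∑ n ∈ P.support, (if n = 0 then 0 else ‖P.coeff n‖ ^ 2) : ℝ) : ℂ) := by
    push_cast
    congr 1
    apply Finset.sum_congr rfl
    intro n _
    split_ifs
    · simp
    · rw [Complex.mul_conj, Complex.normSq_eq_norm_sq]
  rw [h2] at h1
  have h3 : ∫ x in Ioi (0 : ℝ), x * nx (D P) x =
      (4 : ℝ)⁻¹ * ∑ n ∈ P.support, (if n = 0 then 0 else ‖P.coeff n‖ ^ 2) := by exact_mod_cast h1
  rw [h3, nsq, div_eq_inv_mul]
  apply mul_le_mul_of_nonneg_left _ (by norm_num)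
  apply Finset.sum_le_sum
  intro n _
  split_ifs
  · positivity
  · exact le_rfl

/-- the pointwise inequality -/
lemma point_ineq (g w a b : ℂ) (hU : |w.re| ≤ 1) :
    4⁻¹ * ‖g * a‖ ^ 2 - 3 * ‖b‖ ^ 2 ≤
      2⁻¹ * ‖g * a + w * b‖ ^ 2 + 2⁻¹ * ((2 * w * (g * a) + w ^ 2 * b) * conj b).re := by
  set c := g * a with hc
  have h1 : 2⁻¹ * ‖c + w * b‖ ^ 2 + 2⁻¹ * ((2 * w * c + w ^ 2 * b) * conj b).re =
      2⁻¹ * ‖c‖ ^ 2 + 2 * w.re * (c * conj b).re + w.re ^ 2 * ‖b‖ ^ 2 := by
    rw [← Complex.normSq_eq_norm_sq, ← Complex.normSq_eq_norm_sq, ← Complex.normSq_eq_norm_sq,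
      Complex.normSq_apply, Complex.normSq_apply, Complex.normSq_apply]
    simp only [Complex.add_re, Complex.add_im, Complex.mul_re, Complex.mul_im, Complex.conj_re,
      Complex.conj_im, pow_two, Complex.re_ofNat, Complex.im_ofNat]
    ring
  rw [h1]
  have h2 : |(c * conj b).re| ≤ ‖c‖ * ‖b‖ := by
    calc |(c * conj b).re| ≤ ‖c * conj b‖ := Complex.abs_re_le_norm _
      _ = ‖c‖ * ‖b‖ := by rw [norm_mul, Complex.norm_conj]
  have h3 : -(‖c‖ * ‖b‖) ≤ w.re * (c * conj b).re := by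
    have : |w.re * (c * conj b).re| ≤ 1 * (‖c‖ * ‖b‖) := by
      rw [abs_mul]
      exact mul_le_mul hU h2 (abs_nonneg _) zero_le_one
    rw [one_mul] at this
    exact (abs_le.mp this).1
  have h4 : 0 ≤ w.re ^ 2 * ‖b‖ ^ 2 := by positivity
  -- need a finer inequality: use |U| in the cross term
  have h5 : -(|w.re| * (‖c‖ * ‖b‖)) ≤ w.re * (c * conj b).re := by
    have : |w.re * (c * conj b).re| ≤ |w.re| * (‖c‖ * ‖b‖) := by
      rw [abs_mul]
      exact mul_le_mul_of_nonneg_left h2 (abs_nonneg _)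
    exact (abs_le.mp this).1
  have h6 : w.re ^ 2 = |w.re| ^ 2 := (sq_abs _).symm
  rw [h6]
  have hu0 := abs_nonneg w.re
  have hu2 : |w.re| ^ 2 ≤ 1 := by nlinarith
  nlinarith [sq_nonneg (‖c‖ / 2 - 2 * |w.re| * ‖b‖), norm_nonneg c, norm_nonneg b,
    mul_nonneg (sub_nonneg.mpr hu2) (sq_nonneg ‖b‖)]

lemma avr_sq_mul_le (g w : ℂ[X]) (hw : Bdd w) (x : ℝ) (hx : 0 ≤ x) :
    4⁻¹ * nx (g * D w) x - 3 * nx (D g) x ≤
      2⁻¹ * (lp (g * w) (g * w) x).re + 2⁻¹ * (lp (g * w ^ 2) g x).re := by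
  have e1 : (lp (g * w) (g * w) x).re = avr (fun t => ‖ev (D (g * w)) x t‖ ^ 2) := by
    unfold lp
    have : (fun t => ev (D (g * w)) x t * conj (ev (D (g * w)) x t)) =
        fun t => ((‖ev (D (g * w)) x t‖ ^ 2 : ℝ) : ℂ) := by
      funext t; rw [Complex.mul_conj, Complex.normSq_eq_norm_sq]
    rw [this, av_ofReal, Complex.ofReal_re]
  have e2 : (lp (g * w ^ 2) g x).re =
      avr (fun t => (ev (D (g * w ^ 2)) x t * conj (ev (D g) x t)).re) := by
    unfold lp
    rw [re_av (by fun_prop)]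
  rw [e1, e2, ← avr_norm_sq, ← avr_norm_sq, ← avr_const_mul, ← avr_const_mul, ← avr_const_mul,
    ← avr_const_mul, ← avr_sub (by fun_prop) (by fun_prop), ← avr_add (by fun_prop) (by fun_prop)]
  apply avr_mono (by fun_prop) (by fun_prop)
  intro t
  have hU : |(ev w x t).re| ≤ 1 := by
    apply hw
    rw [Complex.norm_exp]
    simp only [Complex.add_re, Complex.neg_re, Complex.ofReal_re, Complex.mul_re, Complex.I_re,
      mul_zero, Complex.ofReal_im, Complex.I_im, mul_one, sub_self, add_zero]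
    exact Real.exp_le_one_iff.mpr (by linarith)
  have h := point_ineq (ev g x t) (ev w x t) (ev (D w) x t) (ev (D g) x t) hU
  have e3 : ev (D (g * w)) x t = ev g x t * ev (D w) x t + ev w x t * ev (D g) x t := by
    rw [D_mul, ev_add, ev_mul, ev_mul]; ring
  have e4 : ev (D (g * w ^ 2)) x t =
      2 * ev w x t * (ev g x t * ev (D w) x t) + ev w x t ^ 2 * ev (D g) x t := by
    have : D (g * w ^ 2) = D g * w ^ 2 + g * (D w * w + w * D w) := by
      rw [D_mul, pow_two, D_mul]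
    rw [this, ev_add, ev_mul, ev_mul, ev_add, ev_mul, ev_mul, pow_two, ev_mul]; ring
  rw [ev_mul, e3, e4]
  exact h

theorem stmU : StmU := by
  intro g w hw
  have hg : (D g).coeff 0 = 0 := coeff_zero_D g
  have hgw : (g * D w).coeff 0 = 0 := by rw [Polynomial.mul_coeff_zero, coeff_zero_D, mul_zero]
  have e0 : ∀ x t, ‖ev g x t * ev (D w) x t‖ ^ 2 = ‖ev (g * D w) x t‖ ^ 2 := by
    intro x t; rw [ev_mul]
  simp_rw [e0, avr_norm_sq]
  -- integrate the pointwise inequality
  set s := (g * w).support ∪ (g * w ^ 2).support ∪ g.support with hs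
  have hs1 : (g * w).support ⊆ s := by rw [hs]; exact fun n hn => by simp_all
  have hs2 : (g * w ^ 2).support ⊆ s := by rw [hs]; exact fun n hn => by simp_all
  have hs3 : g.support ⊆ s := by rw [hs]; exact fun n hn => by simp_all
  have i1 := integrable_nx (g * D w) hgw
  have i2 := integrable_nx (D g) hg
  have i3 := integrable_lp (g * w) (g * w)
  have i4 := integrable_lp (g * w ^ 2) g
  have i3' : IntegrableOn (fun x : ℝ => x * (lp (g * w) (g * w) x).re) (Ioi 0) := by
    refine i3.re.congr (Eventually.of_forall fun x => ?_)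
    simp
  have i4' : IntegrableOn (fun x : ℝ => x * (lp (g * w ^ 2) g x).re) (Ioi 0) := by
    refine i4.re.congr (Eventually.of_forall fun x => ?_)
    simp
  have I3 : ∫ x in Ioi (0 : ℝ), x * (lp (g * w) (g * w) x).re =
      ((4 : ℂ)⁻¹ * ∑ n ∈ s, (if n = 0 then 0 else (g * w).coeff n * conj ((g * w).coeff n))).re := by
    rw [← integral_lp (g * w) (g * w) s hs1]
    have h := integral_re (𝕜 := ℂ) i3
    simp only [RCLike.re_eq_complex_re] at h
    rw [← h]
    apply integral_congr_ae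
    exact Eventually.of_forall fun x => by simp
  have I4 : ∫ x in Ioi (0 : ℝ), x * (lp (g * w ^ 2) g x).re =
      ((4 : ℂ)⁻¹ * ∑ n ∈ s, (if n = 0 then 0 else (g * w ^ 2).coeff n * conj (g.coeff n))).re := by
    rw [← integral_lp (g * w ^ 2) g s hs2]
    have h := integral_re (𝕜 := ℂ) i4
    simp only [RCLike.re_eq_complex_re] at h
    rw [← h]
    apply integral_congr_ae
    exact Eventually.of_forall fun x => by simp
  have hmain : 4⁻¹ * ∫ x in Ioi (0 : ℝ), x * nx (g * D w) x ≤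
      3 * (∫ x in Ioi (0 : ℝ), x * nx (D g) x) +
      (2⁻¹ * (∫ x in Ioi (0 : ℝ), x * (lp (g * w) (g * w) x).re) +
        2⁻¹ * (∫ x in Ioi (0 : ℝ), x * (lp (g * w ^ 2) g x).re)) := by
    have j1 : IntegrableOn (fun x : ℝ => 4⁻¹ * (x * nx (g * D w) x)) (Ioi 0) := i1.const_mul _
    have j2 : IntegrableOn (fun x : ℝ => 3 * (x * nx (D g) x)) (Ioi 0) := i2.const_mul _
    have j3 : IntegrableOn (fun x : ℝ => 2⁻¹ * (x * (lp (g * w) (g * w) x).re)) (Ioi 0) :=
      i3'.const_mul _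
    have j4 : IntegrableOn (fun x : ℝ => 2⁻¹ * (x * (lp (g * w ^ 2) g x).re)) (Ioi 0) :=
      i4'.const_mul _
    have j34 : IntegrableOn (fun x : ℝ => 2⁻¹ * (x * (lp (g * w) (g * w) x).re) +
        2⁻¹ * (x * (lp (g * w ^ 2) g x).re)) (Ioi 0) := j3.add j4
    have k34 : ∫ x in Ioi (0 : ℝ), (2⁻¹ * (x * (lp (g * w) (g * w) x).re) +
        2⁻¹ * (x * (lp (g * w ^ 2) g x).re)) =
        2⁻¹ * (∫ x in Ioi (0 : ℝ), x * (lp (g * w) (g * w) x).re) +
        2⁻¹ * (∫ x in Ioi (0 : ℝ), x * (lp (g * w ^ 2) g x).re) := by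
      rw [integral_add j3 j4, integral_const_mul, integral_const_mul]
    have k : ∫ x in Ioi (0 : ℝ), (3 * (x * nx (D g) x) + (2⁻¹ * (x * (lp (g * w) (g * w) x).re) +
        2⁻¹ * (x * (lp (g * w ^ 2) g x).re))) =
        3 * (∫ x in Ioi (0 : ℝ), x * nx (D g) x) +
        (2⁻¹ * (∫ x in Ioi (0 : ℝ), x * (lp (g * w) (g * w) x).re) +
        2⁻¹ * (∫ x in Ioi (0 : ℝ), x * (lp (g * w ^ 2) g x).re)) := by
      rw [integral_add j2 j34, k34, integral_const_mul]
    rw [← k, ← integral_const_mul]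
    apply setIntegral_mono_on j1 (j2.add j34) measurableSet_Ioi
    intro x hx
    have hx' : (0 : ℝ) < x := hx
    have h := mul_le_mul_of_nonneg_left (avr_sq_mul_le g w hw x hx'.le) hx'.le
    simp only [Pi.add_apply]
    nlinarith
  -- the boundary value
  have hb : 2⁻¹ * (∫ x in Ioi (0 : ℝ), x * (lp (g * w) (g * w) x).re) +
        2⁻¹ * (∫ x in Ioi (0 : ℝ), x * (lp (g * w ^ 2) g x).re) ≤ nsq g / 4 := by
    rw [I3, I4]
    -- the mean value of |g|² U² on the circle
    have hA : avr (fun t => ‖ev g 0 t‖ ^ 2 * (ev w 0 t).re ^ 2) =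
        2⁻¹ * (∑ n ∈ s, (g * w).coeff n * conj ((g * w).coeff n)).re +
        2⁻¹ * (∑ n ∈ s, (g * w ^ 2).coeff n * conj (g.coeff n)).re := by
      have a1 := av_ev_mul_conj (g * w) (g * w) 0 s hs1
      have a2 := av_ev_mul_conj (g * w ^ 2) g 0 s hs2
      simp only [mul_zero, neg_zero, Real.exp_zero, Complex.ofReal_one, mul_one] at a1 a2
      rw [← a1, ← a2, re_av (by fun_prop), re_av (by fun_prop), ← avr_const_mul, ← avr_const_mul,
        ← avr_add (by fun_prop) (by fun_prop)]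
      congr 1
      funext t
      rw [ev_mul, ev_mul, pow_two w, ev_mul, ← Complex.normSq_eq_norm_sq, Complex.normSq_apply]
      simp only [Complex.mul_re, Complex.mul_im, Complex.conj_re, Complex.conj_im]
      ring
    have hA2 : avr (fun t => ‖ev g 0 t‖ ^ 2 * (ev w 0 t).re ^ 2) ≤ nsq g := by
      rw [← nx_zero, ← avr_norm_sq]
      apply avr_mono (by fun_prop) (by fun_prop)
      intro t
      have hU : |(ev w 0 t).re| ≤ 1 := by
        apply hw
        rw [Complex.norm_exp]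
        simp
      have : (ev w 0 t).re ^ 2 ≤ 1 := by rw [← sq_abs]; nlinarith [abs_nonneg (ev w 0 t).re]
      nlinarith [sq_nonneg ‖ev g 0 t‖]
    -- split off the terms n = 0
    have hsplit : ∀ F : ℕ → ℂ, (∑ n ∈ s, (if n = 0 then 0 else F n)) =
        (∑ n ∈ s, F n) - (if (0 : ℕ) ∈ s then F 0 else 0) := by
      intro F
      have : ∀ n ∈ s, (if n = 0 then 0 else F n) = F n - (if n = 0 then F n else 0) := by
        intro n _; split_ifs <;> simp
      rw [Finset.sum_congr rfl this, Finset.sum_sub_distrib]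
      congr 1
      rw [Finset.sum_ite_eq' s 0 F]
    rw [hsplit, hsplit]
    have h0 : 0 ≤ 2⁻¹ * ((if (0 : ℕ) ∈ s then (g * w).coeff 0 * conj ((g * w).coeff 0) else 0 : ℂ)).re
        + 2⁻¹ * ((if (0 : ℕ) ∈ s then (g * w ^ 2).coeff 0 * conj (g.coeff 0) else 0 : ℂ)).re := by
      split_ifs
      · rw [Polynomial.mul_coeff_zero, Polynomial.mul_coeff_zero, pow_two, Polynomial.mul_coeff_zero]
        set a := g.coeff 0
        set b := w.coeff 0
        have : 2⁻¹ * (a * b * conj (a * b)).re + 2⁻¹ * (a * (b * b) * conj a).re =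
            (a.re ^ 2 + a.im ^ 2) * b.re ^ 2 := by
          simp only [Complex.mul_re, Complex.mul_im, Complex.conj_re, Complex.conj_im, map_mul]
          ring
        rw [this]; positivity
      · simp
    have h4 : ∀ z : ℂ, ((4 : ℂ)⁻¹ * z).re = 4⁻¹ * z.re := by
      intro z
      rw [show (4 : ℂ)⁻¹ = (((4 : ℝ)⁻¹ : ℝ) : ℂ) by push_cast; ring, Complex.re_ofReal_mul]
    rw [h4, h4, Complex.sub_re, Complex.sub_re]
    linarith
  have h3 := integral_nx_D g
  nlinarith [nsq_nonneg g]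

end Pool.Agent.R244.RP
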