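import Pool.Agent.R244.RP.Defs2

/-!
# Project RP (MP_1d9d5b_an): RP-X, the multiplier of a finite measure on `H¹` (helper360)
-/

set_option autoImplicit false

open MeasureTheory Filter Topology
open scoped BigOperators Real ENNReal NNReal

namespace Pool.Agent.R244.RP

namespace PieceX

/-- the circle -/
abbrev TT : Type := AddCircle (2 * π)

/-- normalised Haar measure -/
noncomputable abbrev hm : Measure TT := AddCircle.haarAddCircle (T := 2 * π)

/-- `L¹` of the circle -/
abbrev L1T : Type := Lp ℂ 1 hm

lemma integral_mul_eq_zero (f : L1T)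
    (h : ∀ n : ℤ, fourierCoeff (T := 2 * π) (f : TT → ℂ) n = 0) (φ : C(TT, ℂ)) :
    ∫ t, φ t * f t ∂hm = 0 := by
  have hint : Integrable (f : TT → ℂ) hm := L1.integrable_coeFn f
  have hI : ∀ φ : C(TT, ℂ), Integrable (fun t => φ t * f t) hm := fun φ =>
    hint.bdd_mul (c := ‖φ‖) φ.continuous.aestronglyMeasurable
      (Eventually.of_forall fun t => φ.norm_coe_le_norm t)
  let Λ : C(TT, ℂ) →L[ℂ] ℂ := LinearMap.mkContinuous
    { toFun := fun φ => ∫ t, φ t * f t ∂hm
      map_add' := fun φ ψ => by
        rw [← integral_add (hI φ) (hI ψ)]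
        refine integral_congr_ae (Eventually.of_forall fun t => ?_)
        simp [add_mul]
      map_smul' := fun c φ => by
        simp only [ContinuousMap.smul_apply, smul_eq_mul, RingHom.id_apply, mul_assoc]
        rw [integral_const_mul] }
    (∫ t, ‖f t‖ ∂hm) (fun φ => by
      calc ‖∫ t, φ t * f t ∂hm‖ ≤ ∫ t, ‖φ t * f t‖ ∂hm := norm_integral_le_integral_norm _
        _ ≤ ∫ t, ‖φ‖ * ‖f t‖ ∂hm := integral_mono (hI φ).norm (hint.norm.const_mul _) (fun t => by
              change ‖φ t * f t‖ ≤ ‖φ‖ * ‖f t‖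
              rw [norm_mul]
              exact mul_le_mul_of_nonneg_right (φ.norm_coe_le_norm t) (norm_nonneg _))
        _ = (∫ t, ‖f t‖ ∂hm) * ‖φ‖ := by rw [integral_const_mul, mul_comm])
  have hker : (⊤ : Submodule ℂ C(TT, ℂ)) ≤ LinearMap.ker (Λ : C(TT, ℂ) →ₗ[ℂ] ℂ) := by
    rw [← span_fourier_closure_eq_top (T := 2 * π)]
    refine Submodule.topologicalClosure_minimal _ ?_ (ContinuousLinearMap.isClosed_ker Λ)
    rw [Submodule.span_le]
    rintro _ ⟨n, rfl⟩
    have h1 := h (-n)
    unfold fourierCoeff at h1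
    rw [neg_neg] at h1
    exact h1
  exact hker (Submodule.mem_top (x := φ))

/-- an element of `L¹` without Fourier coefficients is zero -/
lemma eq_zero_of_fourierCoeff (f : L1T)
    (h : ∀ n : ℤ, fourierCoeff (T := 2 * π) (f : TT → ℂ) n = 0) : f = 0 := by
  have hint : Integrable (f : TT → ℂ) hm := L1.integrable_coeFn f
  rw [Lp.eq_zero_iff_ae_eq_zero]
  refine ae_eq_zero_of_forall_setIntegral_isClosed_eq_zero hint fun F hF => ?_
  have ht : Tendsto (fun n => ∫ t, ((hF.apprSeq n t : ℝ≥0) : ℂ) * f t ∂hm) atTop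
      (𝓝 (∫ t, F.indicator (fun t => f t) t ∂hm)) := by
    refine tendsto_integral_of_dominated_convergence (fun t => ‖f t‖) ?_ hint.norm ?_ ?_
    · intro n
      refine AEStronglyMeasurable.mul ?_ hint.aestronglyMeasurable
      have hc : Continuous (fun t => ((hF.apprSeq n t : ℝ≥0) : ℂ)) :=
        Complex.continuous_ofReal.comp (NNReal.continuous_coe.comp (hF.apprSeq n).continuous)
      exact hc.aestronglyMeasurable
    · intro n
      refine Eventually.of_forall fun t => ?_
      rw [norm_mul]
      have h1 : hF.apprSeq n t ≤ 1 := HasOuterApproxClosed.apprSeq_apply_le_one hF n t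
      have h2 : ‖((hF.apprSeq n t : ℝ≥0) : ℂ)‖ ≤ 1 := by
        rw [Complex.norm_real, Real.norm_of_nonneg (NNReal.coe_nonneg _)]
        exact_mod_cast h1
      calc ‖((hF.apprSeq n t : ℝ≥0) : ℂ)‖ * ‖f t‖ ≤ 1 * ‖f t‖ :=
            mul_le_mul_of_nonneg_right h2 (norm_nonneg _)
        _ = ‖f t‖ := one_mul _
    · refine Eventually.of_forall fun t => ?_
      have h1 : Tendsto (fun n => hF.apprSeq n t) atTop (𝓝 (F.indicator (fun _ => (1 : ℝ≥0)) t)) :=
        (tendsto_pi_nhds.1 (HasOuterApproxClosed.tendsto_apprSeq hF)) t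
      have h2 : Tendsto (fun n => ((hF.apprSeq n t : ℝ≥0) : ℂ)) atTop
          (𝓝 ((F.indicator (fun _ => (1 : ℝ≥0)) t : ℝ≥0) : ℂ)) :=
        (Complex.continuous_ofReal.tendsto _).comp ((NNReal.continuous_coe.tendsto _).comp h1)
      have h3 := h2.mul_const (f t)
      by_cases hx : t ∈ F
      · rw [Set.indicator_of_mem hx] at h3 ⊢
        simpa using h3
      · rw [Set.indicator_of_notMem hx] at h3 ⊢
        simpa using h3
  have h0 : ∀ n, ∫ t, ((hF.apprSeq n t : ℝ≥0) : ℂ) * f t ∂hm = 0 := fun n =>
    integral_mul_eq_zero f h ⟨fun t => ((hF.apprSeq n t : ℝ≥0) : ℂ),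
      Complex.continuous_ofReal.comp (NNReal.continuous_coe.comp (hF.apprSeq n).continuous)⟩
  simp only [h0] at ht
  rw [integral_indicator hF.measurableSet] at ht
  exact tendsto_nhds_unique ht tendsto_const_nhds

/-- translations -/
noncomputable def tr (s : TT) : L1T →ₗᵢ[ℂ] L1T :=
  Lp.compMeasurePreservingₗᵢ ℂ (fun t => t - s) (measurePreserving_sub_right hm s)

lemma tr_ae (s : TT) (f : L1T) : (tr s f : TT → ℂ) =ᵐ[hm] fun t => f (t - s) :=
  Lp.coeFn_compMeasurePreserving f (measurePreserving_sub_right hm s)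

lemma continuous_tr (f : L1T) : Continuous (fun s => tr s f) := by
  have hc : Continuous (fun p : TT × TT => p.2 - p.1) := by fun_prop
  let g : C(TT, C(TT, TT)) := (ContinuousMap.mk (fun p : TT × TT => p.2 - p.1) hc).curry
  have := Continuous.compMeasurePreservingLp (μ := hm) (ν := hm) (p := 1)
    (f := fun _ : TT => f) (g := g) continuous_const g.continuous
    (fun s => measurePreserving_sub_right hm s) (by simp)
  exact this

lemma integrable_tr (μ : Measure TT) [IsFiniteMeasure μ] (f : L1T) :
    Integrable (fun s => tr s f) μ :=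
  Integrable.of_bound (continuous_tr f).aestronglyMeasurable ‖f‖
    (Eventually.of_forall fun s => by rw [LinearIsometry.norm_map])

/-- convolution with the measure -/
noncomputable def conv (μ : Measure TT) [IsFiniteMeasure μ] : L1T →L[ℂ] L1T :=
  LinearMap.mkContinuous
    { toFun := fun f => ∫ s, tr s f ∂μ
      map_add' := fun f g => by
        rw [← integral_add (integrable_tr μ f) (integrable_tr μ g)]
        refine integral_congr_ae (Eventually.of_forall fun s => ?_)
        exact map_add (tr s) f g
      map_smul' := fun c f => by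
        rw [RingHom.id_apply, ← integral_smul]
        refine integral_congr_ae (Eventually.of_forall fun s => ?_)
        exact map_smul (tr s) c f }
    (μ.real Set.univ) (fun f => by
      change ‖∫ s, tr s f ∂μ‖ ≤ μ.real Set.univ * ‖f‖
      have := norm_integral_le_of_norm_le_const (μ := μ) (f := fun s => tr s f) (C := ‖f‖)
        (Eventually.of_forall fun s => by rw [LinearIsometry.norm_map])
      exact this.trans_eq (mul_comm _ _))

lemma conv_apply (μ : Measure TT) [IsFiniteMeasure μ] (f : L1T) :
    conv μ f = ∫ s, tr s f ∂μ := rfl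

/-- the Fourier coefficient as a functional -/
noncomputable def coef (n : ℤ) : L1T →L[ℂ] ℂ :=
  LinearMap.mkContinuous
    { toFun := fun f => fourierCoeff (T := 2 * π) (f : TT → ℂ) n
      map_add' := fun f g => by
        have hI : ∀ f : L1T, Integrable (fun t => (fourier (-n) : C(TT, ℂ)) t • f t) hm := fun f =>
          (L1.integrable_coeFn f).bdd_mul (c := 1) (fourier (-n)).continuous.aestronglyMeasurable
            (Eventually.of_forall fun t => by rw [fourier_apply, Circle.norm_coe])
        unfold fourierCoeff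
        rw [← integral_add (hI f) (hI g)]
        refine integral_congr_ae ?_
        filter_upwards [Lp.coeFn_add f g] with t ht
        rw [ht, Pi.add_apply, smul_add]
      map_smul' := fun c f => by
        unfold fourierCoeff
        rw [RingHom.id_apply, ← integral_smul]
        refine integral_congr_ae ?_
        filter_upwards [Lp.coeFn_smul c f] with t ht
        rw [ht, Pi.smul_apply, smul_comm] }
    1 (fun f => by
      change ‖fourierCoeff (T := 2 * π) (f : TT → ℂ) n‖ ≤ 1 * ‖f‖
      unfold fourierCoeff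
      rw [one_mul, L1.norm_eq_integral_norm]
      refine (norm_integral_le_integral_norm _).trans (le_of_eq ?_)
      refine integral_congr_ae (Eventually.of_forall fun t => ?_)
      change ‖(fourier (-n) : C(TT, ℂ)) t • f t‖ = ‖f t‖
      rw [norm_smul, fourier_apply, Circle.norm_coe, one_mul])

lemma coef_apply (n : ℤ) (f : L1T) : coef n f = fourierCoeff (T := 2 * π) (f : TT → ℂ) n := rfl

lemma fourier_add_arg (n : ℤ) (x y : TT) :
    (fourier n : C(TT, ℂ)) (x + y) = fourier n x * fourier n y := by
  rw [fourier_apply, fourier_apply, fourier_apply, smul_add, AddCircle.toCircle_add, Circle.coe_mul]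

lemma coef_tr (n : ℤ) (s : TT) (f : L1T) :
    coef n (tr s f) = (fourier (-n) : C(TT, ℂ)) s * coef n f := by
  rw [coef_apply, coef_apply]
  unfold fourierCoeff
  have h1 : ∫ t, (fourier (-n) : C(TT, ℂ)) t • (tr s f) t ∂hm =
      ∫ t, (fun t => (fourier (-n) : C(TT, ℂ)) (t + s) • f t) (t - s) ∂hm := by
    refine integral_congr_ae ?_
    filter_upwards [tr_ae s f] with t ht
    rw [ht]
    simp only [sub_add_cancel]
  rw [h1, integral_sub_right_eq_self (fun t => (fourier (-n) : C(TT, ℂ)) (t + s) • f t) s,
    ← integral_const_mul]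
  refine integral_congr_ae (Eventually.of_forall fun t => ?_)
  change (fourier (-n) : C(TT, ℂ)) (t + s) • f t = fourier (-n) s * (fourier (-n) t • f t)
  rw [fourier_add_arg, smul_eq_mul, smul_eq_mul]
  ring

lemma coef_conv (μ : Measure TT) [IsFiniteMeasure μ] (n : ℤ) (f : L1T) :
    coef n (conv μ f) = fc μ n * coef n f := by
  rw [conv_apply, ← ContinuousLinearMap.integral_comp_comm _ (integrable_tr μ f)]
  unfold fc
  rw [← integral_mul_const]
  refine integral_congr_ae (Eventually.of_forall fun s => ?_)
  exact coef_tr n s f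

end PieceX

open PieceX in
/-- RP-X: existence and uniqueness of the multiplier of a finite measure. -/
theorem stmX : StmX := by
  intro μ _
  have hH : ∀ (f : L1T), f ∈ H1 ↔ ∀ n : ℤ, n < 0 → coef n f = 0 := fun f => Iff.rfl
  let T : H1 →L[ℂ] H1 := ((conv μ).comp H1.subtypeL).codRestrict H1 (fun f => by
    rw [hH]
    intro n hn
    change coef n (conv μ f) = 0
    rw [coef_conv, (hH f).1 f.2 n hn, mul_zero])
  have hT : IsMult μ T := fun f n => coef_conv μ n f
  refine ⟨T, hT, fun T' hT' => ?_⟩
  refine ContinuousLinearMap.ext fun f => ?_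
  rw [← sub_eq_zero]
  refine Subtype.ext ?_
  refine eq_zero_of_fourierCoeff _ fun n => ?_
  change coef n ((T' f : L1T) - (T f : L1T)) = 0
  rcases lt_or_ge n 0 with hn | hn
  · rw [map_sub, (hH _).1 (T' f).2 n hn, (hH _).1 (T f).2 n hn, sub_zero]
  · obtain ⟨k, rfl⟩ := Int.eq_ofNat_of_zero_le hn
    rw [map_sub, sub_eq_zero]
    exact (hT' f k).trans (hT f k).symm

end Pool.Agent.R244.RP
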